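import Mathlib

/-!
# Counting elements with a property
-/

set_option autoImplicit false

namespace Pool.Agent.Helper185_DS

open Finset

/-- The number of elements with a property. -/
noncomputable def cnt {α : Type*} (P : α → Prop) : ℕ := Nat.card {x // P x}

lemma cnt_eq {α : Type*} [Fintype α] (P : α → Prop) [DecidablePred P] :
    cnt P = (univ.filter P).card := by
  rw [cnt, Nat.card_eq_fintype_card, Fintype.card_subtype]

lemma cnt_mono {α : Type*} [Finite α] {P Q : α → Prop} (h : ∀ x, P x → Q x) : cnt P ≤ cnt Q :=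
  Nat.card_le_card_of_injective (fun x : {x // P x} => (⟨x.1, h x.1 x.2⟩ : {x // Q x}))
    (fun a b hab => Subtype.ext (by simpa using hab))

lemma cnt_congr {α : Type*} {P Q : α → Prop} (h : ∀ x, P x ↔ Q x) : cnt P = cnt Q := by
  rw [show P = Q from funext fun x => propext (h x)]

lemma cnt_le_card {α : Type*} [Finite α] (P : α → Prop) : cnt P ≤ Nat.card α :=
  Nat.card_le_card_of_injective (fun x : {x // P x} => x.1) Subtype.val_injective

lemma cnt_true {α : Type*} [Finite α] : cnt (fun _ : α => True) = Nat.card α :=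
  Nat.card_congr (Equiv.subtypeUnivEquiv fun _ => trivial)

lemma cnt_false {α : Type*} : cnt (fun _ : α => False) = 0 := by
  rw [cnt]; simp

/-- Comparison along an injective map. -/
lemma cnt_le_of_inj {α β : Type*} [Finite β] {P : α → Prop} {Q : β → Prop} (f : α → β)
    (hf : ∀ x, P x → Q (f x)) (hinj : ∀ x y, P x → P y → f x = f y → x = y) : cnt P ≤ cnt Q :=
  Nat.card_le_card_of_injective (fun x : {x // P x} => (⟨f x.1, hf x.1 x.2⟩ : {x // Q x}))
    (fun a b hab => Subtype.ext (hinj _ _ a.2 b.2 (by simpa using hab)))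

lemma cnt_equiv {α β : Type*} {P : α → Prop} {Q : β → Prop} (e : α ≃ β)
    (h : ∀ x, P x ↔ Q (e x)) : cnt P = cnt Q :=
  Nat.card_congr (e.subtypeEquiv h)

/-- Union bound. -/
lemma cnt_exists_le {α ι : Type*} [Finite α] (s : Finset ι) (P : ι → α → Prop) :
    cnt (fun x => ∃ i ∈ s, P i x) ≤ ∑ i ∈ s, cnt (P i) := by
  classical
  have := Fintype.ofFinite α
  simp only [cnt_eq]
  refine le_trans (Finset.card_le_card ?_) (Finset.card_biUnion_le (s := s) (t := fun i => univ.filter (P i)))
  intro x hx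
  rw [Finset.mem_filter] at hx
  obtain ⟨i, hi, hx⟩ := hx.2
  rw [Finset.mem_biUnion]
  exact ⟨i, hi, by rw [Finset.mem_filter]; exact ⟨Finset.mem_univ _, hx⟩⟩

lemma cnt_exists_le' {α ι : Type*} [Finite α] [Fintype ι] (P : ι → α → Prop) :
    cnt (fun x => ∃ i, P i x) ≤ ∑ i, cnt (P i) := by
  refine le_trans (cnt_mono ?_) (cnt_exists_le univ P)
  rintro x ⟨i, hi⟩
  exact ⟨i, Finset.mem_univ _, hi⟩

/-- Fubini. -/
lemma cnt_prod {α β : Type*} [Fintype α] [Finite β] (P : α → β → Prop) :
    cnt (fun p : α × β => P p.1 p.2) = ∑ a, cnt (P a) := by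
  classical
  have := Fintype.ofFinite β
  simp only [cnt_eq]
  rw [← Finset.card_sigma]
  refine Finset.card_bij (fun p _ => (⟨p.1, p.2⟩ : Σ _ : α, β)) ?_ ?_ ?_
  · intro p hp
    rw [Finset.mem_filter] at hp
    rw [Finset.mem_sigma, Finset.mem_filter]
    exact ⟨Finset.mem_univ _, Finset.mem_univ _, hp.2⟩
  · intro p _ q _ h
    simp only [Sigma.mk.injEq, heq_eq_eq] at h
    exact Prod.ext h.1 h.2
  · rintro ⟨a, b⟩ h
    rw [Finset.mem_sigma, Finset.mem_filter] at h
    exact ⟨(a, b), by rw [Finset.mem_filter]; exact ⟨Finset.mem_univ _, h.2.2⟩, rfl⟩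

lemma cnt_prod_swap {α β : Type*} [Finite α] [Fintype β] (P : α → β → Prop) :
    cnt (fun p : α × β => P p.1 p.2) = ∑ b, cnt (fun a => P a b) := by
  rw [← cnt_prod (fun b a => P a b)]
  exact cnt_equiv (Equiv.prodComm α β) (fun x => Iff.rfl)

/-- A pair whose first component satisfies `P` and whose second component satisfies one of few
conditions. -/
lemma cnt_prod_le {α β : Type*} [Finite α] [Finite β] (P : α → Prop) (Q : α → β → Prop) (q : ℕ)
    (h : ∀ a, P a → cnt (Q a) ≤ q) : cnt (fun p : α × β => P p.1 ∧ Q p.1 p.2) ≤ cnt P * q := by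
  classical
  have := Fintype.ofFinite α
  rw [cnt_prod (fun a b => P a ∧ Q a b), cnt_eq P, ← smul_eq_mul, ← Finset.sum_const,
    Finset.sum_filter]
  refine Finset.sum_le_sum fun a _ => ?_
  by_cases ha : P a
  · rw [if_pos ha]
    refine le_trans (cnt_mono ?_) (h a ha)
    intro b hb; exact hb.2
  · rw [if_neg ha]
    have : cnt (fun b => P a ∧ Q a b) = 0 := by
      rw [← cnt_false (α := β)]
      exact cnt_congr fun b => ⟨fun hb => ha hb.1, fun hb => hb.elim⟩
    rw [this]

lemma cnt_prod_le' {α β : Type*} [Finite α] [Finite β] (P : β → Prop) (Q : α → β → Prop) (q : ℕ)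
    (h : ∀ b, P b → cnt (fun a => Q a b) ≤ q) : cnt (fun p : α × β => P p.2 ∧ Q p.1 p.2) ≤ cnt P * q := by
  rw [← cnt_equiv (Equiv.prodComm β α) (P := fun p : β × α => P p.1 ∧ Q p.2 p.1) (fun x => Iff.rfl)]
  exact cnt_prod_le P (fun b a => Q a b) q h

end Pool.Agent.Helper185_DS
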