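import Mathlib
import Pool.Agent.Helper185_DS.Cnt

/-!
# Counting over the field with two elements
-/

set_option autoImplicit false

namespace Pool.Agent.Helper185_DS

open Matrix Finset

open scoped Classical in
/-- Number of vectors orthogonal to `r` linearly independent vectors. -/
theorem card_orth {W : Type*} [Fintype W] {r : ℕ} (z : Fin r → W → ZMod 2)
    (hz : LinearIndependent (ZMod 2) z) :
    cnt (fun x : W → ZMod 2 => ∀ j, z j ⬝ᵥ x = 0) = 2 ^ (Fintype.card W - r) := by
  rw [cnt_eq]
  have hfact : Fact (Nat.Prime 2) := ⟨Nat.prime_two⟩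
  let L : (W → ZMod 2) →ₗ[ZMod 2] (Fin r → ZMod 2) := (Matrix.of z).mulVecLin
  have hrank : (Matrix.of z).rank = r := by
    have := hz.rank_matrix (M := Matrix.of z)
    simpa using this
  have h1 : Module.finrank (ZMod 2) (LinearMap.range L) = r := hrank
  have h2 := LinearMap.finrank_range_add_finrank_ker L
  rw [h1, Module.finrank_fintype_fun_eq_card] at h2
  have h3 : Module.finrank (ZMod 2) (LinearMap.ker L) = Fintype.card W - r := by omega
  have h4 : (univ.filter fun x : W → ZMod 2 => ∀ j, z j ⬝ᵥ x = 0).card =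
      Fintype.card (LinearMap.ker L) := by
    rw [← Fintype.card_subtype]
    refine Fintype.card_congr (Equiv.subtypeEquivRight fun x => ?_)
    simp only [LinearMap.mem_ker, L, Matrix.mulVecLin_apply]
    constructor
    · intro h; ext j; exact h j
    · intro h j; exact congrFun h j
  rw [h4, Module.card_eq_pow_finrank (K := ZMod 2), h3, ZMod.card]

/-- `r` vectors which are linearly independent, pairwise orthogonal and self-orthogonal. -/
def IsoTuple {W : Type*} [Fintype W] {r : ℕ} (z : Fin r → W → ZMod 2) : Prop :=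
  LinearIndependent (ZMod 2) z ∧ ∀ i j, z i ⬝ᵥ z j = 0

lemma dot_self_two {W : Type*} [Fintype W] (x : W → ZMod 2) : x ⬝ᵥ x = 1 ⬝ᵥ x := by
  simp only [dotProduct, Pi.one_apply, one_mul]
  refine Finset.sum_congr rfl fun w _ => ?_
  generalize x w = a
  revert a; decide

lemma one_not_mem {W : Type*} [Fintype W] (hodd : Odd (Fintype.card W)) {r : ℕ}
    (z : Fin r → W → ZMod 2) (hz : IsoTuple z) :
    (1 : W → ZMod 2) ∉ Submodule.span (ZMod 2) (Set.range z) := by
  intro hmem
  rw [Submodule.mem_span_range_iff_exists_fun] at hmem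
  obtain ⟨b, hb⟩ := hmem
  have h1 : (1 : W → ZMod 2) ⬝ᵥ 1 = 1 := by
    have : (1 : W → ZMod 2) ⬝ᵥ 1 = (Fintype.card W : ZMod 2) := by
      simp [dotProduct]
    rw [this]
    exact (ZMod.natCast_eq_one_iff_odd).2 hodd
  have h2 : ∀ i, (1 : W → ZMod 2) ⬝ᵥ z i = 0 := by
    intro i; rw [← dot_self_two, hz.2]
  have h3 : (1 : W → ZMod 2) ⬝ᵥ 1 = 0 := by
    conv_lhs => rw [← hb]
    rw [sum_dotProduct, Finset.sum_eq_zero]
    intro i _
    rw [smul_dotProduct]
    have : z i ⬝ᵥ ∑ i, b i • z i = 0 := by
      rw [dotProduct_sum, Finset.sum_eq_zero]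
      intro k _
      rw [dotProduct_smul, hz.2, smul_zero]
    rw [this, smul_zero]
  rw [h1] at h3
  exact one_ne_zero h3

/-- Isotropic tuples are short. -/
lemma IsoTuple.two_mul_le {W : Type*} [Fintype W] {r : ℕ} {z : Fin r → W → ZMod 2}
    (hz : IsoTuple z) : 2 * r ≤ Fintype.card W := by
  classical
  have hfact : Fact (Nat.Prime 2) := ⟨Nat.prime_two⟩
  let L : (W → ZMod 2) →ₗ[ZMod 2] (Fin r → ZMod 2) := (Matrix.of z).mulVecLin
  have hrank : (Matrix.of z).rank = r := by
    have := hz.1.rank_matrix (M := Matrix.of z)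
    simpa using this
  have h1 : Module.finrank (ZMod 2) (LinearMap.range L) = r := hrank
  have h2 := LinearMap.finrank_range_add_finrank_ker L
  rw [h1, Module.finrank_fintype_fun_eq_card] at h2
  have h5 : ∀ i, z i ∈ LinearMap.ker L := by
    intro i
    simp only [LinearMap.mem_ker, L, Matrix.mulVecLin_apply]
    ext j
    exact hz.2 j i
  have h6 : LinearIndependent (ZMod 2) (fun i => (⟨z i, h5 i⟩ : LinearMap.ker L)) := by
    have := hz.1
    exact LinearIndependent.of_comp (LinearMap.ker L).subtype this
  have h7 := h6.fintype_card_le_finrank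
  rw [Fintype.card_fin] at h7
  omega

open scoped Classical in
/-- The number of isotropic tuples. -/
theorem card_isoTuple {W : Type*} [Fintype W] (hodd : Odd (Fintype.card W)) (r : ℕ)
    (hr : r ≤ Fintype.card W) :
    cnt (fun z : Fin r → W → ZMod 2 => IsoTuple z) * 2 ^ (Fintype.card W - r).choose 2 ≤
      2 ^ (Fintype.card W).choose 2 := by
  rw [cnt_eq]
  induction r with
  | zero =>
    rw [Nat.sub_zero]
    have : (univ.filter fun z : Fin 0 → W → ZMod 2 => IsoTuple z).card ≤ 1 := by
      refine (Finset.card_filter_le _ _).trans ?_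
      simp
    calc _ ≤ 1 * 2 ^ (Fintype.card W).choose 2 := Nat.mul_le_mul_right _ this
      _ = _ := one_mul _
  | succ r ih =>
    have ih' := ih (by omega)
    set m := Fintype.card W with hm
    -- extension
    have hext : (univ.filter fun z : Fin (r + 1) → W → ZMod 2 => IsoTuple z).card ≤
        (univ.filter fun z : Fin r → W → ZMod 2 => IsoTuple z).card * 2 ^ (m - (r + 1)) := by
      have hsub : (univ.filter fun z : Fin (r + 1) → W → ZMod 2 => IsoTuple z) ⊆
          ((univ.filter fun z : Fin r → W → ZMod 2 => IsoTuple z).sigma fun z =>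
            univ.filter fun x : W → ZMod 2 => ∀ j : Fin (r + 1),
              (Fin.cons 1 z : Fin (r + 1) → W → ZMod 2) j ⬝ᵥ x = 0).image
            fun p => (Fin.snoc p.1 p.2 : Fin (r + 1) → W → ZMod 2) := by
        intro z hz
        rw [Finset.mem_filter] at hz
        rw [Finset.mem_image]
        refine ⟨⟨Fin.init z, z (Fin.last r)⟩, ?_, ?_⟩
        · rw [Finset.mem_sigma, Finset.mem_filter, Finset.mem_filter]
          refine ⟨⟨Finset.mem_univ _, ?_, ?_⟩, Finset.mem_univ _, ?_⟩
          · exact hz.2.1.comp _ (Fin.castSucc_injective r)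
          · intro i j; exact hz.2.2 _ _
          · intro j
            refine Fin.cases ?_ (fun j => ?_) j
            · simp only [Fin.cons_zero]
              rw [← dot_self_two, hz.2.2]
            · simp only [Fin.cons_succ]
              exact hz.2.2 _ _
        · exact Fin.snoc_init_self z
      refine (Finset.card_le_card hsub).trans (Finset.card_image_le.trans ?_)
      rw [Finset.card_sigma]
      have : ∀ z ∈ (univ.filter fun z : Fin r → W → ZMod 2 => IsoTuple z),
          (univ.filter fun x : W → ZMod 2 => ∀ j : Fin (r + 1),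
              (Fin.cons 1 z : Fin (r + 1) → W → ZMod 2) j ⬝ᵥ x = 0).card = 2 ^ (m - (r + 1)) := by
        intro z hz
        rw [Finset.mem_filter] at hz
        rw [← cnt_eq, card_orth]
        rw [linearIndependent_finCons]
        exact ⟨hz.2.1, one_not_mem hodd z hz.2⟩
      rw [Finset.sum_congr rfl this, Finset.sum_const, smul_eq_mul]
    have hch : (m - r).choose 2 = (m - (r + 1)) + (m - (r + 1)).choose 2 := by
      obtain ⟨k, hk⟩ : ∃ k, m - r = k + 1 := ⟨m - r - 1, by omega⟩
      have hk' : m - (r + 1) = k := by omega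
      rw [hk, hk', Nat.choose_succ_succ' k 1]; simp
    calc _ ≤ ((univ.filter fun z : Fin r → W → ZMod 2 => IsoTuple z).card * 2 ^ (m - (r + 1))) *
          2 ^ (m - (r + 1)).choose 2 := Nat.mul_le_mul_right _ hext
      _ = (univ.filter fun z : Fin r → W → ZMod 2 => IsoTuple z).card * 2 ^ (m - r).choose 2 := by
          rw [hch, pow_add]; ring
      _ ≤ _ := ih'

end Pool.Agent.Helper185_DS
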