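import Mathlib
import Pool.Agent.Helper185_DS.Cnt

/-!
# Counting graphs

The number of graphs, and the number of graphs whose adjacency matrix over the field with two elements
has prescribed values on linearly independent vectors.
-/

set_option autoImplicit false

namespace Pool.Agent.Helper185_DS

open Matrix Finset

open scoped Classical in
/-- The number of graphs on a finite vertex set. -/
theorem card_graph (V : Type*) [Fintype V] :
    Fintype.card (SimpleGraph V) = 2 ^ (Fintype.card V).choose 2 := by
  have htop : (⊤ : SimpleGraph V).edgeFinset.card = (Fintype.card V).choose 2 :=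
    SimpleGraph.card_edgeFinset_top_eq_card_choose_two
  rw [← htop, ← Finset.card_powerset, ← Finset.card_univ]
  apply Finset.card_bij (fun G _ => G.edgeFinset)
  · intro G _
    rw [Finset.mem_powerset]
    exact SimpleGraph.edgeFinset_mono le_top
  · intro G _ H _ h
    exact SimpleGraph.edgeFinset_inj.1 h
  · intro S hS
    rw [Finset.mem_powerset] at hS
    refine ⟨SimpleGraph.fromEdgeSet (S : Set (Sym2 V)), Finset.mem_univ _, ?_⟩
    ext e
    refine (@SimpleGraph.mem_edgeFinset _ _ _ (_)).trans ?_
    rw [SimpleGraph.edgeSet_fromEdgeSet]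
    constructor
    · intro h; exact_mod_cast h.1
    · intro h
      refine ⟨by exact_mod_cast h, ?_⟩
      have := hS h
      rw [SimpleGraph.mem_edgeFinset] at this
      exact (⊤ : SimpleGraph V).not_isDiag_of_mem_edgeSet this

/-- The number of graphs on a finite vertex set. -/
theorem natCard_graph (V : Type*) [Finite V] :
    Nat.card (SimpleGraph V) = 2 ^ (Nat.card V).choose 2 := by
  classical
  have := Fintype.ofFinite V
  rw [Nat.card_eq_fintype_card, Nat.card_eq_fintype_card, ← card_graph V]

/-- Pivots: a linearly independent family of rows has an invertible square submatrix. -/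
theorem exists_pivots {W K : Type*} [Fintype W] [Field K] {r : ℕ} (z : Fin r → W → K)
    (hz : LinearIndependent K z) :
    ∃ p : Fin r → W, Function.Injective p ∧
      ∀ x : Fin r → K, (∀ j, ∑ k, x k * z j (p k) = 0) → x = 0 := by
  classical
  -- the columns span
  have hrank : (Matrix.of z).rank = r := by
    have := hz.rank_matrix (M := Matrix.of z)
    simpa using this
  have hcol : Module.finrank K (Submodule.span K (Set.range fun w : W => fun j : Fin r => z j w)) = r := by
    have := Matrix.rank_eq_finrank_span_cols (Matrix.of z)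
    rw [hrank] at this
    exact this.symm
  obtain ⟨f, hf1, hf2, hf3⟩ := Submodule.exists_fun_fin_finrank_span_eq K
    (Set.range fun w : W => fun j : Fin r => z j w)
  choose p hp using hf1
  have hf4 : LinearIndependent K (fun k : Fin r => f (Fin.cast hcol.symm k)) :=
    hf3.comp _ (Fin.cast_injective _)
  refine ⟨fun k => p (Fin.cast hcol.symm k), ?_, ?_⟩
  · intro a b hab
    apply hf4.injective
    simp only
    rw [← hp, ← hp]
    simp only at hab
    rw [hab]
  · intro x hx
    rw [Fintype.linearIndependent_iff] at hf4
    ext k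
    refine hf4 x ?_ k
    ext j
    rw [Finset.sum_apply]
    simp only [Pi.smul_apply, smul_eq_mul, Pi.zero_apply]
    rw [← hx j]
    refine Finset.sum_congr rfl fun k _ => ?_
    rw [← hp]

open scoped Classical in
/-- The adjacency matrix (decidability is classical). -/
noncomputable def adjM {W : Type*} (K : Type*) [Zero K] [One K] (G : SimpleGraph W) : Matrix W W K :=
  fun a b => if G.Adj a b then 1 else 0

open scoped Classical in
lemma adjM_apply {W K : Type*} [Zero K] [One K] (G : SimpleGraph W) (a b : W) :
    adjM K G a b = if G.Adj a b then 1 else 0 := rfl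

lemma adjM_symm {W K : Type*} [Zero K] [One K] (G : SimpleGraph W) (a b : W) :
    adjM K G a b = adjM K G b a := by
  by_cases h : G.Adj a b
  · simp [adjM_apply, h, h.symm]
  · have h' : ¬ G.Adj b a := fun h' => h h'.symm
    simp [adjM_apply, h, h']

lemma adjM_transpose {W K : Type*} [Zero K] [One K] (G : SimpleGraph W) :
    (adjM K G)ᵀ = adjM K G := by
  ext a b; exact adjM_symm _ _ _

lemma adjM_diag {W K : Type*} [Zero K] [One K] (G : SimpleGraph W) (a : W) :
    adjM K G a a = 0 := by
  simp [adjM_apply]

lemma adjM_inj {W K : Type*} [Zero K] [One K] [NeZero (1 : K)] {G G' : SimpleGraph W}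
    (h : ∀ a b, adjM K G a b = adjM K G' a b) : G = G' := by
  ext a b
  have := h a b
  simp only [adjM_apply] at this
  by_cases h1 : G.Adj a b <;> by_cases h2 : G'.Adj a b <;> simp_all

lemma adjM_eq {W K : Type*} [Zero K] [One K] (G : SimpleGraph W) [DecidableRel G.Adj] :
    G.adjMatrix K = adjM K G := by
  ext a b
  by_cases h : G.Adj a b <;> simp [adjM_apply, SimpleGraph.adjMatrix_apply, h]

open scoped Classical in
/-- The number of graphs whose adjacency matrix has prescribed values on independent vectors. -/
theorem card_prescribed {W K : Type*} [Fintype W] [Field K] {r : ℕ} (z : Fin r → W → K)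
    (hz : LinearIndependent K z) (y : Fin r → W → K) :
    cnt (fun G : SimpleGraph W => ∀ j, (adjM K G) *ᵥ z j = y j) ≤
      2 ^ (Fintype.card W - r).choose 2 := by
  rw [cnt_eq]
  obtain ⟨p, hp1, hp2⟩ := exists_pivots z hz
  obtain ⟨T, hT, hTmem, hTsum⟩ : ∃ T : Finset W, T.card = r ∧ (∀ u ∈ T, ∃ k, p k = u) ∧
      ∀ f : W → K, ∑ u ∈ T, f u = ∑ k, f (p k) := by
    refine ⟨univ.image p, ?_, ?_, ?_⟩
    · rw [Finset.card_image_of_injective _ hp1, Finset.card_univ, Fintype.card_fin]
    · intro u hu
      rw [Finset.mem_image] at hu
      obtain ⟨k, _, hk⟩ := hu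
      exact ⟨k, hk⟩
    · intro f
      exact Finset.sum_image (fun a _ b _ hab => hp1 hab)
  have hcard : Fintype.card {w // w ∉ T} = Fintype.card W - r := by
    rw [Fintype.card_subtype, Finset.filter_not, Finset.card_sdiff_of_subset (Finset.filter_subset _ _),
      Finset.card_univ]
    congr 1
    rw [← hT]
    congr 1
    ext w
    simp
  have hcard2 : (univ : Finset (SimpleGraph {w // w ∉ T})).card =
      2 ^ (Fintype.card W - r).choose 2 := by
    rw [Finset.card_univ, ← Nat.card_eq_fintype_card, natCard_graph, Nat.card_eq_fintype_card, hcard]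
  rw [← hcard2]
  refine Finset.card_le_card_of_injOn
    (fun G : SimpleGraph W => (G.comap Subtype.val : SimpleGraph {w // w ∉ T}))
    (fun _ _ => Finset.mem_coe.2 (Finset.mem_univ _)) ?_
  intro G hG G' hG' hGG
  rw [Finset.mem_coe, Finset.mem_filter] at hG hG'
  -- the difference of the matrices
  have hadj : ∀ a b, a ∉ T → b ∉ T → (adjM K G) a b = (adjM K G') a b := by
    intro a b ha hb
    have h1 : (G.comap (Subtype.val : {w // w ∉ T} → W)).Adj ⟨a, ha⟩ ⟨b, hb⟩ ↔
        (G'.comap (Subtype.val : {w // w ∉ T} → W)).Adj ⟨a, ha⟩ ⟨b, hb⟩ := by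
      simp only at hGG
      rw [hGG]
    simp only [SimpleGraph.comap_adj] at h1
    simp only [adjM_apply, h1]
  have hD : ∀ w j, ∑ u, ((adjM K G) w u - (adjM K G') w u) * z j u = 0 := by
    intro w j
    have h1 := congrFun (hG.2 j) w
    have h2 := congrFun (hG'.2 j) w
    simp only [Matrix.mulVec, dotProduct] at h1 h2
    simp only [sub_mul, Finset.sum_sub_distrib, h1, h2, sub_self]
  -- rows outside T vanish on T
  have step : ∀ w, (∀ u, u ∉ T → (adjM K G) w u = (adjM K G') w u) →
      ∀ u, (adjM K G) w u = (adjM K G') w u := by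
    intro w hw u
    by_cases hu : u ∈ T
    · have h3 : (fun k => (adjM K G) w (p k) - (adjM K G') w (p k)) = 0 := by
        apply hp2
        intro j
        have h4 := hD w j
        rw [← Finset.sum_subset (Finset.subset_univ T)] at h4
        · rw [hTsum] at h4
          exact h4
        · intro u _ hu'
          rw [hw u hu', sub_self, zero_mul]
      obtain ⟨k, rfl⟩ := hTmem u hu
      exact sub_eq_zero.1 (congrFun h3 k)
    · exact hw u hu
  have hsymm : ∀ (G : SimpleGraph W) a b, (adjM K G) a b = (adjM K G) b a := fun G a b =>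
    adjM_symm G a b
  have h5 : ∀ w u, w ∉ T → (adjM K G) w u = (adjM K G') w u :=
    fun w u hw => step w (fun u hu => hadj w u hw hu) u
  have h6 : ∀ w u, (adjM K G) w u = (adjM K G') w u := by
    intro w u
    refine step w (fun u hu => ?_) u
    rw [hsymm, hsymm G', h5 u w hu]
  exact adjM_inj h6

open scoped Classical in
/-- The number of matrices (given by columns) with columns orthogonal to given independent vectors and
one prescribed nontrivial combination of columns. -/
theorem card_columns {W I : Type*} [Fintype W] [Fintype I] {r : ℕ} (z : Fin r → W → ZMod 2)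
    (c : I → ZMod 2) (hc : c ≠ 0) (y : W → ZMod 2) (q : ℕ)
    (hq : cnt (fun x : W → ZMod 2 => ∀ j, z j ⬝ᵥ x = 0) ≤ q) :
    cnt (fun M : I → W → ZMod 2 => (∀ i j, z j ⬝ᵥ M i = 0) ∧ ∑ i, c i • M i = y) ≤
      q ^ (Fintype.card I - 1) := by
  rw [cnt_eq] at hq ⊢
  obtain ⟨i0, hi0⟩ : ∃ i, c i ≠ 0 := by
    by_contra h
    push Not at h
    exact hc (funext h)
  have hcI : Fintype.card {i // i ≠ i0} = Fintype.card I - 1 := by
    rw [Fintype.card_subtype_compl (fun i => i = i0), Fintype.card_subtype_eq]
  let X : Finset (W → ZMod 2) := univ.filter fun x : W → ZMod 2 => ∀ j, z j ⬝ᵥ x = 0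
  have hX : (Fintype.piFinset fun _ : {i // i ≠ i0} => X).card = X.card ^ (Fintype.card I - 1) := by
    rw [Fintype.card_piFinset, Finset.prod_const, Finset.card_univ, hcI]
  calc _ ≤ (Fintype.piFinset fun _ : {i // i ≠ i0} => X).card := by
        refine Finset.card_le_card_of_injOn (fun M => fun i : {i // i ≠ i0} => M i.1) ?_ ?_
        · intro M hM
          rw [Finset.mem_coe, Finset.mem_filter] at hM
          rw [Finset.mem_coe, Fintype.mem_piFinset]
          intro i
          rw [Finset.mem_filter]
          exact ⟨Finset.mem_univ _, fun j => hM.2.1 _ _⟩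
        · intro M hM M' hM' hMM
          rw [Finset.mem_coe, Finset.mem_filter] at hM hM'
          have h1 : ∀ i, i ≠ i0 → M i = M' i := fun i hi => congrFun hMM ⟨i, hi⟩
          have h2 : M i0 = M' i0 := by
            have h3 := hM.2.2.trans hM'.2.2.symm
            rw [← Finset.add_sum_erase _ _ (Finset.mem_univ i0),
              ← Finset.add_sum_erase _ (fun i => c i • M' i) (Finset.mem_univ i0)] at h3
            have h4 : ∑ i ∈ univ.erase i0, c i • M i = ∑ i ∈ univ.erase i0, c i • M' i :=
              Finset.sum_congr rfl fun i hi => by rw [h1 i (Finset.ne_of_mem_erase hi)]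
            rw [h4] at h3
            have h5 := add_right_cancel h3
            have h6 : c i0 = 1 := by
              revert hi0; generalize c i0 = a; revert a; decide
            rwa [h6, one_smul, one_smul] at h5
          funext i
          by_cases hi : i = i0
          · rw [hi, h2]
          · exact h1 i hi
    _ = X.card ^ (Fintype.card I - 1) := hX
    _ ≤ _ := Nat.pow_le_pow_left hq _

end Pool.Agent.Helper185_DS
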