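import Mathlib
import Pool.Agent.Helper185_DS.Count
import Pool.Agent.Helper185_DS.Graphs

/-!
# Krylov sequences over the field with two elements and the number of their initial segments
-/

set_option autoImplicit false
set_option linter.unusedSectionVars false
set_option linter.unusedSimpArgs false

namespace Pool.Agent.Helper185_DS

open Matrix Finset

lemma cnt_eq_zero {α : Type*} {P : α → Prop} (h : ∀ x, ¬ P x) : cnt P = 0 := by
  rw [← cnt_false (α := α)]
  exact cnt_congr fun x => ⟨fun hx => h x hx, fun hx => False.elim hx⟩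

/-- Counting through a relation with few possible values. -/
lemma cnt_fiber_le {α β : Type*} [Finite α] [Finite β] (P : α → Prop) (R : α → β → Prop)
    (T : β → Prop) (B : ℕ) (h1 : ∀ x, P x → ∃ y, T y ∧ R x y)
    (h2 : ∀ y, T y → cnt (fun x => P x ∧ R x y) ≤ B) : cnt P ≤ cnt T * B := by
  classical
  have := Fintype.ofFinite β
  have hle : cnt P ≤ cnt (fun x => ∃ y ∈ univ.filter T, P x ∧ R x y) := by
    refine cnt_mono fun x hx => ?_
    obtain ⟨y, hy, hxy⟩ := h1 x hx
    exact ⟨y, by simp [hy], hx, hxy⟩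
  refine hle.trans ((cnt_exists_le _ _).trans ?_)
  calc _ ≤ ∑ _y ∈ univ.filter T, B := by
        refine Finset.sum_le_sum fun y hy => h2 y ?_
        simpa using hy
    _ = cnt T * B := by rw [Finset.sum_const, smul_eq_mul, cnt_eq]

lemma cnt_snoc_le {V : Type*} [Finite V] {r : ℕ} (P : (Fin r → V) → Prop)
    (Q : (Fin (r + 1) → V) → Prop) (M : ℕ) (h1 : ∀ t, Q t → P (Fin.init t))
    (h2 : ∀ t, P t → cnt (fun x => Q (Fin.snoc t x)) ≤ M) : cnt Q ≤ cnt P * M := by
  refine le_trans ?_ (cnt_prod_le P (fun t x => Q (Fin.snoc t x)) M h2)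
  refine cnt_le_of_inj (fun t => (Fin.init t, t (Fin.last r))) ?_ ?_
  · intro t ht
    refine ⟨h1 t ht, ?_⟩
    simpa using ht
  · intro t t' _ _ h
    rw [Prod.mk.injEq] at h
    rw [← Fin.snoc_init_self t, ← Fin.snoc_init_self t', h.1, h.2]

/-- Number of solutions of independent affine equations. -/
lemma cnt_affine {W : Type*} [Fintype W] {r : ℕ} (z : Fin r → W → ZMod 2)
    (hz : LinearIndependent (ZMod 2) z) (h : Fin r → ZMod 2) :
    cnt (fun x : W → ZMod 2 => ∀ j, z j ⬝ᵥ x = h j) ≤ 2 ^ (Fintype.card W - r) := by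
  classical
  by_cases hex : ∃ x0 : W → ZMod 2, ∀ j, z j ⬝ᵥ x0 = h j
  · obtain ⟨x0, hx0⟩ := hex
    rw [← card_orth z hz]
    refine cnt_le_of_inj (fun x => x - x0) ?_ ?_
    · intro x hx j
      rw [dotProduct_sub, hx, hx0, sub_self]
    · intro x y _ _ hxy
      simpa using hxy
  · have : cnt (fun x : W → ZMod 2 => ∀ j, z j ⬝ᵥ x = h j) = 0 := by
      rw [← cnt_false (α := W → ZMod 2)]
      refine cnt_congr fun x => ⟨fun hx => hex ⟨x, hx⟩, fun hx => hx.elim⟩
    rw [this]
    exact Nat.zero_le _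

section krylov

variable {W : Type*} [Fintype W]

/-- The Krylov sequence. -/
def kr {K : Type*} [CommRing K] (A : Matrix W W K) (z : W → K) (i : ℕ) : W → K :=
  (fun v => A *ᵥ v)^[i] z

variable {K : Type*} [CommRing K] (A : Matrix W W K)

@[simp] lemma kr_zero (z : W → K) : kr A z 0 = z := rfl

lemma kr_succ (z : W → K) (i : ℕ) : kr A z (i + 1) = A *ᵥ kr A z i := by
  rw [kr, Function.iterate_succ_apply']; rfl

lemma kr_succ' (z : W → K) (i : ℕ) : kr A z (i + 1) = kr A (A *ᵥ z) i := by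
  rw [kr, Function.iterate_succ_apply]; rfl

lemma kr_add (z z' : W → K) (i : ℕ) : kr A (z + z') i = kr A z i + kr A z' i := by
  induction i with
  | zero => rfl
  | succ i ih => rw [kr_succ, kr_succ, kr_succ, ih, Matrix.mulVec_add]

lemma kr_sub (z z' : W → K) (i : ℕ) : kr A (z - z') i = kr A z i - kr A z' i := by
  induction i with
  | zero => rfl
  | succ i ih => rw [kr_succ, kr_succ, kr_succ, ih, Matrix.mulVec_sub]

lemma kr_smul (c : K) (z : W → K) (i : ℕ) : kr A (c • z) i = c • kr A z i := by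
  induction i with
  | zero => rfl
  | succ i ih => rw [kr_succ, kr_succ, ih, Matrix.mulVec_smul]

lemma kr_zero_vec (i : ℕ) : kr A (0 : W → K) i = 0 := by
  induction i with
  | zero => rfl
  | succ i ih => rw [kr_succ, ih, Matrix.mulVec_zero]

lemma kr_sum {ι : Type*} (s : Finset ι) (f : ι → W → K) (i : ℕ) :
    kr A (∑ k ∈ s, f k) i = ∑ k ∈ s, kr A (f k) i := by
  classical
  induction s using Finset.induction_on with
  | empty => simp [kr_zero_vec]
  | insert a s ha ih => rw [Finset.sum_insert ha, Finset.sum_insert ha, kr_add, ih]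

lemma kr_kr (z : W → K) (i j : ℕ) : kr A (kr A z i) j = kr A z (i + j) := by
  induction j with
  | zero => rfl
  | succ j ih => rw [kr_succ, ih, ← add_assoc, kr_succ]

lemma dot_mulVec_symm (hA : Aᵀ = A) (u v : W → K) : (A *ᵥ u) ⬝ᵥ v = u ⬝ᵥ (A *ᵥ v) := by
  rw [Matrix.dotProduct_mulVec, ← Matrix.mulVec_transpose, hA]

lemma dot_kr (hA : Aᵀ = A) (u v : W → K) (i j : ℕ) :
    kr A u i ⬝ᵥ kr A v j = u ⬝ᵥ kr A v (i + j) := by
  induction i generalizing j with
  | zero => simp
  | succ i ih =>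
    rw [kr_succ, dot_mulVec_symm A hA, ← kr_succ, ih]
    congr 2; omega

end krylov

section chain

variable {W : Type*} [Fintype W] (A : Matrix W W (ZMod 2)) (z : W → ZMod 2)

/-- The Krylov space has dimension `r`. -/
def ChainLen (r : ℕ) : Prop :=
  LinearIndependent (ZMod 2) (fun i : Fin r => kr A z i) ∧
    kr A z r ∈ Submodule.span (ZMod 2) (Set.range fun i : Fin r => kr A z i)

variable {A z}

lemma indep_of_notMem {k : ℕ}
    (h : ∀ j < k, kr A z j ∉ Submodule.span (ZMod 2) (Set.range fun i : Fin j => kr A z i)) :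
    LinearIndependent (ZMod 2) (fun i : Fin k => kr A z i) := by
  induction k with
  | zero => exact linearIndependent_empty_type
  | succ k ih =>
    rw [linearIndependent_finSucc']
    have e1 : (Fin.init fun i : Fin (k + 1) => kr A z i) = fun i : Fin k => kr A z i := by
      ext i w; simp [Fin.init]
    rw [e1]
    refine ⟨ih fun j hj => h j (by omega), ?_⟩
    simpa using h k (Nat.lt_succ_self k)

lemma chainLen_of_mem {r : ℕ}
    (h : kr A z r ∈ Submodule.span (ZMod 2) (Set.range fun i : Fin r => kr A z i)) :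
    ∃ j ≤ r, ChainLen A z j := by
  classical
  have hex : ∃ j, kr A z j ∈ Submodule.span (ZMod 2) (Set.range fun i : Fin j => kr A z i) := ⟨r, h⟩
  refine ⟨Nat.find hex, Nat.find_min' hex h, ?_, Nat.find_spec hex⟩
  exact indep_of_notMem fun j hj => Nat.find_min hex hj

lemma exists_chainLen : ∃ r ≤ Fintype.card W, ChainLen A z r := by
  by_cases hex : ∃ j ≤ Fintype.card W,
      kr A z j ∈ Submodule.span (ZMod 2) (Set.range fun i : Fin j => kr A z i)
  · obtain ⟨j, hj, hm⟩ := hex
    obtain ⟨r, hr, hc⟩ := chainLen_of_mem hm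
    exact ⟨r, hr.trans hj, hc⟩
  · push Not at hex
    have := indep_of_notMem (A := A) (z := z) (k := Fintype.card W + 1)
      (fun j hj => hex j (by omega))
    have h2 := this.fintype_card_le_finrank
    rw [Fintype.card_fin, Module.finrank_fintype_fun_eq_card] at h2
    omega

lemma ChainLen.mulVec_mem {r : ℕ} (h : ChainLen A z r) {v : W → ZMod 2}
    (hv : v ∈ Submodule.span (ZMod 2) (Set.range fun i : Fin r => kr A z i)) :
    A *ᵥ v ∈ Submodule.span (ZMod 2) (Set.range fun i : Fin r => kr A z i) := by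
  induction hv using Submodule.span_induction with
  | mem x hx =>
    obtain ⟨i, rfl⟩ := hx
    simp only [← kr_succ]
    by_cases hi : (i : ℕ) + 1 < r
    · exact Submodule.subset_span ⟨⟨i + 1, hi⟩, rfl⟩
    · have : (i : ℕ) + 1 = r := by omega
      rw [this]; exact h.2
  | zero => rw [Matrix.mulVec_zero]; exact Submodule.zero_mem _
  | add x y _ _ hx hy => rw [Matrix.mulVec_add]; exact Submodule.add_mem _ hx hy
  | smul a x _ hx => rw [Matrix.mulVec_smul]; exact Submodule.smul_mem _ _ hx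

lemma ChainLen.kr_mem {r : ℕ} (h : ChainLen A z r) (k : ℕ) :
    kr A z k ∈ Submodule.span (ZMod 2) (Set.range fun i : Fin r => kr A z i) := by
  induction k with
  | zero =>
    rcases Nat.eq_zero_or_pos r with hr | hr
    · subst hr; exact h.2
    · exact Submodule.subset_span ⟨⟨0, hr⟩, rfl⟩
  | succ k ih => rw [kr_succ]; exact h.mulVec_mem ih

lemma ChainLen.pos {r : ℕ} (h : ChainLen A z r) (hz : z ≠ 0) : 0 < r := by
  rcases Nat.eq_zero_or_pos r with hr | hr
  · subst hr
    exfalso
    have := h.2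
    simp only [Set.range_eq_empty, Submodule.span_empty, Submodule.mem_bot, kr_zero] at this
    exact hz this
  · exact hr

/-- The images of the vectors of a chain. -/
def nextT {r : ℕ} (t : Fin r → W → ZMod 2) (c : Fin r → ZMod 2) : Fin r → W → ZMod 2 :=
  fun i => if h : (i : ℕ) + 1 < r then t ⟨i + 1, h⟩ else ∑ k, c k • t k

lemma ChainLen.exists_next {r : ℕ} (h : ChainLen A z r) :
    ∃ c, ∀ i : Fin r, A *ᵥ kr A z i = nextT (fun i : Fin r => kr A z i) c i := by
  have h2 := h.2
  rw [Submodule.mem_span_range_iff_exists_fun] at h2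
  obtain ⟨c, hc⟩ := h2
  refine ⟨c, fun i => ?_⟩
  rw [← kr_succ, nextT]
  by_cases hi : (i : ℕ) + 1 < r
  · rw [dif_pos hi]
  · rw [dif_neg hi, hc]
    congr 1; omega

end chain

section counting

variable {W : Type*} [Fintype W]

/-- Counting graphs through the initial segment of a Krylov sequence. -/
theorem cnt_chain_le (z : W → ZMod 2) (r : ℕ) (P : SimpleGraph W → Prop)
    (S : (Fin r → W → ZMod 2) → Prop) (B : ℕ)
    (hP : ∀ G, P G → ChainLen (adjM (ZMod 2) G) z r ∧ S (fun i => kr (adjM (ZMod 2) G) z i))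
    (hB : ∀ t c, LinearIndependent (ZMod 2) t → S t →
      cnt (fun G => P G ∧ (fun i : Fin r => kr (adjM (ZMod 2) G) z i) = t ∧
        ∀ i, adjM (ZMod 2) G *ᵥ t i = nextT t c i) ≤ B) :
    cnt P ≤ cnt (fun t => LinearIndependent (ZMod 2) t ∧ S t) * 2 ^ r * B := by
  classical
  have h1 := cnt_fiber_le P (fun G (y : (Fin r → W → ZMod 2) × (Fin r → ZMod 2)) =>
      (fun i : Fin r => kr (adjM (ZMod 2) G) z i) = y.1 ∧
        ∀ i, adjM (ZMod 2) G *ᵥ y.1 i = nextT y.1 y.2 i)
    (fun y => (LinearIndependent (ZMod 2) y.1 ∧ S y.1) ∧ True) B ?_ ?_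
  · refine h1.trans (Nat.mul_le_mul_right _ ?_)
    refine cnt_prod_le (fun t => LinearIndependent (ZMod 2) t ∧ S t)
      (fun (_ : Fin r → W → ZMod 2) (_ : Fin r → ZMod 2) => True) (2 ^ r) fun t _ => ?_
    rw [cnt_true, Nat.card_eq_fintype_card]
    simp
  · intro G hG
    obtain ⟨h2, h3⟩ := hP G hG
    obtain ⟨c, hc⟩ := h2.exists_next
    exact ⟨(fun i => kr (adjM (ZMod 2) G) z i, c), ⟨⟨h2.1, h3⟩, trivial⟩, rfl, hc⟩
  · rintro ⟨t, c⟩ ⟨⟨h2, h3⟩, _⟩
    exact hB t c h2 h3

/-- Isotropic tuples which start with a given vector. -/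
def IsoZ (z : W → ZMod 2) (r : ℕ) (t : Fin r → W → ZMod 2) : Prop :=
  IsoTuple t ∧ ∀ i : Fin r, (i : ℕ) = 0 → t i = z

lemma IsoTuple.init {r : ℕ} {t : Fin (r + 1) → W → ZMod 2} (h : IsoTuple t) :
    IsoTuple (Fin.init t) :=
  ⟨h.1.comp _ (Fin.castSucc_injective r), fun _ _ => h.2 _ _⟩

lemma IsoZ.init {z : W → ZMod 2} {r : ℕ} {t : Fin (r + 1) → W → ZMod 2} (h : IsoZ z (r + 1) t) :
    IsoZ z r (Fin.init t) :=
  ⟨h.1.init, fun i hi => h.2 i.castSucc (by simpa using hi)⟩

lemma IsoTuple.snoc_orth {r : ℕ} {t : Fin r → W → ZMod 2} {x : W → ZMod 2}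
    (h : IsoTuple (Fin.snoc t x : Fin (r + 1) → W → ZMod 2)) : (∀ j, t j ⬝ᵥ x = 0) ∧ 1 ⬝ᵥ x = 0 := by
  constructor
  · intro j
    have := h.2 j.castSucc (Fin.last r)
    simpa using this
  · have := h.2 (Fin.last r) (Fin.last r)
    rw [dot_self_two] at this
    simpa using this

lemma span_init_le {r : ℕ} (t : Fin (r + 1) → W → ZMod 2) :
    Submodule.span (ZMod 2) (Set.range (Fin.init t)) ≤ Submodule.span (ZMod 2) (Set.range t) := by
  refine Submodule.span_mono ?_
  rintro _ ⟨i, rfl⟩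
  exact ⟨i.castSucc, rfl⟩

lemma choose_two_sub (m r : ℕ) (h : r + 1 ≤ m) :
    (m - r).choose 2 = (m - (r + 1)) + (m - (r + 1)).choose 2 := by
  obtain ⟨k, hk⟩ : ∃ k, m - r = k + 1 := ⟨m - r - 1, by omega⟩
  have hk' : m - (r + 1) = k := by omega
  rw [hk, hk', Nat.choose_succ_succ' k 1]; simp

/-- Extension without the all ones vector in the span. -/
lemma cntA_succ (z : W → ZMod 2) (r : ℕ) :
    cnt (fun t => IsoZ z (r + 1) t ∧ (1 : W → ZMod 2) ∉ Submodule.span (ZMod 2) (Set.range t)) ≤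
      cnt (fun t => IsoZ z r t ∧ (1 : W → ZMod 2) ∉ Submodule.span (ZMod 2) (Set.range t)) *
        2 ^ (Fintype.card W - (r + 1)) := by
  refine cnt_snoc_le _ _ _ ?_ ?_
  · rintro t ⟨h1, h2⟩
    exact ⟨h1.init, fun h => h2 (span_init_le t h)⟩
  · rintro t ⟨h1, h2⟩
    have hi : LinearIndependent (ZMod 2) (Fin.cons 1 t : Fin (r + 1) → W → ZMod 2) := by
      rw [linearIndependent_finCons]; exact ⟨h1.1.1, h2⟩
    rw [← card_orth _ hi]
    refine cnt_mono ?_
    rintro x ⟨hx, _⟩ j
    obtain ⟨h3, h4⟩ := hx.1.snoc_orth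
    refine Fin.cases ?_ (fun j => ?_) j
    · simpa using h4
    · simpa using h3 j

/-- Extension with orthogonality only. -/
lemma cntO_succ (z : W → ZMod 2) (r : ℕ) (P : (Fin r → W → ZMod 2) → Prop) :
    cnt (fun t : Fin (r + 1) → W → ZMod 2 => IsoZ z (r + 1) t ∧ P (Fin.init t)) ≤
      cnt (fun t => IsoZ z r t ∧ P t) * 2 ^ (Fintype.card W - r) := by
  refine cnt_snoc_le _ _ _ ?_ ?_
  · rintro t ⟨h1, h2⟩
    exact ⟨h1.init, h2⟩
  · rintro t ⟨h1, h2⟩
    rw [← card_orth _ h1.1.1]
    refine cnt_mono ?_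
    rintro x ⟨hx, _⟩ j
    exact hx.1.snoc_orth.1 j

lemma cntB_succ (z : W → ZMod 2) (r : ℕ) :
    cnt (fun t => IsoZ z (r + 1) t ∧ (1 : W → ZMod 2) ∈ Submodule.span (ZMod 2) (Set.range t)) ≤
      cnt (fun t => IsoZ z r t ∧ (1 : W → ZMod 2) ∉ Submodule.span (ZMod 2) (Set.range t)) * 2 ^ r +
      cnt (fun t => IsoZ z r t ∧ (1 : W → ZMod 2) ∈ Submodule.span (ZMod 2) (Set.range t)) *
        2 ^ (Fintype.card W - r) := by
  classical
  have h0 : cnt (fun t => IsoZ z (r + 1) t ∧ (1 : W → ZMod 2) ∈ Submodule.span (ZMod 2) (Set.range t)) ≤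
      cnt (fun t : Fin (r + 1) → W → ZMod 2 => ∃ b ∈ ({true, false} : Finset Bool),
        if b = true then IsoZ z (r + 1) t ∧ (1 : W → ZMod 2) ∈ Submodule.span (ZMod 2) (Set.range t) ∧
          (1 : W → ZMod 2) ∉ Submodule.span (ZMod 2) (Set.range (Fin.init t))
        else IsoZ z (r + 1) t ∧
          (1 : W → ZMod 2) ∈ Submodule.span (ZMod 2) (Set.range (Fin.init t))) := by
    refine cnt_mono ?_
    rintro t ⟨h1, h2⟩
    by_cases h : (1 : W → ZMod 2) ∈ Submodule.span (ZMod 2) (Set.range (Fin.init t))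
    · exact ⟨false, by simp, by simpa using ⟨h1, h⟩⟩
    · exact ⟨true, by simp, by simpa using ⟨h1, h2, h⟩⟩
  refine h0.trans ((cnt_exists_le _ _).trans ?_)
  rw [Finset.sum_pair (by simp)]
  simp only [if_true, Bool.false_eq_true, if_false]
  refine Nat.add_le_add ?_ ?_
  · refine cnt_snoc_le _ _ _ ?_ ?_
    · rintro t ⟨h1, h2, h3⟩
      exact ⟨h1.init, h3⟩
    · rintro t ⟨h1, h2⟩
      have : cnt (fun x : W → ZMod 2 => IsoZ z (r + 1) (Fin.snoc t x : Fin (r + 1) → W → ZMod 2) ∧
          (1 : W → ZMod 2) ∈ Submodule.span (ZMod 2)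
            (Set.range (Fin.snoc t x : Fin (r + 1) → W → ZMod 2)) ∧
          (1 : W → ZMod 2) ∉ Submodule.span (ZMod 2)
            (Set.range (Fin.init (Fin.snoc t x : Fin (r + 1) → W → ZMod 2)))) ≤
          cnt (fun _ : Fin r → ZMod 2 => True) * 1 := by
        refine cnt_fiber_le _ (fun x (c : Fin r → ZMod 2) => x = 1 + ∑ i, c i • t i) _ 1 ?_ ?_
        · rintro x ⟨_, h3, _⟩
          rw [Submodule.mem_span_range_iff_exists_fun] at h3
          obtain ⟨c, hc⟩ := h3
          rw [Fin.sum_univ_castSucc] at hc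
          simp only [Fin.snoc_castSucc, Fin.snoc_last] at hc
          refine ⟨fun i => c i.castSucc, trivial, ?_⟩
          have hc1 : c (Fin.last r) = 1 := by
            by_contra hne
            have h4 : c (Fin.last r) = 0 := by
              revert hne; generalize c (Fin.last r) = a; revert a; decide
            rw [h4, zero_smul, add_zero] at hc
            exact h2 (Submodule.mem_span_range_iff_exists_fun _ |>.2 ⟨_, hc⟩)
          rw [hc1, one_smul] at hc
          have h5 : ∀ a b : W → ZMod 2, a + b = 1 → b = 1 + a := by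
            intro a b hab
            rw [← hab, add_comm a b, add_assoc]
            have : a + a = 0 := by
              ext i; simp only [Pi.add_apply, Pi.zero_apply]; generalize a i = y; revert y; decide
            rw [this, add_zero]
          exact h5 _ _ hc
        · intro c _
          rw [cnt_eq]
          refine Finset.card_le_one.2 ?_
          intro a ha b hb
          simp only [Finset.mem_filter, Finset.mem_univ, true_and] at ha hb
          rw [ha.2, hb.2]
      refine this.trans ?_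
      rw [cnt_true, Nat.card_eq_fintype_card]
      simp
  · exact cntO_succ z r (fun t => (1 : W → ZMod 2) ∈ Submodule.span (ZMod 2) (Set.range t))

lemma cntZ_one (z : W → ZMod 2) (P : (Fin 1 → W → ZMod 2) → Prop) :
    cnt (fun t => IsoZ z 1 t ∧ P t) ≤ 1 := by
  classical
  rw [cnt_eq]
  refine Finset.card_le_one.2 ?_
  intro a ha b hb
  simp only [Finset.mem_filter, Finset.mem_univ, true_and] at ha hb
  ext1 i
  rw [ha.1.2 i (by omega), hb.1.2 i (by omega)]

lemma cntA_le (z : W → ZMod 2) (r : ℕ) (hr : r + 1 ≤ Fintype.card W) :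
    cnt (fun t => IsoZ z (r + 1) t ∧ (1 : W → ZMod 2) ∉ Submodule.span (ZMod 2) (Set.range t)) *
      2 ^ (Fintype.card W - (r + 1)).choose 2 ≤ 2 ^ (Fintype.card W - 1).choose 2 := by
  induction r with
  | zero =>
    refine (Nat.mul_le_mul_right _ (cntZ_one z _)).trans ?_
    simp
  | succ r ih =>
    have h1 := cntA_succ z (r + 1)
    have h2 := choose_two_sub (Fintype.card W) (r + 1) (by omega)
    calc _ ≤ (cnt (fun t => IsoZ z (r + 1) t ∧
          (1 : W → ZMod 2) ∉ Submodule.span (ZMod 2) (Set.range t)) *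
        2 ^ (Fintype.card W - (r + 1 + 1))) * 2 ^ (Fintype.card W - (r + 1 + 1)).choose 2 :=
          Nat.mul_le_mul_right _ h1
      _ = cnt (fun t => IsoZ z (r + 1) t ∧
          (1 : W → ZMod 2) ∉ Submodule.span (ZMod 2) (Set.range t)) *
        2 ^ (Fintype.card W - (r + 1)).choose 2 := by rw [h2, pow_add]; ring
      _ ≤ _ := ih (by omega)

lemma cntB_le (z : W → ZMod 2) (hz : z ≠ 1) (r : ℕ) (hr : 2 * (r + 1) ≤ Fintype.card W) :
    cnt (fun t => IsoZ z (r + 1) t ∧ (1 : W → ZMod 2) ∈ Submodule.span (ZMod 2) (Set.range t)) *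
      2 ^ ((Fintype.card W - (r + 1)).choose 2 + (Fintype.card W - 2 * (r + 1))) ≤
      2 ^ (Fintype.card W - 1).choose 2 := by
  induction r with
  | zero =>
    have : cnt (fun t => IsoZ z (0 + 1) t ∧
        (1 : W → ZMod 2) ∈ Submodule.span (ZMod 2) (Set.range t)) = 0 := by
      refine cnt_eq_zero fun t => ?_
      rintro ⟨h1, h2⟩
      rw [Submodule.mem_span_range_iff_exists_fun] at h2
      obtain ⟨c, hc⟩ := h2
      have ht : t 0 = z := h1.2 0 rfl
      rw [Fin.sum_univ_one, ht] at hc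
      have hW : 0 < Fintype.card W := by omega
      obtain ⟨w⟩ := Fintype.card_pos_iff.1 hW
      have hc0 : c 0 = 1 := by
        by_contra hne
        have h4 : c 0 = 0 := by revert hne; generalize c 0 = a; revert a; decide
        rw [h4, zero_smul] at hc
        have := congrFun hc w
        simp at this
      rw [hc0, one_smul] at hc
      exact hz hc
    rw [this, zero_mul]; exact Nat.zero_le _
  | succ r ih =>
    have h1 := cntB_succ z (r + 1)
    have h2 := choose_two_sub (Fintype.card W) (r + 1) (by omega)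
    have hA := cntA_le z r (by omega)
    have hB := ih (by omega)
    set m := Fintype.card W with hm
    set a := cnt (fun t => IsoZ z (r + 1) t ∧
          (1 : W → ZMod 2) ∉ Submodule.span (ZMod 2) (Set.range t)) with ha
    set b := cnt (fun t => IsoZ z (r + 1) t ∧
          (1 : W → ZMod 2) ∈ Submodule.span (ZMod 2) (Set.range t)) with hb
    set e := (m - (r + 1 + 1)).choose 2 with he
    obtain ⟨k, hk⟩ : ∃ k, m = 2 * (r + 1 + 1) + k := ⟨m - 2 * (r + 1 + 1), by omega⟩
    have e1 : m - 2 * (r + 1 + 1) = k := by omega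
    have e2 : m - (r + 1) = r + 3 + k := by omega
    have e3 : m - (r + 1 + 1) = r + 2 + k := by omega
    have e4 : m - 2 * (r + 1) = k + 2 := by omega
    rw [h2, e3] at hA hB
    rw [e4] at hB
    rw [e2] at h1
    rw [e1]
    have h3 : 2 * (cnt (fun t => IsoZ z (r + 1 + 1) t ∧
        (1 : W → ZMod 2) ∈ Submodule.span (ZMod 2) (Set.range t)) * 2 ^ (e + k)) ≤
        2 * 2 ^ (m - 1).choose 2 := by
      calc _ ≤ 2 * ((a * 2 ^ (r + 1) + b * 2 ^ (r + 3 + k)) * 2 ^ (e + k)) := by gcongr
        _ = a * 2 ^ (r + 2 + k + e) + b * 2 ^ (r + 2 + k + e + (k + 2)) := by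
            simp only [pow_add]; ring
        _ ≤ 2 ^ (m - 1).choose 2 + 2 ^ (m - 1).choose 2 := Nat.add_le_add hA hB
        _ = _ := by ring
    omega

/-- The number of isotropic tuples starting with a given vector. -/
theorem cntIso_le (z : W → ZMod 2) (hz : z ≠ 1) (r : ℕ) (hr1 : 1 ≤ r)
    (hr : 2 * r ≤ Fintype.card W) :
    cnt (fun t => IsoZ z r t) * 2 ^ (Fintype.card W - r).choose 2 ≤
      2 * 2 ^ (Fintype.card W - 1).choose 2 := by
  classical
  obtain ⟨r, rfl⟩ : ∃ r', r = r' + 1 := ⟨r - 1, by omega⟩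
  have h0 : cnt (fun t => IsoZ z (r + 1) t) ≤
      cnt (fun t => IsoZ z (r + 1) t ∧ (1 : W → ZMod 2) ∉ Submodule.span (ZMod 2) (Set.range t)) +
      cnt (fun t => IsoZ z (r + 1) t ∧ (1 : W → ZMod 2) ∈ Submodule.span (ZMod 2) (Set.range t)) := by
    simp only [cnt_eq]
    rw [← Finset.card_union_of_disjoint]
    · refine Finset.card_le_card ?_
      intro t ht
      simp only [Finset.mem_union, Finset.mem_filter, Finset.mem_univ, true_and] at ht ⊢
      tauto
    · rw [Finset.disjoint_left]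
      intro t ht
      simp only [Finset.mem_filter, Finset.mem_univ, true_and] at ht ⊢
      tauto
  have hA := cntA_le z r (by omega)
  have hB := cntB_le z hz r hr
  rw [pow_add] at hB
  have h1 : 1 ≤ 2 ^ (Fintype.card W - 2 * (r + 1)) := Nat.one_le_two_pow
  calc _ ≤ (cnt (fun t => IsoZ z (r + 1) t ∧
        (1 : W → ZMod 2) ∉ Submodule.span (ZMod 2) (Set.range t)) +
      cnt (fun t => IsoZ z (r + 1) t ∧
        (1 : W → ZMod 2) ∈ Submodule.span (ZMod 2) (Set.range t))) *
        2 ^ (Fintype.card W - (r + 1)).choose 2 := Nat.mul_le_mul_right _ h0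
    _ = cnt (fun t => IsoZ z (r + 1) t ∧
        (1 : W → ZMod 2) ∉ Submodule.span (ZMod 2) (Set.range t)) *
          2 ^ (Fintype.card W - (r + 1)).choose 2 +
        cnt (fun t => IsoZ z (r + 1) t ∧
        (1 : W → ZMod 2) ∈ Submodule.span (ZMod 2) (Set.range t)) *
          (2 ^ (Fintype.card W - (r + 1)).choose 2 * 1) := by ring
    _ ≤ 2 ^ (Fintype.card W - 1).choose 2 + 2 ^ (Fintype.card W - 1).choose 2 := by
        refine Nat.add_le_add hA (le_trans ?_ hB)
        gcongr
    _ = _ := by ring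

/-- The number of isotropic tuples starting with a given vector; the simple bound. -/
theorem cntIso_le' (z : W → ZMod 2) (r : ℕ) (hr1 : 1 ≤ r) (hr : r ≤ Fintype.card W) :
    cnt (fun t => IsoZ z r t) * 2 ^ (Fintype.card W - r).choose 2 ≤
      2 ^ r * 2 ^ (Fintype.card W - 1).choose 2 := by
  obtain ⟨r, rfl⟩ : ∃ r', r = r' + 1 := ⟨r - 1, by omega⟩
  have key : ∀ r, r + 1 ≤ Fintype.card W → cnt (fun t => IsoZ z (r + 1) t ∧ True) *
      2 ^ (Fintype.card W - (r + 1)).choose 2 ≤ 2 ^ r * 2 ^ (Fintype.card W - 1).choose 2 := by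
    intro r
    induction r with
    | zero =>
      intro _
      refine (Nat.mul_le_mul_right _ (cntZ_one z _)).trans ?_
      simp
    | succ r ih =>
      intro hr
      have h1 := cntO_succ z (r + 1) (fun _ => True)
      have h2 := choose_two_sub (Fintype.card W) (r + 1) (by omega)
      have h3 : Fintype.card W - (r + 1) = (Fintype.card W - (r + 1 + 1)) + 1 := by omega
      calc _ ≤ (cnt (fun t => IsoZ z (r + 1) t ∧ True) *
          2 ^ (Fintype.card W - (r + 1))) * 2 ^ (Fintype.card W - (r + 1 + 1)).choose 2 :=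
            Nat.mul_le_mul_right _ h1
        _ = 2 * (cnt (fun t => IsoZ z (r + 1) t ∧ True) *
          2 ^ (Fintype.card W - (r + 1)).choose 2) := by
            rw [h2, pow_add]
            conv_lhs => rw [h3]
            rw [pow_succ]; ring
        _ ≤ 2 * (2 ^ r * 2 ^ (Fintype.card W - 1).choose 2) :=
            Nat.mul_le_mul_left _ (ih (by omega))
        _ = _ := by rw [pow_succ]; ring
  have h5 : cnt (fun t => IsoZ z (r + 1) t) = cnt (fun t => IsoZ z (r + 1) t ∧ True) :=
    cnt_congr fun t => by simp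
  rw [h5]
  refine (key r hr).trans ?_
  gcongr
  · norm_num
  · omega

end counting

end Pool.Agent.Helper185_DS
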