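import Mathlib
import Pool.Agent.Helper185_DS.Kry

/-!
# The number of vectors with a small Krylov space
-/

set_option autoImplicit false
set_option linter.unusedSectionVars false
set_option linter.unusedSimpArgs false

namespace Pool.Agent.Helper185_DS

open Matrix Finset

variable {W : Type*} [Fintype W]

/-- The form of an alternating matrix vanishes on the diagonal. -/
lemma alt_dot {A : Matrix W W (ZMod 2)} (hA : ∀ a b, A a b = A b a) (hd : ∀ a, A a a = 0)
    (v : W → ZMod 2) : v ⬝ᵥ (A *ᵥ v) = 0 := by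
  classical
  simp only [dotProduct, Matrix.mulVec, Finset.mul_sum]
  rw [← Finset.sum_product']
  refine Finset.sum_involution (fun p _ => (p.2, p.1)) ?_ ?_ ?_ ?_
  · rintro ⟨a, b⟩ _
    simp only
    rw [hA b a]
    have : ∀ x y z : ZMod 2, x * (y * z) + z * (y * x) = 0 := by decide
    exact this _ _ _
  · rintro ⟨a, b⟩ _ h1 h2
    simp only [Prod.mk.injEq] at h2
    apply h1
    simp only
    rw [h2.1, hd]; ring
  · intro _ _; exact Finset.mem_univ _
  · intro _ _; rfl

/-- Markov's inequality. -/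
lemma cnt_markov {α : Type*} [Fintype α] (f : α → ℕ) (M : ℕ) :
    cnt (fun x => M ≤ f x) * M ≤ ∑ x, f x := by
  classical
  rw [cnt_eq, ← smul_eq_mul, ← Finset.sum_const]
  refine (Finset.sum_le_sum (g := f) fun x hx => ?_).trans
    (Finset.sum_le_sum_of_subset (Finset.filter_subset _ _))
  simpa using hx

/-- Initial segments of Krylov sequences of graphs. -/
def KTup (z : W → ZMod 2) (r : ℕ) (t : Fin r → W → ZMod 2) : Prop :=
  LinearIndependent (ZMod 2) t ∧ (∀ i : Fin r, (i : ℕ) = 0 → t i = z) ∧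
    ∃ G : SimpleGraph W, ∀ (i : Fin r) (h : (i : ℕ) + 1 < r), adjM (ZMod 2) G *ᵥ t i = t ⟨i + 1, h⟩

lemma cntK_succ (z : W → ZMod 2) (r : ℕ) (hr : 1 ≤ r) :
    cnt (KTup z (r + 1)) ≤ cnt (KTup z r) * 2 ^ (Fintype.card W - r) := by
  classical
  refine cnt_snoc_le _ _ _ ?_ ?_
  · rintro t ⟨h1, h2, G, h3⟩
    refine ⟨h1.comp _ (Fin.castSucc_injective r), fun i hi => h2 i.castSucc (by simpa using hi), G, ?_⟩
    intro i hi
    exact h3 i.castSucc (by simp only [Fin.val_castSucc]; omega)
  · rintro t ⟨h1, _, _⟩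
    refine le_trans (cnt_mono ?_) (cnt_affine t h1 (fun l => if h : (l : ℕ) + 1 < r then
      t ⟨l + 1, h⟩ ⬝ᵥ t ⟨r - 1, by omega⟩ else 0))
    rintro x ⟨_, _, G, h3⟩ l
    have hx : adjM (ZMod 2) G *ᵥ t ⟨r - 1, by omega⟩ = x := by
      have := h3 (⟨r - 1, by omega⟩ : Fin r).castSucc (by simp only [Fin.val_castSucc]; omega)
      rw [Fin.snoc_castSucc] at this
      rw [this]
      have e : (⟨((⟨r - 1, by omega⟩ : Fin r).castSucc : ℕ) + 1, by
        simp only [Fin.val_castSucc]; omega⟩ : Fin (r + 1)) = Fin.last r := by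
        ext; simp only [Fin.val_castSucc, Fin.val_last]; omega
      rw [e, Fin.snoc_last]
    rw [← hx, ← dot_mulVec_symm _ (adjM_transpose G)]
    by_cases h : (l : ℕ) + 1 < r
    · rw [dif_pos h]
      have := h3 l.castSucc (by simp only [Fin.val_castSucc]; omega)
      rw [Fin.snoc_castSucc] at this
      rw [this]
      congr 1
      have e : (⟨(l.castSucc : ℕ) + 1, by
        simp only [Fin.val_castSucc]; omega⟩ : Fin (r + 1)) = (⟨l + 1, h⟩ : Fin r).castSucc := by
        ext; simp
      rw [e, Fin.snoc_castSucc]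
    · rw [dif_neg h]
      have e : (⟨r - 1, by omega⟩ : Fin r) = l := by ext; simp only; omega
      rw [e, dotProduct_comm]
      exact alt_dot (adjM_symm G) (adjM_diag G) _

lemma cntK_le (z : W → ZMod 2) (r : ℕ) (hr1 : 1 ≤ r) (hr : r ≤ Fintype.card W) :
    cnt (KTup z r) * 2 ^ ((Fintype.card W - r).choose 2 + (Fintype.card W - r)) ≤
      2 ^ (Fintype.card W).choose 2 := by
  classical
  induction r with
  | zero => omega
  | succ r ih =>
    rcases Nat.eq_zero_or_pos r with hr0 | hr0
    · subst hr0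
      have h1 : cnt (KTup z (0 + 1)) ≤ 1 := by
        rw [cnt_eq]
        refine Finset.card_le_one.2 ?_
        intro a ha b hb
        simp only [Finset.mem_filter, Finset.mem_univ, true_and] at ha hb
        ext1 i
        rw [ha.2.1 i (by omega), hb.2.1 i (by omega)]
      have h2 := choose_two_sub (Fintype.card W) 0 (by omega)
      rw [Nat.sub_zero] at h2
      rw [h2]
      calc _ ≤ 1 * 2 ^ ((Fintype.card W - (0 + 1)).choose 2 + (Fintype.card W - (0 + 1))) :=
            Nat.mul_le_mul_right _ h1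
        _ = _ := by rw [one_mul, add_comm]
    · have h1 := cntK_succ z r hr0
      have h2 := choose_two_sub (Fintype.card W) r (by omega)
      calc _ ≤ (cnt (KTup z r) * 2 ^ (Fintype.card W - r)) *
            2 ^ ((Fintype.card W - (r + 1)).choose 2 + (Fintype.card W - (r + 1))) :=
            Nat.mul_le_mul_right _ h1
        _ = cnt (KTup z r) * 2 ^ ((Fintype.card W - r).choose 2 + (Fintype.card W - r)) := by
            rw [h2]; simp only [pow_add]; ring
        _ ≤ _ := ih hr0 (by omega)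

/-- Few graphs have a given vector with a small Krylov space. -/
theorem cnt_chainLen (z : W → ZMod 2) (r : ℕ) (hr1 : 1 ≤ r) (hr : r ≤ Fintype.card W) :
    cnt (fun G : SimpleGraph W => ChainLen (adjM (ZMod 2) G) z r) * 2 ^ (Fintype.card W - r) ≤
      2 ^ r * 2 ^ (Fintype.card W).choose 2 := by
  have h1 := cnt_chain_le z r (fun G : SimpleGraph W => ChainLen (adjM (ZMod 2) G) z r) (KTup z r)
    (2 ^ (Fintype.card W - r).choose 2) ?_ ?_
  · have h2 : cnt (fun t => LinearIndependent (ZMod 2) t ∧ KTup z r t) ≤ cnt (KTup z r) :=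
      cnt_mono fun t h => h.2
    calc _ ≤ (cnt (KTup z r) * 2 ^ r * 2 ^ (Fintype.card W - r).choose 2) *
          2 ^ (Fintype.card W - r) := by
          refine Nat.mul_le_mul_right _ (h1.trans ?_)
          gcongr
      _ = 2 ^ r * (cnt (KTup z r) *
          2 ^ ((Fintype.card W - r).choose 2 + (Fintype.card W - r))) := by
          rw [pow_add]; ring
      _ ≤ _ := Nat.mul_le_mul_left _ (cntK_le z r hr1 hr)
  · intro G hG
    refine ⟨hG, hG.1, ?_, G, ?_⟩
    · intro i hi
      simp only [hi, kr_zero]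
    · intro i hi
      simp only [← kr_succ]
  · intro t c ht _
    refine le_trans (cnt_mono ?_) (card_prescribed t ht (nextT t c))
    rintro G ⟨_, _, h⟩
    exact h

/-- Vectors with a small Krylov space. -/
def Small (G : SimpleGraph W) (a : ℕ) (z : W → ZMod 2) : Prop :=
  ∃ j ≤ a, ChainLen (adjM (ZMod 2) G) z j

/-- **Most graphs have few vectors with a small Krylov space.** -/
theorem cnt_small (a : ℕ) (ha : a ≤ Fintype.card W) :
    cnt (fun G : SimpleGraph W => 2 ^ (3 * a) ≤ cnt (Small G a)) * 2 ^ (3 * a) ≤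
      2 ^ (2 * a + 1) * 2 ^ (Fintype.card W).choose 2 := by
  classical
  refine (cnt_markov _ _).trans ?_
  rw [← cnt_prod (fun (G : SimpleGraph W) z => Small G a z),
    cnt_prod_swap (fun (G : SimpleGraph W) z => Small G a z)]
  set m := Fintype.card W with hm
  have hcard : Nat.card (SimpleGraph W) = 2 ^ m.choose 2 := by
    rw [natCard_graph, Nat.card_eq_fintype_card]
  -- nonzero vectors
  have h1 : ∀ z : W → ZMod 2, z ≠ 0 → cnt (fun G : SimpleGraph W => Small G a z) * 2 ^ m ≤
      (∑ j ∈ Finset.range a, 2 ^ (2 * (j + 1))) * 2 ^ m.choose 2 := by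
    intro z hz
    have h2 : cnt (fun G : SimpleGraph W => Small G a z) ≤
        ∑ j ∈ Finset.range a, cnt (fun G : SimpleGraph W => ChainLen (adjM (ZMod 2) G) z (j + 1)) := by
      refine le_trans (cnt_mono ?_) (cnt_exists_le _ _)
      rintro G ⟨j, hj, hG⟩
      have := hG.pos hz
      exact ⟨j - 1, Finset.mem_range.2 (by omega), by rwa [show j - 1 + 1 = j by omega]⟩
    refine (Nat.mul_le_mul_right _ h2).trans ?_
    rw [Finset.sum_mul, Finset.sum_mul]
    refine Finset.sum_le_sum fun j hj => ?_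
    rw [Finset.mem_range] at hj
    have h3 := cnt_chainLen z (j + 1) (by omega) (by omega)
    have h4 : m = (m - (j + 1)) + (j + 1) := by omega
    calc _ = (cnt (fun G : SimpleGraph W => ChainLen (adjM (ZMod 2) G) z (j + 1)) *
          2 ^ (m - (j + 1))) * 2 ^ (j + 1) := by
          conv_lhs => rw [h4, pow_add]
          rw [mul_assoc]
      _ ≤ (2 ^ (j + 1) * 2 ^ m.choose 2) * 2 ^ (j + 1) := Nat.mul_le_mul_right _ h3
      _ = _ := by rw [two_mul, pow_add]; ring
  have hgeo : ∀ a : ℕ, 1 + ∑ j ∈ Finset.range a, 2 ^ (2 * (j + 1)) ≤ 2 ^ (2 * a + 1) := by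
    intro a
    induction a with
    | zero => simp
    | succ a ih =>
      rw [Finset.sum_range_succ, ← add_assoc]
      calc _ ≤ 2 ^ (2 * a + 1) + 2 ^ (2 * (a + 1)) := Nat.add_le_add_right ih _
        _ ≤ _ := by
          rw [show 2 * (a + 1) + 1 = 2 * a + 3 by ring, show 2 * (a + 1) = 2 * a + 2 by ring]
          simp only [pow_add]
          omega
  have h5 : (∑ z : W → ZMod 2, cnt (fun G : SimpleGraph W => Small G a z)) * 2 ^ m ≤
      (1 + ∑ j ∈ Finset.range a, 2 ^ (2 * (j + 1))) * 2 ^ m.choose 2 * 2 ^ m := by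
    rw [← Finset.add_sum_erase _ _ (Finset.mem_univ (0 : W → ZMod 2)), add_mul, Finset.sum_mul]
    have h6 : cnt (fun G : SimpleGraph W => Small G a 0) ≤ 2 ^ m.choose 2 := by
      rw [← hcard]; exact cnt_le_card _
    have h7 : ∑ z ∈ univ.erase (0 : W → ZMod 2), cnt (fun G : SimpleGraph W => Small G a z) * 2 ^ m ≤
        2 ^ m * ((∑ j ∈ Finset.range a, 2 ^ (2 * (j + 1))) * 2 ^ m.choose 2) := by
      calc _ ≤ ∑ _z ∈ univ.erase (0 : W → ZMod 2),
            (∑ j ∈ Finset.range a, 2 ^ (2 * (j + 1))) * 2 ^ m.choose 2 :=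
            Finset.sum_le_sum fun z hz => h1 z (Finset.ne_of_mem_erase hz)
        _ ≤ _ := by
            rw [Finset.sum_const, smul_eq_mul]
            refine Nat.mul_le_mul_right _ ((Finset.card_erase_le).trans ?_)
            rw [Finset.card_univ, Fintype.card_fun, ZMod.card]
    calc _ ≤ 2 ^ m.choose 2 * 2 ^ m +
          2 ^ m * ((∑ j ∈ Finset.range a, 2 ^ (2 * (j + 1))) * 2 ^ m.choose 2) :=
          Nat.add_le_add (Nat.mul_le_mul_right _ h6) h7
      _ = _ := by ring
  have h8 := Nat.le_of_mul_le_mul_right h5 (by positivity)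
  exact h8.trans (Nat.mul_le_mul_right _ (hgeo a))

end Pool.Agent.Helper185_DS
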