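import Mathlib

/-!
# Chains of a singular bordered pencil

Let `A` be a symmetric matrix and `M` a matrix over a field.  If `(X - A) z = M c` and `Mᵀ z = 0` has a
nonzero polynomial solution, then a solution of least degree has linearly independent coefficients, and
these are pairwise orthogonal.
-/

set_option autoImplicit false

namespace Pool.Agent.Helper185_DS

open Matrix Polynomial

variable {W I F : Type*} [Fintype W] [Fintype I] [DecidableEq W] [DecidableEq I] [Field F]

/-- A polynomial solution, in coefficients. The sequence `Z` is shifted: `Z (j+1)` is the `j`-th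
coefficient. -/
structure IsSol (A : Matrix W W F) (M : Matrix W I F) (e : ℕ) (Z : ℕ → W → F) (g : ℕ → I → F) :
    Prop where
  z0 : Z 0 = 0
  zt : ∀ j, e < j → Z j = 0
  gt : ∀ j, e < j → g j = 0
  rel : ∀ j, Z j = A *ᵥ Z (j + 1) + M *ᵥ g j
  orth : ∀ j, Mᵀ *ᵥ Z j = 0
  ne : ∃ j, g j ≠ 0

omit [DecidableEq W] [DecidableEq I] in
lemma IsSol.dot {A : Matrix W W F} {M : Matrix W I F} {e : ℕ} {Z : ℕ → W → F} {g : ℕ → I → F}
    (h : IsSol A M e Z g) (hA : Aᵀ = A) : ∀ i j, Z i ⬝ᵥ Z j = 0 := by
  have h1 : ∀ (c : I → F) (j : ℕ), (M *ᵥ c) ⬝ᵥ Z j = 0 := by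
    intro c j
    rw [dotProduct_comm, Matrix.dotProduct_mulVec, ← Matrix.mulVec_transpose, h.orth j,
      zero_dotProduct]
  have key : ∀ i j, Z i ⬝ᵥ Z (j + 1) = Z (i + 1) ⬝ᵥ Z j := by
    intro i j
    rw [h.rel i, add_dotProduct, h1, add_zero, h.rel j, dotProduct_add, dotProduct_comm (Z (i+1)) (M *ᵥ g j),
      h1, add_zero, Matrix.dotProduct_mulVec, ← Matrix.mulVec_transpose, hA]
  intro i
  induction i with
  | zero => intro j; rw [h.z0, zero_dotProduct]
  | succ i ih => intro j; rw [← key, ih]

omit [DecidableEq W] [DecidableEq I] in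
/-- The twisted solution used in the minimality argument. -/
lemma IsSol.twist {A : Matrix W W F} {M : Matrix W I F} {e : ℕ} {Z : ℕ → W → F} {g : ℕ → I → F}
    (h : IsSol A M e Z g) (al : ℕ → F) (j : ℕ) :
    (Z j - ∑ k ∈ Finset.range j, al (j - k) • Z k) =
      A *ᵥ (Z (j + 1) - ∑ k ∈ Finset.range (j + 1), al (j + 1 - k) • Z k) +
        M *ᵥ (g j - ∑ k ∈ Finset.range j, al (j - k) • g k) := by
  rw [Finset.sum_range_succ']
  rw [h.z0, smul_zero, add_zero, Matrix.mulVec_sub, Matrix.mulVec_sub]
  have h1 : A *ᵥ Z (j + 1) = Z j - M *ᵥ g j := eq_sub_of_add_eq (h.rel j).symm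
  have h2 : A *ᵥ (∑ k ∈ Finset.range j, al (j + 1 - (k + 1)) • Z (k + 1)) =
      ∑ k ∈ Finset.range j, al (j - k) • (Z k - M *ᵥ g k) := by
    rw [Matrix.mulVec_sum]
    refine Finset.sum_congr rfl fun k _ => ?_
    rw [Matrix.mulVec_smul]
    have : A *ᵥ Z (k + 1) = Z k - M *ᵥ g k := eq_sub_of_add_eq (h.rel k).symm
    rw [this, Nat.add_sub_add_right]
  have h3 : M *ᵥ (∑ k ∈ Finset.range j, al (j - k) • g k) =
      ∑ k ∈ Finset.range j, al (j - k) • (M *ᵥ g k) := by
    rw [Matrix.mulVec_sum]
    refine Finset.sum_congr rfl fun k _ => ?_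
    rw [Matrix.mulVec_smul]
  rw [h1, h2, h3]
  simp only [smul_sub, Finset.sum_sub_distrib]
  abel

omit [DecidableEq W] [DecidableEq I] in
lemma zero_of_twist {V : Type*} [AddCommGroup V] [Module F V] (al : ℕ → F) (Z : ℕ → V) (h : ℕ)
    (hz : ∀ j, j ≤ h → Z j - ∑ k ∈ Finset.range j, al (j - k) • Z k = 0) :
    ∀ j, j ≤ h → Z j = 0 := by
  intro j
  induction j using Nat.strong_induction_on with
  | _ j ih =>
    intro hj
    have := hz j hj
    rw [Finset.sum_eq_zero, sub_zero] at this
    · exact this
    · intro k hk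
      rw [Finset.mem_range] at hk
      rw [ih k hk (by omega), smul_zero]

omit [DecidableEq W] [DecidableEq I] in
/-- In a solution of least degree the coefficients are linearly independent. -/
theorem IsSol.indep {A : Matrix W W F} {M : Matrix W I F} {e : ℕ} {Z : ℕ → W → F} {g : ℕ → I → F}
    (h : IsSol A M e Z g) (hmin : ∀ e', e' < e → ∀ Z' g', ¬ IsSol A M e' Z' g') :
    ∀ r, r ≤ e → LinearIndependent F (fun k : Fin r => Z (k + 1)) := by
  intro r
  induction r with
  | zero => intro _; exact linearIndependent_empty_type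
  | succ r ih =>
    intro hr
    rw [linearIndependent_finSucc']
    have e1 : (Fin.init fun k : Fin (r + 1) => Z (k + 1)) = fun k : Fin r => Z (k + 1) := by
      ext k w; simp [Fin.init]
    rw [e1]
    refine ⟨ih (by omega), ?_⟩
    intro hmem
    simp only [Fin.val_last] at hmem
    rw [Submodule.mem_span_range_iff_exists_fun] at hmem
    obtain ⟨b, hb⟩ := hmem
    -- the coefficients as a function on the natural numbers
    let bn : ℕ → F := fun k => if hk : k < r then b ⟨k, hk⟩ else 0
    let al : ℕ → F := fun t => bn (r - t)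
    have hb' : ∑ k ∈ Finset.range r, bn k • Z (k + 1) = Z (r + 1) := by
      rw [← hb, Finset.sum_range]
      refine Finset.sum_congr rfl fun k _ => ?_
      simp [bn]
    let Y : ℕ → W → F := fun j => Z j - ∑ k ∈ Finset.range j, al (j - k) • Z k
    let G : ℕ → I → F := fun j => g j - ∑ k ∈ Finset.range j, al (j - k) • g k
    have hrel : ∀ j, Y j = A *ᵥ Y (j + 1) + M *ᵥ G j := fun j => h.twist al j
    have hYr : Y (r + 1) = 0 := by
      simp only [Y]
      rw [Finset.sum_range_succ', h.z0, smul_zero, add_zero, ← hb', sub_eq_zero]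
      refine Finset.sum_congr rfl fun k hk => ?_
      rw [Finset.mem_range] at hk
      simp only [al]
      congr 2
      omega
    by_cases hG : ∃ j, j ≤ r ∧ G j ≠ 0
    · obtain ⟨j0, hj0, hj1⟩ := hG
      refine hmin r (by omega) (fun j => if j ≤ r then Y j else 0)
        (fun j => if j ≤ r then G j else 0) ⟨?_, ?_, ?_, ?_, ?_, ?_⟩
      · simp [Y, h.z0]
      · intro j hj; simp [not_le.2 hj]
      · intro j hj; simp [not_le.2 hj]
      · intro j
        by_cases hj : j ≤ r
        · by_cases hj' : j + 1 ≤ r
          · simp only [hj, hj', if_true]; exact hrel j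
          · have : j = r := by omega
            subst this
            simp only [le_refl, if_true]
            have := hrel j
            rw [hYr] at this
            simpa using this
        · have hj' : ¬ j + 1 ≤ r := by omega
          simp [hj, hj']
      · intro j
        by_cases hj : j ≤ r
        · simp only [hj, if_true, Y]
          rw [Matrix.mulVec_sub, h.orth, Matrix.mulVec_sum, Finset.sum_eq_zero, sub_zero]
          intro k _
          rw [Matrix.mulVec_smul, h.orth, smul_zero]
        · simp [hj]
      · exact ⟨j0, by simpa [hj0] using hj1⟩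
    · push Not at hG
      have hg : ∀ j, j ≤ r → g j = 0 := zero_of_twist al g r hG
      have hY : ∀ t, t ≤ r + 1 → Y (r + 1 - t) = 0 := by
        intro t
        induction t with
        | zero => intro _; simpa using hYr
        | succ t iht =>
          intro ht
          have h1 := hrel (r + 1 - (t + 1))
          have h2 : r + 1 - (t + 1) + 1 = r + 1 - t := by omega
          rw [h2, iht (by omega), hG _ (by omega)] at h1
          simpa using h1
      have hY' : ∀ j, j ≤ r + 1 → Y j = 0 := by
        intro j hj
        have := hY (r + 1 - j) (by omega)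
        rwa [show r + 1 - (r + 1 - j) = j by omega] at this
      have hZ : ∀ j, j ≤ r + 1 → Z j = 0 := zero_of_twist al Z (r + 1) hY'
      obtain ⟨j0, hj0⟩ := h.ne
      have hj0r : r < j0 := by
        by_contra hc
        exact hj0 (hg j0 (by omega))
      refine hmin (e - (r + 1)) (by omega) (fun j => Z (j + (r + 1))) (fun j => g (j + (r + 1)))
        ⟨?_, ?_, ?_, ?_, ?_, ?_⟩
      · simpa using hZ (r + 1) le_rfl
      · intro j hj; exact h.zt _ (by omega)
      · intro j hj; exact h.gt _ (by omega)
      · intro j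
        have := h.rel (j + (r + 1))
        rwa [show j + (r + 1) + 1 = j + 1 + (r + 1) by omega] at this
      · intro j; exact h.orth _
      · exact ⟨j0 - (r + 1), by rwa [show j0 - (r + 1) + (r + 1) = j0 by omega]⟩

/-- The previous vector of a chain. -/
def prev {r : ℕ} {V : Type*} [Zero V] (z : Fin r → V) : Fin (r + 1) → V := Fin.cons 0 z

omit [DecidableEq W] [DecidableEq I] in
/-- **Chains.** A nonzero polynomial solution gives a chain. -/
theorem exists_chain {A : Matrix W W F} {M : Matrix W I F} (hA : Aᵀ = A)
    (hex : ∃ e Z g, IsSol A M e Z g) :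
    ∃ (r : ℕ) (z : Fin r → W → F) (c : Fin (r + 1) → I → F), LinearIndependent F z ∧
      (∀ i j, z i ⬝ᵥ z j = 0) ∧ c (Fin.last r) ≠ 0 ∧ (∀ i, Mᵀ *ᵥ z i = 0) ∧
      (∀ i : Fin r, A *ᵥ z i = prev z i.castSucc - M *ᵥ c i.castSucc) ∧
      M *ᵥ c (Fin.last r) = prev z (Fin.last r) := by
  classical
  have hex' : ∃ e, ∃ Z g, IsSol A M e Z g := hex
  let r := Nat.find hex'
  obtain ⟨Z, g, h⟩ := Nat.find_spec hex'
  have hmin : ∀ e', e' < r → ∀ Z' g', ¬ IsSol A M e' Z' g' := by
    intro e' he' Z' g' hs
    exact Nat.find_min hex' he' ⟨Z', g', hs⟩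
  have hprev : ∀ k : Fin (r + 1), prev (fun k : Fin r => Z (k + 1)) k = Z k := by
    intro k
    refine Fin.cases ?_ (fun j => ?_) k
    · simp [prev, h.z0]
    · simp [prev]
  have hge : g r ≠ 0 := by
    intro h0
    have hZr : Z r = 0 := by
      have := h.rel r
      rw [h.zt (r + 1) (Nat.lt_succ_self r), h0] at this
      simpa using this
    rcases Nat.eq_zero_or_pos r with hr | hr
    · obtain ⟨j, hj⟩ := h.ne
      rcases Nat.eq_zero_or_pos j with hj0 | hj0
      · subst hj0; rw [hr] at h0; exact hj h0
      · exact hj (h.gt j (by change r < j; omega))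
    · refine hmin (r - 1) (by omega) Z g ⟨h.z0, ?_, ?_, h.rel, h.orth, h.ne⟩
      · intro j hj
        rcases Nat.lt_or_ge r j with hj' | hj'
        · exact h.zt j hj'
        · rw [show j = r by omega]; exact hZr
      · intro j hj
        rcases Nat.lt_or_ge r j with hj' | hj'
        · exact h.gt j hj'
        · rw [show j = r by omega]; exact h0
  refine ⟨r, fun k => Z (k + 1), fun k => g k, h.indep hmin r le_rfl, ?_, ?_, ?_, ?_, ?_⟩
  · intro i j; exact h.dot hA _ _
  · simpa using hge
  · intro i; exact h.orth _
  · intro i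
    rw [hprev]
    simpa using eq_sub_of_add_eq (h.rel i).symm
  · rw [hprev]
    have := h.rel r
    rw [h.zt (r + 1) (Nat.lt_succ_self r)] at this
    simpa using this.symm

/-- From a polynomial solution to a solution in coefficients. -/
theorem exists_sol {A : Matrix W W F} {M : Matrix W I F} (z : W → F[X]) (c : I → F[X])
    (hne : ¬ (z = 0 ∧ c = 0))
    (h1 : ∀ w, X * z w - ∑ u, C (A w u) * z u = ∑ i, C (M w i) * c i)
    (h2 : ∀ i, ∑ w, C (M w i) * z w = 0) : ∃ e Z g, IsSol A M e Z g := by
  let Z : ℕ → W → F := fun j w => if j = 0 then 0 else (z w).coeff (j - 1)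
  let g : ℕ → I → F := fun j i => (c i).coeff j
  let e : ℕ := (Finset.univ.sup fun w => (z w).natDegree) + (Finset.univ.sup fun i => (c i).natDegree) + 1
  have hz : ∀ w, (z w).natDegree + 1 ≤ e := by
    intro w
    have := Finset.le_sup (f := fun w => (z w).natDegree) (Finset.mem_univ w)
    simp only [e] at *
    omega
  have hc : ∀ i, (c i).natDegree + 1 ≤ e := by
    intro i
    have := Finset.le_sup (f := fun i => (c i).natDegree) (Finset.mem_univ i)
    simp only [e] at *
    omega
  have hrel : ∀ j, Z j = A *ᵥ Z (j + 1) + M *ᵥ g j := by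
    intro j
    ext w
    have := congrArg (fun p => coeff p j) (h1 w)
    simp only [coeff_sub, finsetSum_coeff, coeff_C_mul] at this
    simp only [Pi.add_apply, Matrix.mulVec, dotProduct]
    have hX : (X * z w).coeff j = Z j w := by
      rcases j with _ | j
      · simp [Z]
      · simp [Z]
    rw [hX] at this
    simp only [Z, g] at *
    simp only [Nat.add_eq_zero_iff, one_ne_zero, and_false, if_false, Nat.add_sub_cancel]
    linear_combination this
  refine ⟨e, Z, g, by ext w; simp [Z], ?_, ?_, hrel, ?_, ?_⟩
  · intro j hj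
    ext w
    simp only [Z]
    rw [if_neg (by omega)]
    exact coeff_eq_zero_of_natDegree_lt (by have := hz w; omega)
  · intro j hj
    ext i
    exact coeff_eq_zero_of_natDegree_lt (by have := hc i; omega)
  · intro j
    ext i
    simp only [Matrix.mulVec, dotProduct, Matrix.transpose_apply, Pi.zero_apply, Z]
    by_cases hj : j = 0
    · simp [hj]
    · simp only [hj, if_false]
      have := congrArg (fun p => coeff p (j - 1)) (h2 i)
      simpa only [finsetSum_coeff, coeff_C_mul, coeff_zero] using this
  · by_contra hg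
    push Not at hg
    apply hne
    have hc0 : c = 0 := by
      ext i j
      have := congrFun (hg j) i
      simpa [g] using this
    refine ⟨?_, hc0⟩
    -- descend
    have hZ : ∀ t, t ≤ e + 1 → Z (e + 1 - t) = 0 := by
      intro t
      induction t with
      | zero =>
        intro _
        ext w
        simp only [Z]
        rw [if_neg (by omega)]
        exact coeff_eq_zero_of_natDegree_lt (by have := hz w; omega)
      | succ t iht =>
        intro ht
        have h3 := hrel (e + 1 - (t + 1))
        have h4 : e + 1 - (t + 1) + 1 = e + 1 - t := by omega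
        rw [h4, iht (by omega), hg] at h3
        simpa using h3
    ext w j
    by_cases hj : j < e
    · have := congrFun (hZ (e - j) (by omega)) w
      rw [show e + 1 - (e - j) = j + 1 by omega] at this
      simpa [Z] using this
    · rw [coeff_eq_zero_of_natDegree_lt (by have := hz w; omega)]
      simp

end Pool.Agent.Helper185_DS
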