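import Mathlib
import Pool.Agent.Helper185_DS.Chain
import Pool.Agent.Helper185_DS.Count
import Pool.Agent.Helper185_DS.Graphs

/-!
# The number of singular bordered pencils
-/

set_option autoImplicit false

namespace Pool.Agent.Helper185_DS

open Matrix Finset

/-- The pair (graph on `W`, columns indexed by `I`) has a singular bordered pencil. -/
def BadPair {W I : Type*} [Fintype W] [Fintype I] (G : SimpleGraph W) (M : I → W → ZMod 2) : Prop :=
  ∃ e Z g, IsSol (adjM (ZMod 2) G) (Matrix.of fun w i => M i w) e Z g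

/-- The conditions of a chain on the columns. -/
def CondM {W I : Type*} [Fintype W] [Fintype I] {r : ℕ} (z : Fin r → W → ZMod 2)
    (c : Fin (r + 1) → I → ZMod 2) (M : I → W → ZMod 2) : Prop :=
  (∀ i j, z j ⬝ᵥ M i = 0) ∧ ∑ i, c (Fin.last r) i • M i = prev z (Fin.last r)

/-- The conditions of a chain on the graph. -/
def CondG {W I : Type*} [Fintype W] [Fintype I] {r : ℕ} (z : Fin r → W → ZMod 2)
    (c : Fin (r + 1) → I → ZMod 2) (G : SimpleGraph W) (M : I → W → ZMod 2) : Prop :=
  ∀ j, (adjM (ZMod 2) G) *ᵥ z j =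
      prev z j.castSucc - (Matrix.of fun w i => M i w) *ᵥ c j.castSucc

lemma BadPair.chain {W I : Type*} [Fintype W] [Fintype I] {G : SimpleGraph W} {M : I → W → ZMod 2}
    (h : BadPair G M) (hodd : Odd (Fintype.card W)) :
    ∃ r ∈ Finset.range ((Fintype.card W + 1) / 2),
      ∃ z : Fin r → W → ZMod 2, ∃ c : Fin (r + 1) → I → ZMod 2, IsoTuple z ∧ c (Fin.last r) ≠ 0 ∧
      CondM z c M ∧ CondG z c G M := by
  classical
  obtain ⟨r, z, c, h1, h2, h3, h4, h5, h6⟩ := exists_chain (adjM_transpose G) h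
  have hiso : IsoTuple z := ⟨h1, h2⟩
  have hr := hiso.two_mul_le
  obtain ⟨k, hk⟩ := hodd
  refine ⟨r, Finset.mem_range.2 (by omega), z, c, hiso, h3, ⟨?_, ?_⟩, h5⟩
  · intro i j
    have := congrFun (h4 j) i
    simp only [Matrix.mulVec, dotProduct, Matrix.transpose_apply, Matrix.of_apply,
      Pi.zero_apply] at this
    rw [dotProduct, ← this]
    exact Finset.sum_congr rfl fun w _ => mul_comm _ _
  · rw [← h6]
    ext w
    simp only [Finset.sum_apply, Pi.smul_apply, smul_eq_mul, Matrix.mulVec, dotProduct,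
      Matrix.of_apply]
    exact Finset.sum_congr rfl fun i _ => mul_comm _ _

lemma card_chainCond {W I : Type*} [Fintype W] [Fintype I] {r : ℕ} (z : Fin r → W → ZMod 2)
    (hz : LinearIndependent (ZMod 2) z)
    (c : Fin (r + 1) → I → ZMod 2) (hc : c (Fin.last r) ≠ 0) :
    cnt (fun p : SimpleGraph W × (I → W → ZMod 2) => CondM z c p.2 ∧ CondG z c p.1 p.2) ≤
      (2 ^ (Fintype.card W - r)) ^ (Fintype.card I - 1) * 2 ^ (Fintype.card W - r).choose 2 := by
  refine (cnt_prod_le' (CondM z c) (CondG z c) (2 ^ (Fintype.card W - r).choose 2) ?_).trans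
    (Nat.mul_le_mul_right _ ?_)
  · intro M _
    exact card_prescribed z hz _
  · exact card_columns z (c (Fin.last r)) hc (prev z (Fin.last r)) (2 ^ (Fintype.card W - r))
      (card_orth z hz).le

/-- **The number of singular bordered pencils.** -/
theorem card_bad {W I : Type*} [Fintype W] [Fintype I] (hodd : Odd (Fintype.card W)) :
    cnt (fun p : SimpleGraph W × (I → W → ZMod 2) => BadPair p.1 p.2) *
        2 ^ Fintype.card W ≤
      2 ^ ((Fintype.card W).choose 2 + Fintype.card W * Fintype.card I) *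
        2 ^ (Fintype.card I + (Fintype.card W + 1) / 2) := by
  classical
  set m := Fintype.card W with hm
  set s := Fintype.card I with hs
  rcases Nat.eq_zero_or_pos s with hs0 | hs0
  · -- no columns
    have : cnt (fun p : SimpleGraph W × (I → W → ZMod 2) => BadPair p.1 p.2) = 0 := by
      rw [← cnt_false (α := SimpleGraph W × (I → W → ZMod 2))]
      refine cnt_congr fun p => ⟨?_, fun h => h.elim⟩
      rintro ⟨e, Z, g, h⟩
      obtain ⟨j, hj⟩ := h.ne
      apply hj
      have : IsEmpty I := Fintype.card_eq_zero_iff.1 (by rw [← hs, hs0])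
      exact Subsingleton.elim _ _
    rw [this]
    simp
  have h1 : cnt (fun p : SimpleGraph W × (I → W → ZMod 2) => BadPair p.1 p.2) ≤
      ∑ r ∈ Finset.range ((m + 1) / 2),
        cnt (fun z : Fin r → W → ZMod 2 => IsoTuple z) * (2 ^ (s * (r + 1)) *
          ((2 ^ (m - r)) ^ (s - 1) * 2 ^ (m - r).choose 2)) := by
    refine (cnt_mono (fun p hp => BadPair.chain hp hodd)).trans ((cnt_exists_le _ _).trans ?_)
    refine Finset.sum_le_sum fun r _ => ?_
    refine (cnt_exists_le' _).trans ?_
    rw [cnt_eq, ← smul_eq_mul, ← Finset.sum_const, Finset.sum_filter]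
    refine Finset.sum_le_sum fun z _ => ?_
    by_cases hz : IsoTuple z
    · rw [if_pos hz]
      refine (cnt_exists_le' _).trans ?_
      have hc : ∀ c : Fin (r + 1) → I → ZMod 2,
          cnt (fun p : SimpleGraph W × (I → W → ZMod 2) => IsoTuple z ∧ c (Fin.last r) ≠ 0 ∧
            CondM z c p.2 ∧ CondG z c p.1 p.2) ≤
          (2 ^ (m - r)) ^ (s - 1) * 2 ^ (m - r).choose 2 := by
        intro c
        by_cases hc : c (Fin.last r) = 0
        · have : cnt (fun p : SimpleGraph W × (I → W → ZMod 2) => IsoTuple z ∧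
              c (Fin.last r) ≠ 0 ∧ CondM z c p.2 ∧ CondG z c p.1 p.2) = 0 := by
            rw [← cnt_false (α := SimpleGraph W × (I → W → ZMod 2))]
            exact cnt_congr fun p => ⟨fun h => h.2.1 hc, fun h => h.elim⟩
          rw [this]; exact Nat.zero_le _
        · exact (cnt_mono fun p hp => hp.2.2).trans (card_chainCond z hz.1 c hc)
      refine (Finset.sum_le_sum fun c _ => hc c).trans ?_
      rw [Finset.sum_const, smul_eq_mul, Finset.card_univ, Fintype.card_fun, Fintype.card_fun,
        ZMod.card, Fintype.card_fin, ← hs, ← pow_mul]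
    · rw [if_neg hz]
      refine le_of_eq ?_
      rw [← cnt_false (α := SimpleGraph W × (I → W → ZMod 2))]
      exact cnt_congr fun p => ⟨fun ⟨c, h⟩ => hz h.1, fun h => h.elim⟩
  calc _ ≤ (∑ r ∈ Finset.range ((m + 1) / 2),
        cnt (fun z : Fin r → W → ZMod 2 => IsoTuple z) * (2 ^ (s * (r + 1)) *
          ((2 ^ (m - r)) ^ (s - 1) * 2 ^ (m - r).choose 2))) * 2 ^ m :=
        Nat.mul_le_mul_right _ h1
    _ = ∑ r ∈ Finset.range ((m + 1) / 2),
        (cnt (fun z : Fin r → W → ZMod 2 => IsoTuple z) * 2 ^ (m - r).choose 2) *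
          (2 ^ (s * (r + 1)) * (2 ^ (m - r)) ^ (s - 1) * 2 ^ m) := by
        rw [Finset.sum_mul]
        refine Finset.sum_congr rfl fun r _ => ?_
        ring
    _ ≤ ∑ r ∈ Finset.range ((m + 1) / 2), 2 ^ m.choose 2 * (2 ^ (m * s) * 2 ^ s * 2 ^ r) := by
        refine Finset.sum_le_sum fun r hr => ?_
        rw [Finset.mem_range] at hr
        refine Nat.mul_le_mul (card_isoTuple hodd r (by omega)) (le_of_eq ?_)
        rw [← pow_mul, ← pow_add, ← pow_add, ← pow_add, ← pow_add]
        congr 1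
        obtain ⟨t, ht⟩ : ∃ t, s = t + 1 := ⟨s - 1, by omega⟩
        obtain ⟨q, hq⟩ : ∃ q, m = q + r := ⟨m - r, by omega⟩
        rw [ht, hq]
        simp only [Nat.add_sub_cancel]
        ring
    _ = 2 ^ m.choose 2 * (2 ^ (m * s) * 2 ^ s * ∑ r ∈ Finset.range ((m + 1) / 2), 2 ^ r) := by
        rw [← Finset.mul_sum, ← Finset.mul_sum]
    _ ≤ 2 ^ m.choose 2 * (2 ^ (m * s) * 2 ^ s * 2 ^ ((m + 1) / 2)) := by
        refine Nat.mul_le_mul_left _ (Nat.mul_le_mul_left _ ?_)
        rw [Nat.geomSum_eq (le_refl 2)]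
        simp
    _ = _ := by
        rw [pow_add, pow_add]; ring

end Pool.Agent.Helper185_DS
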