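import Mathlib

/-!
# Determinants of symmetric matrices in characteristic two

Bordered symmetric matrices over a commutative ring of characteristic two: the determinant is affine
in the border.
-/

set_option autoImplicit false

namespace Pool.Agent.Helper185_DS

open Matrix

variable {n : Type*} [Fintype n] [DecidableEq n] {R : Type*} [CommRing R]

/-- The matrix `S` with the off-diagonal part of column `i` replaced by `x`, the off-diagonal part of row
`i` replaced by `y` and the diagonal entry at `i` replaced by `d`. -/
def brd (S : Matrix n n R) (i : n) (x y : n → R) (d : R) : Matrix n n R :=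
  fun a b => if a = i then (if b = i then d else y b) else (if b = i then x a else S a b)

lemma brd_det_add_row (S : Matrix n n R) (i : n) (x y y' : n → R) (d d' : R) :
    (brd S i x (y + y') (d + d')).det = (brd S i x y d).det + (brd S i x y' d').det := by
  have key : ∀ (y : n → R) (d : R), brd S i x y d =
      (brd S i x 0 0).updateRow i (fun b => if b = i then d else y b) := by
    intro y d
    ext a b
    by_cases ha : a = i
    · subst ha; simp [brd]
    · rw [Matrix.updateRow_ne ha]; simp [brd, ha]
  rw [key (y + y'), key y, key y', ← Matrix.det_updateRow_add]
  congr 2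
  ext b
  by_cases hb : b = i <;> simp [hb]

lemma brd_transpose (S : Matrix n n R) (hS : ∀ a b, S a b = S b a) (i : n) (x y : n → R) (d : R) :
    (brd S i x y d)ᵀ = brd S i y x d := by
  ext a b
  by_cases ha : a = i <;> by_cases hb : b = i <;> simp [brd, ha, hb, hS a b]

lemma brd_det_add_col (S : Matrix n n R) (hS : ∀ a b, S a b = S b a) (i : n) (x x' y : n → R)
    (d d' : R) :
    (brd S i (x + x') y (d + d')).det = (brd S i x y d).det + (brd S i x' y d').det := by
  rw [← Matrix.det_transpose, brd_transpose S hS, brd_det_add_row, ← Matrix.det_transpose,
    brd_transpose S hS, ← Matrix.det_transpose (brd S i y x' d'), brd_transpose S hS]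

/-- **Affinity in the border, characteristic two.** -/
theorem brd_det_affine [CharP R 2] (S : Matrix n n R) (hS : ∀ a b, S a b = S b a) (i : n)
    (v w : n → R) (d : R) :
    (brd S i (v + w) (v + w) d).det = (brd S i w w d).det + (brd S i v v 0).det := by
  have h1 : (brd S i (v + w) (v + w) d).det =
      (brd S i (v + w) v 0).det + (brd S i (v + w) w d).det := by
    rw [← brd_det_add_row, zero_add]
  have h2 : (brd S i (v + w) v 0).det = (brd S i v v 0).det + (brd S i w v 0).det := by
    rw [← brd_det_add_col S hS, zero_add]
  have h3 : (brd S i (v + w) w d).det = (brd S i v w 0).det + (brd S i w w d).det := by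
    rw [← brd_det_add_col S hS, zero_add]
  have h4 : (brd S i v w 0).det = (brd S i w v 0).det := by
    rw [← Matrix.det_transpose, brd_transpose S hS]
  rw [h1, h2, h3, h4]
  have := CharTwo.add_self_eq_zero ((brd S i w v 0).det)
  linear_combination this

end Pool.Agent.Helper185_DS
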