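import Mathlib
import Pool.Agent.Helper185_DS.Char2
import Pool.Agent.Helper185_DS.Bad

/-!
# From cospectral graphs to singular bordered pencils
-/

set_option autoImplicit false
set_option linter.unusedSimpArgs false
set_option linter.unusedSectionVars false

namespace Pool.Agent.Helper185_DS

open Matrix Finset Polynomial

/-- Comparison of the numbers of functions, one value being resampled. -/
lemma cnt_update_le {U E : Type*} [Finite U] [DecidableEq U] [Finite E] [Nonempty E] (i : U)
    (P Q : (U → E) → Prop)
    (h : ∀ M : U → E, cnt (fun a => P (Function.update M i a)) ≤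
      cnt (fun a => Q (Function.update M i a))) : cnt P ≤ cnt Q := by
  classical
  have := Fintype.ofFinite U
  have := Fintype.ofFinite E
  have key : ∀ P : (U → E) → Prop,
      ∑ M : U → E, cnt (fun a => P (Function.update M i a)) = cnt P * Fintype.card E := by
    intro P
    rw [← cnt_prod (fun M a => P (Function.update M i a))]
    let e : (U → E) × E ≃ (U → E) × E :=
      { toFun := fun p => (Function.update p.1 i p.2, p.1 i)
        invFun := fun p => (Function.update p.1 i p.2, p.1 i)
        left_inv := fun p => by
          refine Prod.ext ?_ ?_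
          · simp
          · simp
        right_inv := fun p => by
          refine Prod.ext ?_ ?_
          · simp
          · simp }
    rw [cnt_equiv (P := fun p : (U → E) × E => P (Function.update p.1 i p.2))
      (Q := fun p : (U → E) × E => P p.1) e (fun x => Iff.rfl)]
    rw [cnt_prod (fun M _ => P M), cnt_eq P, Finset.card_eq_sum_ones, Finset.sum_mul, Finset.sum_filter]
    refine Finset.sum_congr rfl fun M _ => ?_
    by_cases hM : P M
    · rw [if_pos hM, one_mul]
      rw [cnt_congr (Q := fun _ : E => True) (fun _ => by simp [hM]), cnt_true,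
        Nat.card_eq_fintype_card]
    · rw [if_neg hM]
      rw [cnt_congr (Q := fun _ : E => False) (fun _ => by simp [hM]), cnt_false]
  have h1 : cnt P * Fintype.card E ≤ cnt Q * Fintype.card E := by
    rw [← key, ← key]
    exact Finset.sum_le_sum fun M _ => h M
  exact Nat.le_of_mul_le_mul_right h1 Fintype.card_pos

/-- Solutions of an affine equation. -/
lemma cnt_affine_le {E Y : Type*} [Finite E] [AddCommGroup E] [AddCommGroup Y] (g : E → Y)
    (hg : ∀ a b, g (a + b) = g a + g b) (k : Y) : cnt (fun a => g a = k) ≤ cnt (fun a => g a = 0) := by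
  by_cases hex : ∃ a0, g a0 = k
  · obtain ⟨a0, ha0⟩ := hex
    refine cnt_le_of_inj (fun a => a - a0) ?_ ?_
    · intro a ha
      have h1 := hg (a - a0) a0
      rw [sub_add_cancel, ha, ha0] at h1
      exact (left_eq_add.1 (by rw [add_comm]; exact h1))
    · intro a b _ _ hab
      simpa using hab
  · refine le_of_eq_of_le ?_ (Nat.zero_le _)
    rw [← cnt_false (α := E)]
    exact cnt_congr fun a => ⟨fun ha => hex ⟨a, ha⟩, fun h => h.elim⟩

variable {W U : Type*} [Fintype W] [Fintype U] [DecidableEq W] [DecidableEq U]

/-- The characteristic matrix of the symmetric matrix with blocks `A`, `M`, `B`, the vertices in `J`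
being joined to `W` only and having diagonal entry zero (characteristic two). -/
noncomputable def SJ (A : Matrix W W (ZMod 2)) (B : Matrix U U (ZMod 2)) (M : U → W → ZMod 2)
    (J : Finset U) : Matrix (W ⊕ U) (W ⊕ U) (ZMod 2)[X] :=
  fromBlocks (charmatrix A) (Matrix.of fun w u => C (M u w)) (Matrix.of fun u w => C (M u w))
    (Matrix.of fun u u' => if u ∈ J ∨ u' ∈ J then 0 else charmatrix B u u')

lemma charmatrix_symm {n : Type*} [Fintype n] [DecidableEq n] {A : Matrix n n (ZMod 2)}
    (hA : ∀ a b, A a b = A b a) (a b : n) : charmatrix A a b = charmatrix A b a := by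
  by_cases h : a = b
  · subst h; rfl
  · rw [charmatrix_apply_ne _ _ _ h, charmatrix_apply_ne _ _ _ (Ne.symm h), hA]

lemma SJ_symm {A : Matrix W W (ZMod 2)} {B : Matrix U U (ZMod 2)} (M : U → W → ZMod 2)
    (J : Finset U) (hA : ∀ a b, A a b = A b a) (hB : ∀ a b, B a b = B b a) (a b : W ⊕ U) :
    SJ A B M J a b = SJ A B M J b a := by
  rcases a with a | a <;> rcases b with b | b
  · exact charmatrix_symm hA a b
  · rfl
  · rfl
  · simp only [SJ, fromBlocks_apply₂₂, Matrix.of_apply]
    by_cases h : a ∈ J ∨ b ∈ J
    · rw [if_pos h, if_pos h.symm]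
    · rw [if_neg h, if_neg (fun h' => h h'.symm)]
      exact charmatrix_symm hB a b

/-- Border coming from the column. -/
noncomputable def va (a : W → ZMod 2) : W ⊕ U → (ZMod 2)[X] := Sum.elim (fun w => C (a w)) 0

/-- Border coming from the vertices in `U`. -/
noncomputable def vb (B : Matrix U U (ZMod 2)) (J : Finset U) (i : U) : W ⊕ U → (ZMod 2)[X] :=
  Sum.elim 0 (fun u => if u ∈ J then 0 else charmatrix B i u)

lemma SJ_update (A : Matrix W W (ZMod 2)) {B : Matrix U U (ZMod 2)} (M : U → W → ZMod 2)
    (J : Finset U) (hB : ∀ a b, B a b = B b a) (i : U) (hi : i ∉ J) (a : W → ZMod 2) :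
    SJ A B (Function.update M i a) J =
      brd (SJ A B M J) (Sum.inr i) (va a + vb B J i) (va a + vb B J i) (charmatrix B i i) := by
  ext1 p q
  rcases p with p | p <;> rcases q with q | q
  · simp [SJ, brd]
  · by_cases h : q = i
    · subst h; simp [SJ, brd, va, vb]
    · simp [SJ, brd, va, vb, h]
  · by_cases h : p = i
    · subst h; simp [SJ, brd, va, vb]
    · simp [SJ, brd, va, vb, h]
  · by_cases h : p = i
    · subst h
      by_cases h' : q = p
      · subst h'; simp [SJ, brd, hi]
      · simp [SJ, brd, va, vb, h', hi]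
    · by_cases h' : q = i
      · subst h'
        simp only [SJ, brd, va, vb, fromBlocks_apply₂₂, Matrix.of_apply, Sum.inr.injEq, h, if_false,
          if_true, Pi.add_apply, Sum.elim_inr, Pi.zero_apply, zero_add, hi, or_false]
        by_cases hp : p ∈ J
        · simp [hp]
        · simp [hp, charmatrix_symm hB]
      · simp [SJ, brd, h, h']

lemma SJ_update_zero (A : Matrix W W (ZMod 2)) {B : Matrix U U (ZMod 2)} (M : U → W → ZMod 2)
    (J : Finset U) (hB : ∀ a b, B a b = B b a) (i : U) (hi : i ∉ J) :
    SJ A B (Function.update M i 0) J =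
      brd (SJ A B M J) (Sum.inr i) (vb B J i) (vb B J i) (charmatrix B i i) := by
  rw [SJ_update A M J hB i hi 0]
  have : (va (0 : W → ZMod 2) : W ⊕ U → (ZMod 2)[X]) = 0 := by
    ext1 x; rcases x with x | x <;> simp [va]
  rw [this, zero_add]

lemma SJ_update_insert (A : Matrix W W (ZMod 2)) (B : Matrix U U (ZMod 2)) (M : U → W → ZMod 2)
    (J : Finset U) (i : U) (a : W → ZMod 2) :
    SJ A B (Function.update M i a) (insert i J) =
      brd (SJ A B M J) (Sum.inr i) (va a) (va a) 0 := by
  ext1 p q
  rcases p with p | p <;> rcases q with q | q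
  · simp [SJ, brd]
  · by_cases h : q = i
    · subst h; simp [SJ, brd, va]
    · simp [SJ, brd, va, h]
  · by_cases h : p = i
    · subst h; simp [SJ, brd, va]
    · simp [SJ, brd, va, h]
  · by_cases h : p = i
    · subst h
      simp [SJ, brd, va]
    · by_cases h' : q = i
      · subst h'
        simp [SJ, brd, va, h]
      · simp [SJ, brd, h, h']

lemma va_add (a b : W → ZMod 2) : (va (a + b) : W ⊕ U → (ZMod 2)[X]) = va a + va b := by
  ext1 x; rcases x with x | x <;> simp [va]

/-- One step of the reduction. -/
lemma cnt_step (A : Matrix W W (ZMod 2)) {B B' : Matrix U U (ZMod 2)} (hA : ∀ a b, A a b = A b a)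
    (hB : ∀ a b, B a b = B b a) (hB' : ∀ a b, B' a b = B' b a) (J : Finset U) (i : U) (hi : i ∉ J) :
    cnt (fun M : U → W → ZMod 2 => (SJ A B M J).det = (SJ A B' M J).det) ≤
      cnt (fun M : U → W → ZMod 2 => (SJ A B M (insert i J)).det = (SJ A B' M (insert i J)).det) := by
  have hchar : CharP (ZMod 2)[X] 2 := inferInstance
  refine cnt_update_le i _ _ fun M => ?_
  have h1 : ∀ {B : Matrix U U (ZMod 2)} (_ : ∀ a b, B a b = B b a) (a : W → ZMod 2),
      (SJ A B (Function.update M i a) J).det = (SJ A B (Function.update M i 0) J).det +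
        (SJ A B (Function.update M i a) (insert i J)).det := by
    intro B hB a
    rw [SJ_update A M J hB i hi a, SJ_update_zero A M J hB i hi, SJ_update_insert A B M J i a]
    exact brd_det_affine _ (SJ_symm M J hA hB) _ _ _ _
  have h2 : ∀ {B : Matrix U U (ZMod 2)} (_ : ∀ a b, B a b = B b a) (a b : W → ZMod 2),
      (SJ A B (Function.update M i (a + b)) (insert i J)).det =
        (SJ A B (Function.update M i a) (insert i J)).det +
        (SJ A B (Function.update M i b) (insert i J)).det := by
    intro B hB a b
    rw [SJ_update_insert, SJ_update_insert, SJ_update_insert, va_add,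
      brd_det_affine _ (SJ_symm M J hA hB), add_comm]
  let g : (W → ZMod 2) → (ZMod 2)[X] := fun a =>
    (SJ A B (Function.update M i a) (insert i J)).det -
      (SJ A B' (Function.update M i a) (insert i J)).det
  have hg : ∀ a b, g (a + b) = g a + g b := by
    intro a b
    simp only [g]
    rw [h2 hB, h2 hB']; ring
  have h3 := cnt_affine_le g hg
    ((SJ A B' (Function.update M i 0) J).det - (SJ A B (Function.update M i 0) J).det)
  refine le_trans (le_of_eq (cnt_congr fun a => ?_)) (h3.trans (le_of_eq (cnt_congr fun a => ?_)))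
  · rw [h1 hB, h1 hB']
    simp only [g]
    constructor
    · intro h; linear_combination h
    · intro h; linear_combination h
  · simp only [g]
    exact sub_eq_zero

/-- All steps of the reduction. -/
lemma cnt_steps (A : Matrix W W (ZMod 2)) {B B' : Matrix U U (ZMod 2)} (hA : ∀ a b, A a b = A b a)
    (hB : ∀ a b, B a b = B b a) (hB' : ∀ a b, B' a b = B' b a) (J : Finset U) :
    cnt (fun M : U → W → ZMod 2 => (SJ A B M ∅).det = (SJ A B' M ∅).det) ≤
      cnt (fun M : U → W → ZMod 2 => (SJ A B M J).det = (SJ A B' M J).det) := by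
  induction J using Finset.induction_on with
  | empty => exact le_rfl
  | insert i J hi ih => exact ih.trans (cnt_step A hA hB hB' J i hi)

end Pool.Agent.Helper185_DS
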