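import Mathlib
import Pool.Agent.Helper185_DS.Reduce

/-!
# From cospectral graphs to singular bordered pencils, last step
-/

set_option autoImplicit false
set_option linter.unusedSimpArgs false
set_option linter.unusedSectionVars false

namespace Pool.Agent.Helper185_DS

open Matrix Finset Polynomial

variable {W U : Type*} [Fintype W] [Fintype U] [DecidableEq W] [DecidableEq U]

/-- The unit border. -/
noncomputable def ve (x : U) : W ⊕ U → (ZMod 2)[X] := Sum.elim 0 (Pi.single x 1)

/-- If all vertices except `x₁, x₂` are processed and the two matrices differ in the entry at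
`x₁ x₂`, equality of the determinants gives a singular bordered pencil. -/
lemma badPair_of_det_eq (G : SimpleGraph W) {B B' : Matrix U U (ZMod 2)}
    (hB : ∀ a b, B a b = B b a) (hB' : ∀ a b, B' a b = B' b a) (hd : ∀ a, B a a = 0)
    (hd' : ∀ a, B' a a = 0) (x₁ x₂ : U)
    (hne : x₁ ≠ x₂) (hx : B' x₁ x₂ = B x₁ x₂ + 1) (M : U → W → ZMod 2)
    (hdet : (SJ (adjM (ZMod 2) G) B M (univ.filter fun u => u ≠ x₁ ∧ u ≠ x₂)).det =
      (SJ (adjM (ZMod 2) G) B' M (univ.filter fun u => u ≠ x₁ ∧ u ≠ x₂)).det) :
    BadPair G (fun i : {u // u ≠ x₁ ∧ u ≠ x₂} => M i.1) := by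
  have hchar : CharP (ZMod 2)[X] 2 := inferInstance
  set A := adjM (ZMod 2) G with hAdef
  have hA : ∀ a b, A a b = A b a := adjM_symm G
  set J : Finset U := univ.filter fun u => u ≠ x₁ ∧ u ≠ x₂ with hJ
  have hJmem : ∀ u, u ∈ J ↔ u ≠ x₁ ∧ u ≠ x₂ := by intro u; simp [hJ]
  set S := SJ A B M J with hS
  let v : W ⊕ U → (ZMod 2)[X] := fun p => S p (Sum.inr x₁)
  have h1 : S = brd S (Sum.inr x₁) v v (S (Sum.inr x₁) (Sum.inr x₁)) := by
    ext1 p q
    by_cases hp : p = Sum.inr x₁
    · by_cases hq : q = Sum.inr x₁
      · simp [brd, hp, hq]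
      · simp only [brd, hp, hq, if_true, if_false, v]
        exact SJ_symm M J hA hB _ _
    · by_cases hq : q = Sum.inr x₁
      · simp [brd, hp, hq, v]
      · simp [brd, hp, hq]
  have hentry : ∀ u u', u ≠ u' → (u ≠ x₁ ∨ u' ≠ x₂) → (u ≠ x₂ ∨ u' ≠ x₁) →
      (if u ∈ J ∨ u' ∈ J then (0 : (ZMod 2)[X]) else charmatrix B' u u') =
      (if u ∈ J ∨ u' ∈ J then 0 else charmatrix B u u') := by
    intro u u' hu h2 h3
    by_cases h : u ∈ J ∨ u' ∈ J
    · rw [if_pos h, if_pos h]
    · exfalso
      apply h
      rw [hJmem, hJmem]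
      by_cases a1 : u = x₁
      · by_cases a2 : u' = x₁
        · exact absurd (a1.trans a2.symm) hu
        · by_cases a3 : u' = x₂
          · rcases h2 with h2 | h2
            · exact absurd a1 h2
            · exact absurd a3 h2
          · exact Or.inr ⟨a2, a3⟩
      · by_cases a2 : u = x₂
        · by_cases a3 : u' = x₂
          · exact absurd (a2.trans a3.symm) hu
          · by_cases a4 : u' = x₁
            · rcases h3 with h3 | h3
              · exact absurd a2 h3
              · exact absurd a4 h3
            · exact Or.inr ⟨a4, a3⟩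
        · exact Or.inl ⟨a1, a2⟩
  have hdiag : ∀ u, charmatrix B' u u = charmatrix B u u := by
    intro u; rw [charmatrix_apply_eq, charmatrix_apply_eq, hd, hd']
  have hx12 : x₂ ∉ J := by rw [hJmem]; simp
  have hx11 : x₁ ∉ J := by rw [hJmem]; simp
  have hoff : charmatrix B' x₂ x₁ = charmatrix B x₂ x₁ + 1 := by
    rw [charmatrix_apply_ne _ _ _ (Ne.symm hne), charmatrix_apply_ne _ _ _ (Ne.symm hne), hB' x₂ x₁,
      hx, hB x₂ x₁, map_add, map_one]
    have : (1 : (ZMod 2)[X]) + 1 = 0 := CharTwo.add_self_eq_zero 1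
    linear_combination (-1 : (ZMod 2)[X]) * this
  have hoff' : charmatrix B' x₁ x₂ = charmatrix B x₁ x₂ + 1 := by
    rw [charmatrix_symm hB', charmatrix_symm hB, hoff]
  have h2 : SJ A B' M J = brd S (Sum.inr x₁) (ve x₂ + v) (ve x₂ + v)
      (S (Sum.inr x₁) (Sum.inr x₁)) := by
    ext1 p q
    rcases p with p | p <;> rcases q with q | q
    · simp [brd, hS, SJ]
    · by_cases hq : q = x₁
      · subst hq; simp [brd, hS, SJ, v, ve]
      · simp [brd, hS, SJ, v, ve, hq]
    · by_cases hp : p = x₁
      · subst hp; simp [brd, hS, SJ, v, ve]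
      · simp [brd, hS, SJ, v, ve, hp]
    · by_cases hp : p = x₁
      · subst hp
        by_cases hq : q = p
        · subst hq; simp [brd, hS, SJ, hx11, hdiag, hd, hd']
        · by_cases hq2 : q = x₂
          · subst hq2
            simp only [brd, hS, SJ, v, ve, fromBlocks_apply₂₂, Matrix.of_apply, Sum.inr.injEq, hq,
              if_true, if_false, hx11, hx12, or_self, Pi.add_apply, Sum.elim_inr, Pi.single_eq_same]
            rw [hoff', charmatrix_symm hB]
            ring
          · have e1 := hentry p q (Ne.symm hq) (Or.inr hq2) (Or.inl hne)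
            simp only [brd, hS, SJ, v, ve, fromBlocks_apply₂₂, Matrix.of_apply, Sum.inr.injEq, hq,
              if_true, if_false, Pi.add_apply, Sum.elim_inr, Pi.single_apply, hq2, zero_add]
            rw [e1]
            by_cases h : q ∈ J
            · simp [h]
            · simp only [h, hx11, or_self, if_false]
              exact charmatrix_symm hB _ _
      · by_cases hq : q = x₁
        · subst hq
          by_cases hp2 : p = x₂
          · subst hp2
            simp only [brd, hS, SJ, v, ve, fromBlocks_apply₂₂, Matrix.of_apply, Sum.inr.injEq, hp,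
              if_true, if_false, hx11, hx12, or_self, Pi.add_apply, Sum.elim_inr, Pi.single_eq_same]
            rw [hoff]
            ring
          · have e1 := hentry p q hp (Or.inl hp) (Or.inl hp2)
            simp only [brd, hS, SJ, v, ve, fromBlocks_apply₂₂, Matrix.of_apply, Sum.inr.injEq, hp,
              if_true, if_false, Pi.add_apply, Sum.elim_inr, Pi.single_apply, hp2, zero_add]
            exact e1
        · simp only [brd, hS, SJ, fromBlocks_apply₂₂, Matrix.of_apply, Sum.inr.injEq, hp, hq,
            if_false]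
          by_cases hpq : p = q
          · subst hpq
            by_cases h : p ∈ J
            · simp [h]
            · simp [h, hdiag, hd, hd']
          · exact hentry p q hpq (Or.inl hp) (Or.inr hq)
  -- the determinant of the unit border
  have h3 : (brd S (Sum.inr x₁) (ve x₂) (ve x₂) 0).det = 0 := by
    have h4 : (SJ A B' M J).det = S.det + (brd S (Sum.inr x₁) (ve x₂) (ve x₂) 0).det := by
      rw [h2, brd_det_affine S (SJ_symm M J hA hB), ← h1]
    rw [← hdet] at h4
    exact left_eq_add.1 h4
  obtain ⟨y, hy0, hy⟩ := Matrix.exists_mulVec_eq_zero_iff.2 h3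
  -- reading off the rows
  have hrow : ∀ p, ∑ q, brd S (Sum.inr x₁) (ve x₂) (ve x₂) 0 p q * y q = 0 := fun p => congrFun hy p
  have r1 : y (Sum.inr x₂) = 0 := by
    have := hrow (Sum.inr x₁)
    rw [Finset.sum_eq_single (Sum.inr x₂)] at this
    · simpa [brd, ve, hne.symm] using this
    · intro q _ hq
      rcases q with q | q
      · simp [brd, ve]
      · have hq' : q ≠ x₂ := fun h => hq (by rw [h])
        by_cases h : q = x₁
        · simp [brd, h]
        · simp [brd, ve, h, Pi.single_apply, hq']
    · intro h; exact absurd (Finset.mem_univ _) h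
  apply exists_sol (fun w => y (Sum.inl w)) (fun i : {u // u ≠ x₁ ∧ u ≠ x₂} => y (Sum.inr i.1))
  · rintro ⟨hz, hc⟩
    apply hy0
    have hyx1 : y (Sum.inr x₁) = 0 := by
      have := hrow (Sum.inr x₂)
      rw [Finset.sum_eq_single (Sum.inr x₁)] at this
      · simpa [brd, ve, hne.symm] using this
      · intro q _ hq
        rcases q with q | q
        · have : y (Sum.inl q) = 0 := congrFun hz q
          rw [this, mul_zero]
        · by_cases h : q = x₂
          · rw [h, r1, mul_zero]
          · have h' : q ≠ x₁ := fun h' => hq (by rw [h'])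
            have : y (Sum.inr q) = 0 := congrFun hc ⟨q, h', h⟩
            rw [this, mul_zero]
      · intro h; exact absurd (Finset.mem_univ _) h
    ext1 q
    rcases q with q | q
    · exact congrFun hz q
    · by_cases h1 : q = x₁
      · rw [h1, hyx1]; rfl
      · by_cases h2 : q = x₂
        · rw [h2, r1]; rfl
        · exact congrFun hc ⟨q, h1, h2⟩
  · intro w
    have := hrow (Sum.inl w)
    rw [Fintype.sum_sum_type] at this
    have e1 : ∑ w', brd S (Sum.inr x₁) (ve x₂) (ve x₂) 0 (Sum.inl w) (Sum.inl w') * y (Sum.inl w') =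
        X * y (Sum.inl w) - ∑ u, C (A w u) * y (Sum.inl u) := by
      have e2 : ∀ w', brd S (Sum.inr x₁) (ve x₂) (ve x₂) 0 (Sum.inl w) (Sum.inl w') =
          (if w = w' then X else 0) - C (A w w') := by
        intro w'
        by_cases h : w = w'
        · subst h; simp [brd, hS, SJ, charmatrix_apply_eq]
        · simp [brd, hS, SJ, charmatrix_apply_ne _ _ _ h, h]
      simp only [e2, sub_mul, Finset.sum_sub_distrib, ite_mul, zero_mul]
      simp
    have e3 : ∑ u, brd S (Sum.inr x₁) (ve x₂) (ve x₂) 0 (Sum.inl w) (Sum.inr u) * y (Sum.inr u) =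
        ∑ i : {u // u ≠ x₁ ∧ u ≠ x₂}, C (M i.1 w) * y (Sum.inr i.1) := by
      rw [← Finset.sum_subtype (s := J) (p := fun u => u ≠ x₁ ∧ u ≠ x₂) hJmem
        (f := fun u => C (M u w) * y (Sum.inr u))]
      rw [← Finset.sum_subset (Finset.subset_univ J)]
      · refine Finset.sum_congr rfl fun u hu => ?_
        rw [hJmem] at hu
        simp [brd, hS, SJ, hu.1]
      · intro u _ hu
        rw [hJmem] at hu
        by_cases h1 : u = x₁
        · simp [brd, ve, h1]
        · have h2 : u = x₂ := by
            by_contra h2; exact hu ⟨h1, h2⟩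
          rw [h2, r1, mul_zero]
    rw [e1, e3] at this
    simp only [Matrix.of_apply]
    have h5 := eq_neg_of_add_eq_zero_left this
    rw [h5, CharTwo.neg_eq]
  · intro i
    have := hrow (Sum.inr i.1)
    rw [Fintype.sum_sum_type] at this
    have hiJ : i.1 ∈ J := (hJmem _).2 i.2
    have e3 : ∑ u, brd S (Sum.inr x₁) (ve x₂) (ve x₂) 0 (Sum.inr i.1) (Sum.inr u) * y (Sum.inr u)
        = 0 := by
      refine Finset.sum_eq_zero fun u _ => ?_
      by_cases h1 : u = x₁
      · simp [brd, ve, h1, i.2.1, i.2.2]
      · simp [brd, hS, SJ, h1, i.2.1, hiJ]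
    rw [e3, add_zero] at this
    rw [← this]
    refine Finset.sum_congr rfl fun w _ => ?_
    simp [brd, hS, SJ, i.2.1]

end Pool.Agent.Helper185_DS
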