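import Mathlib
import Pool.Agent.Helper185_DS.Reduce2

/-!
# The number of graphs cospectral modulo two with a fixed modification
-/

set_option autoImplicit false
set_option linter.unusedSimpArgs false
set_option linter.unusedSectionVars false

namespace Pool.Agent.Helper185_DS

open Matrix Finset Polynomial

lemma symmDiff_adj {V : Type*} (G D : SimpleGraph V) (a b : V) :
    (symmDiff G D).Adj a b ↔ (G.Adj a b ∧ ¬ D.Adj a b) ∨ (D.Adj a b ∧ ¬ G.Adj a b) := by
  rw [symmDiff_def]
  simp [SimpleGraph.sup_adj, SimpleGraph.sdiff_adj]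

lemma choose_two_add (a k : ℕ) : (a + k).choose 2 = a.choose 2 + (k.choose 2 + k * a) := by
  induction k with
  | zero => simp
  | succ k ih =>
    rw [← add_assoc, Nat.choose_succ_succ' (a + k) 1, Nat.choose_succ_succ' k 1, ih]
    simp only [Nat.choose_one_right]
    ring

section core

variable {W U : Type*} [Fintype W] [Fintype U] [DecidableEq W] [DecidableEq U]

/-- The count for a fixed graph on `U`. -/
lemma cnt_core (hodd : Odd (Fintype.card W)) {B B' : Matrix U U (ZMod 2)}
    (hB : ∀ a b, B a b = B b a) (hB' : ∀ a b, B' a b = B' b a) (hd : ∀ a, B a a = 0)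
    (hd' : ∀ a, B' a a = 0) (x₁ x₂ : U) (hne : x₁ ≠ x₂) (hx : B' x₁ x₂ = B x₁ x₂ + 1) :
    cnt (fun p : SimpleGraph W × (U → W → ZMod 2) =>
      (SJ (adjM (ZMod 2) p.1) B p.2 ∅).det = (SJ (adjM (ZMod 2) p.1) B' p.2 ∅).det) *
        2 ^ Fintype.card W ≤
      2 ^ ((Fintype.card W).choose 2 + Fintype.card W * Fintype.card U) *
        2 ^ ((Fintype.card U - 2) + (Fintype.card W + 1) / 2) := by
  classical
  let I := {u : U // u ≠ x₁ ∧ u ≠ x₂}
  have hrest : Fintype.card {u : U // ¬ (u ≠ x₁ ∧ u ≠ x₂)} = 2 := by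
    rw [Fintype.card_subtype]
    have : (univ.filter fun u : U => ¬ (u ≠ x₁ ∧ u ≠ x₂)) = {x₁, x₂} := by
      ext u
      simp only [Finset.mem_filter, Finset.mem_univ, true_and, Finset.mem_insert,
        Finset.mem_singleton]
      tauto
    rw [this, Finset.card_pair hne]
  have hIc : Fintype.card I + 2 = Fintype.card U := by
    have h0 : Fintype.card {u : U // u ≠ x₁ ∧ u ≠ x₂} +
        Fintype.card {u : U // ¬ (u ≠ x₁ ∧ u ≠ x₂)} = Fintype.card U := by
      rw [Fintype.card_subtype, Fintype.card_subtype, ← Finset.card_univ (α := U)]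
      exact Finset.card_filter_add_card_filter_not _
    rw [hrest] at h0
    exact h0
  have h1 : cnt (fun p : SimpleGraph W × (U → W → ZMod 2) =>
      (SJ (adjM (ZMod 2) p.1) B p.2 ∅).det = (SJ (adjM (ZMod 2) p.1) B' p.2 ∅).det) ≤
      cnt (fun p : SimpleGraph W × (U → W → ZMod 2) =>
        BadPair p.1 (fun i : I => p.2 i.1)) := by
    rw [cnt_prod (fun G M => (SJ (adjM (ZMod 2) G) B M ∅).det = (SJ (adjM (ZMod 2) G) B' M ∅).det),
      cnt_prod (fun (G : SimpleGraph W) (M : U → W → ZMod 2) => BadPair G (fun i : I => M i.1))]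
    refine Finset.sum_le_sum fun G _ => ?_
    refine (cnt_steps (adjM (ZMod 2) G) (adjM_symm G) hB hB'
      (univ.filter fun u => u ≠ x₁ ∧ u ≠ x₂)).trans (cnt_mono fun M hM => ?_)
    exact badPair_of_det_eq G hB hB' hd hd' x₁ x₂ hne hx M hM
  have h2 : cnt (fun p : SimpleGraph W × (U → W → ZMod 2) => BadPair p.1 (fun i : I => p.2 i.1)) =
      cnt (fun p : SimpleGraph W × (I → W → ZMod 2) => BadPair p.1 p.2) *
        2 ^ (2 * Fintype.card W) := by
    let e : SimpleGraph W × (U → W → ZMod 2) ≃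
        (SimpleGraph W × (I → W → ZMod 2)) × ({u : U // ¬ (u ≠ x₁ ∧ u ≠ x₂)} → W → ZMod 2) :=
      ((Equiv.refl _).prodCongr (Equiv.piEquivPiSubtypeProd (fun u => u ≠ x₁ ∧ u ≠ x₂)
        (fun _ => W → ZMod 2))).trans (Equiv.prodAssoc _ _ _).symm
    rw [cnt_equiv (P := fun p : SimpleGraph W × (U → W → ZMod 2) =>
        BadPair p.1 (fun i : I => p.2 i.1)) (Q := fun q => BadPair q.1.1 q.1.2) e (fun x => Iff.rfl)]
    rw [cnt_prod (fun (q : SimpleGraph W × (I → W → ZMod 2))
      (_ : {u : U // ¬ (u ≠ x₁ ∧ u ≠ x₂)} → W → ZMod 2) => BadPair q.1 q.2), cnt_eq,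
      Finset.card_eq_sum_ones, Finset.sum_mul, Finset.sum_filter]
    refine Finset.sum_congr rfl fun q _ => ?_
    by_cases hq : BadPair q.1 q.2
    · rw [if_pos hq, one_mul, cnt_congr (Q := fun _ => True) (fun _ => by simp [hq]), cnt_true,
        Nat.card_eq_fintype_card, Fintype.card_fun, Fintype.card_fun, ZMod.card, hrest, ← pow_mul,
        mul_comm]
    · rw [if_neg hq, cnt_congr (Q := fun _ => False) (fun _ => by simp [hq]), cnt_false]
  have h3 := card_bad (W := W) (I := I) hodd
  calc _ ≤ (cnt (fun p : SimpleGraph W × (I → W → ZMod 2) => BadPair p.1 p.2) *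
        2 ^ (2 * Fintype.card W)) * 2 ^ Fintype.card W := by
        rw [← h2]; exact Nat.mul_le_mul_right _ h1
    _ = (cnt (fun p : SimpleGraph W × (I → W → ZMod 2) => BadPair p.1 p.2) * 2 ^ Fintype.card W) *
        2 ^ (2 * Fintype.card W) := by ring
    _ ≤ (2 ^ ((Fintype.card W).choose 2 + Fintype.card W * Fintype.card I) *
        2 ^ (Fintype.card I + (Fintype.card W + 1) / 2)) * 2 ^ (2 * Fintype.card W) :=
        Nat.mul_le_mul_right _ h3
    _ = _ := by
        rw [← hIc]
        simp only [Nat.add_sub_cancel]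
        rw [← pow_add, ← pow_add, ← pow_add]
        congr 1
        ring

end core

section transport

variable {V : Type*} [Fintype V] [DecidableEq V]

/-- Splitting the vertex set. -/
def splitEquiv (U₀ : Finset V) : V ≃ {v // v ∉ U₀} ⊕ {v // v ∈ U₀} :=
  ((Equiv.sumComm _ _).trans (Equiv.sumCompl (fun v => v ∈ U₀))).symm

lemma splitEquiv_symm_inl (U₀ : Finset V) (w : {v // v ∉ U₀}) :
    (splitEquiv U₀).symm (Sum.inl w) = w.1 := rfl

lemma splitEquiv_symm_inr (U₀ : Finset V) (w : {v // v ∈ U₀}) :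
    (splitEquiv U₀).symm (Sum.inr w) = w.1 := rfl

/-- The characteristic polynomial in block form. -/
lemma charpoly_eq_SJ (U₀ : Finset V) (G : SimpleGraph V) :
    (adjM (ZMod 2) G).charpoly =
      (SJ (adjM (ZMod 2) (G.comap (Subtype.val : {v // v ∉ U₀} → V)))
        (adjM (ZMod 2) (G.comap (Subtype.val : {v // v ∈ U₀} → V)))
        (fun u w => adjM (ZMod 2) G u.1 w.1) ∅).det := by
  rw [← Matrix.charpoly_reindex (splitEquiv U₀), Matrix.charpoly]
  congr 1
  ext1 p q
  rcases p with p | p <;> rcases q with q | q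
  · by_cases h : p = q
    · subst h
      rw [charmatrix_apply_eq]
      simp only [SJ, fromBlocks_apply₁₁, charmatrix_apply_eq, Matrix.reindex_apply,
        Matrix.submatrix_apply, splitEquiv_symm_inl, adjM_diag]
    · rw [charmatrix_apply_ne _ _ _ (fun h' => h (Sum.inl.inj h'))]
      simp only [SJ, fromBlocks_apply₁₁, charmatrix_apply_ne _ _ _ h, Matrix.reindex_apply,
        Matrix.submatrix_apply, splitEquiv_symm_inl]
      rfl
  · rw [charmatrix_apply_ne _ _ _ (by simp)]
    simp only [SJ, fromBlocks_apply₁₂, Matrix.reindex_apply,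
      Matrix.submatrix_apply, splitEquiv_symm_inl, splitEquiv_symm_inr, Matrix.of_apply]
    rw [adjM_symm, CharTwo.neg_eq]
  · rw [charmatrix_apply_ne _ _ _ (by simp)]
    simp only [SJ, fromBlocks_apply₂₁, Matrix.reindex_apply,
      Matrix.submatrix_apply, splitEquiv_symm_inl, splitEquiv_symm_inr, Matrix.of_apply]
    rw [CharTwo.neg_eq]
  · by_cases h : p = q
    · subst h
      rw [charmatrix_apply_eq]
      simp only [SJ, fromBlocks_apply₂₂, charmatrix_apply_eq, Matrix.reindex_apply, Matrix.of_apply,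
        Matrix.submatrix_apply, splitEquiv_symm_inr, adjM_diag, Finset.notMem_empty, or_self,
        if_false]
    · rw [charmatrix_apply_ne _ _ _ (fun h' => h (Sum.inr.inj h'))]
      simp only [SJ, fromBlocks_apply₂₂, charmatrix_apply_ne _ _ _ h, Matrix.reindex_apply,
        Matrix.submatrix_apply, splitEquiv_symm_inr, Matrix.of_apply, Finset.notMem_empty, or_self,
        if_false]
      rfl

/-- **Main count**: graphs which are cospectral modulo two with their modification by `D`. -/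
theorem cnt_shift (U₀ : Finset V) (D : SimpleGraph V) (hD : ∀ a b, D.Adj a b → a ∈ U₀ ∧ b ∈ U₀)
    (hD0 : D ≠ ⊥) (hodd : Odd (Fintype.card V - U₀.card)) :
    cnt (fun G : SimpleGraph V =>
      (adjM (ZMod 2) G).charpoly = (adjM (ZMod 2) (symmDiff G D)).charpoly) *
        2 ^ (Fintype.card V - U₀.card) ≤
      2 ^ (Fintype.card V).choose 2 *
        2 ^ ((U₀.card - 2) + (Fintype.card V - U₀.card + 1) / 2) := by
  classical
  obtain ⟨x₁, x₂, hx⟩ : ∃ a b, D.Adj a b := by
    by_contra h
    push Not at h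
    apply hD0
    ext a b
    simp [h a b]
  let W := {v // v ∉ U₀}
  let U := {v // v ∈ U₀}
  have hcW : Fintype.card W = Fintype.card V - U₀.card := by
    have h0 : Fintype.card {v // v ∉ U₀} = Fintype.card V - U₀.card := by
      rw [Fintype.card_subtype, Finset.filter_not,
        Finset.card_sdiff_of_subset (Finset.filter_subset _ _), Finset.card_univ]
      congr 2
      ext v; simp
    exact h0
  have hcU : Fintype.card U = U₀.card := Fintype.card_coe U₀
  have hle : U₀.card ≤ Fintype.card V := Finset.card_le_univ _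
  -- the pieces
  let x₁' : U := ⟨x₁, (hD _ _ hx).1⟩
  let x₂' : U := ⟨x₂, (hD _ _ hx).2⟩
  have hne : x₁' ≠ x₂' := fun h => hx.ne (congrArg Subtype.val h)
  let DU : SimpleGraph U := D.comap Subtype.val
  have hDW : ∀ G : SimpleGraph V, (symmDiff G D).comap (Subtype.val : W → V) =
      G.comap (Subtype.val : W → V) := by
    intro G
    ext a b
    simp only [SimpleGraph.comap_adj, symmDiff_adj]
    have : ¬ D.Adj a.1 b.1 := fun h => a.2 (hD _ _ h).1
    tauto
  have hDU : ∀ G : SimpleGraph V, (symmDiff G D).comap (Subtype.val : U → V) =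
      symmDiff (G.comap (Subtype.val : U → V)) DU := by
    intro G
    ext a b
    simp only [SimpleGraph.comap_adj, symmDiff_adj, DU]
  have hDM : ∀ G : SimpleGraph V, (fun (u : U) (w : W) => adjM (ZMod 2) (symmDiff G D) u.1 w.1) =
      fun (u : U) (w : W) => adjM (ZMod 2) G u.1 w.1 := by
    intro G
    funext u w
    have h1 : ¬ D.Adj u.1 w.1 := fun h => w.2 (hD _ _ h).2
    have h2 : (symmDiff G D).Adj u.1 w.1 ↔ G.Adj u.1 w.1 := by
      rw [symmDiff_adj]; tauto
    simp only [adjM_apply, h2]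
  have h1 : cnt (fun G : SimpleGraph V =>
      (adjM (ZMod 2) G).charpoly = (adjM (ZMod 2) (symmDiff G D)).charpoly) ≤
      cnt (fun q : SimpleGraph U × (SimpleGraph W × (U → W → ZMod 2)) =>
        (SJ (adjM (ZMod 2) q.2.1) (adjM (ZMod 2) q.1) q.2.2 ∅).det =
        (SJ (adjM (ZMod 2) q.2.1) (adjM (ZMod 2) (symmDiff q.1 DU)) q.2.2 ∅).det) := by
    refine cnt_le_of_inj (fun G => (G.comap Subtype.val, (G.comap Subtype.val,
      fun u w => adjM (ZMod 2) G u.1 w.1))) ?_ ?_
    · intro G hG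
      rw [charpoly_eq_SJ U₀ G, charpoly_eq_SJ U₀ (symmDiff G D), hDW, hDU, hDM] at hG
      exact hG
    · intro G G' _ _ h
      rw [Prod.mk.injEq, Prod.mk.injEq] at h
      obtain ⟨hu, hw, hm⟩ := h
      ext a b
      by_cases ha : a ∈ U₀ <;> by_cases hb : b ∈ U₀
      · have : (G.comap (Subtype.val : U → V)).Adj ⟨a, ha⟩ ⟨b, hb⟩ ↔
            (G'.comap (Subtype.val : U → V)).Adj ⟨a, ha⟩ ⟨b, hb⟩ := by rw [hu]
        simpa using this
      · have := congrFun (congrFun hm ⟨a, ha⟩) ⟨b, hb⟩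
        simp only [adjM_apply] at this
        by_cases h1 : G.Adj a b <;> by_cases h2 : G'.Adj a b <;> simp_all
      · have := congrFun (congrFun hm ⟨b, hb⟩) ⟨a, ha⟩
        simp only [adjM_apply] at this
        rw [G.adj_comm, G'.adj_comm]
        by_cases h1 : G.Adj b a <;> by_cases h2 : G'.Adj b a <;> simp_all
      · have : (G.comap (Subtype.val : W → V)).Adj ⟨a, ha⟩ ⟨b, hb⟩ ↔
            (G'.comap (Subtype.val : W → V)).Adj ⟨a, ha⟩ ⟨b, hb⟩ := by rw [hw]
        simpa using this
  have h2 : ∀ B : SimpleGraph U, cnt (fun p : SimpleGraph W × (U → W → ZMod 2) =>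
      (SJ (adjM (ZMod 2) p.1) (adjM (ZMod 2) B) p.2 ∅).det =
        (SJ (adjM (ZMod 2) p.1) (adjM (ZMod 2) (symmDiff B DU)) p.2 ∅).det) *
        2 ^ Fintype.card W ≤
      2 ^ ((Fintype.card W).choose 2 + Fintype.card W * Fintype.card U) *
        2 ^ ((Fintype.card U - 2) + (Fintype.card W + 1) / 2) := by
    intro B
    refine cnt_core (hcW ▸ hodd) (adjM_symm B) (adjM_symm _) (adjM_diag B) (adjM_diag _)
      x₁' x₂' hne ?_
    have h3 : DU.Adj x₁' x₂' := hx
    have h4 : (symmDiff B DU).Adj x₁' x₂' ↔ ¬ B.Adj x₁' x₂' := by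
      rw [symmDiff_adj]; tauto
    simp only [adjM_apply, h4]
    by_cases h5 : B.Adj x₁' x₂'
    · simp [h5]; decide
    · simp [h5]
  have h3 : cnt (fun G : SimpleGraph V =>
      (adjM (ZMod 2) G).charpoly = (adjM (ZMod 2) (symmDiff G D)).charpoly) *
        2 ^ Fintype.card W ≤ 2 ^ (Fintype.card U).choose 2 *
      (2 ^ ((Fintype.card W).choose 2 + Fintype.card W * Fintype.card U) *
        2 ^ ((Fintype.card U - 2) + (Fintype.card W + 1) / 2)) := by
    refine (Nat.mul_le_mul_right _ h1).trans ?_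
    rw [cnt_prod (fun (B : SimpleGraph U) (p : SimpleGraph W × (U → W → ZMod 2)) =>
      (SJ (adjM (ZMod 2) p.1) (adjM (ZMod 2) B) p.2 ∅).det =
        (SJ (adjM (ZMod 2) p.1) (adjM (ZMod 2) (symmDiff B DU)) p.2 ∅).det), Finset.sum_mul]
    refine (Finset.sum_le_sum fun B _ => h2 B).trans ?_
    rw [Finset.sum_const, smul_eq_mul, Finset.card_univ, ← Nat.card_eq_fintype_card, natCard_graph,
      Nat.card_eq_fintype_card]
  rw [hcW, hcU] at h3
  refine h3.trans (le_of_eq ?_)
  rw [← mul_assoc, ← pow_add]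
  congr 2
  obtain ⟨k, hk⟩ : ∃ k, Fintype.card V = U₀.card + k := ⟨Fintype.card V - U₀.card, by omega⟩
  rw [hk, Nat.add_sub_cancel_left, choose_two_add]

end transport

end Pool.Agent.Helper185_DS
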