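import Mathlib
import Pool.Agent.Helper185_DS.KryT
import Pool.Agent.Helper185_DS.Shift

/-!
# The quadratic form of a graph on a subspace

For a graph `G`, the number of edges inside a set, modulo two, is a quadratic form.  Given the values of
the adjacency matrix on linearly independent vectors, the values of the form on these vectors are
equidistributed up to an explicit obstruction.
-/

set_option autoImplicit false
set_option linter.unusedSectionVars false
set_option linter.unusedSimpArgs false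

namespace Pool.Agent.Helper185_DS

open Matrix Finset

lemma z2_cases (x : ZMod 2) : x = 0 ∨ x = 1 := by revert x; decide

lemma z2_ne_zero {x : ZMod 2} (h : x ≠ 0) : x = 1 := (z2_cases x).resolve_left h

section qf

variable {W : Type*} [Fintype W] [LinearOrder W]

lemma sum_lt_split {R : Type*} [AddCommMonoid R] (f : W → W → R) :
    ∑ i, ∑ l, f i l = (∑ i, ∑ l, if i < l then f i l + f l i else 0) + ∑ i, f i i := by
  have h1 : ∀ i l : W, f i l = (if i < l then f i l else 0) + (if l < i then f i l else 0) +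
      (if i = l then f i l else 0) := by
    intro i l
    rcases lt_trichotomy i l with h | h | h
    · simp [h, not_lt.2 h.le, h.ne]
    · simp [h]
    · simp [h, not_lt.2 h.le, h.ne']
  have h2 : ∑ i, ∑ l, f i l = ∑ i, ∑ l, ((if i < l then f i l else 0) +
      (if l < i then f i l else 0) + (if i = l then f i l else 0)) :=
    Finset.sum_congr rfl fun i _ => Finset.sum_congr rfl fun l _ => h1 i l
  rw [h2]
  simp only [Finset.sum_add_distrib]
  rw [Finset.sum_comm (f := fun i l => if l < i then f i l else 0), ← Finset.sum_add_distrib]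
  congr 1
  · refine Finset.sum_congr rfl fun i _ => ?_
    rw [← Finset.sum_add_distrib]
    refine Finset.sum_congr rfl fun l _ => ?_
    split_ifs <;> simp
  · refine Finset.sum_congr rfl fun i _ => ?_
    simp

/-- The quadratic form of a matrix: the sum over the pairs `i < l`. -/
def qf {K : Type*} [CommRing K] (M : Matrix W W K) (u : W → K) : K :=
  ∑ i, ∑ l, if i < l then M i l * (u i * u l) else 0

lemma qf_add {K : Type*} [CommRing K] (M M' : Matrix W W K) (u : W → K) :
    qf (M + M') u = qf M u + qf M' u := by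
  simp only [qf, ← Finset.sum_add_distrib]
  refine Finset.sum_congr rfl fun i _ => Finset.sum_congr rfl fun l _ => ?_
  split_ifs
  · rw [Matrix.add_apply]; ring
  · simp

/-- The form of a symmetric matrix with zero diagonal is twice the quadratic form. -/
lemma dot_eq_two_qf {K : Type*} [CommRing K] {M : Matrix W W K} (hM : ∀ a b, M a b = M b a)
    (hd : ∀ a, M a a = 0) (u : W → K) : u ⬝ᵥ (M *ᵥ u) = 2 * qf M u := by
  simp only [dotProduct, Matrix.mulVec, Finset.mul_sum, qf]
  rw [sum_lt_split]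
  have h1 : ∑ i, u i * (M i i * u i) = 0 :=
    Finset.sum_eq_zero fun i _ => by rw [hd]; ring
  rw [h1, add_zero]
  refine Finset.sum_congr rfl fun i _ => Finset.sum_congr rfl fun l _ => ?_
  split_ifs
  · rw [hM l i]; ring
  · simp

open scoped Classical in
/-- The graph of the alternating form `a ∧ b`. -/
noncomputable def rk2 (a b : W → ZMod 2) : SimpleGraph W where
  Adj i l := i ≠ l ∧ a i * b l + b i * a l = 1
  symm := ⟨by
    rintro i l ⟨h1, h2⟩
    refine ⟨h1.symm, ?_⟩
    rw [← h2]; ring⟩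
  loopless := ⟨by
    rintro i ⟨h1, _⟩
    exact h1 rfl⟩

lemma adjM_rk2 (a b : W → ZMod 2) (i l : W) :
    adjM (ZMod 2) (rk2 a b) i l = a i * b l + b i * a l := by
  by_cases h : i = l
  · subst h
    rw [adjM_diag]
    generalize a i = x; generalize b i = y; revert x y; decide
  · by_cases h2 : a i * b l + b i * a l = 1
    · have : (rk2 a b).Adj i l := ⟨h, h2⟩
      simp [adjM_apply, this, h2]
    · have h3 : ¬ (rk2 a b).Adj i l := fun h' => h2 h'.2
      rcases z2_cases (a i * b l + b i * a l) with h4 | h4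
      · simp [adjM_apply, h3, h4]
      · exact absurd h4 h2

lemma rk2_mulVec (a b t : W → ZMod 2) (ha : a ⬝ᵥ t = 0) (hb : b ⬝ᵥ t = 0) :
    adjM (ZMod 2) (rk2 a b) *ᵥ t = 0 := by
  ext i
  simp only [Matrix.mulVec, dotProduct, adjM_rk2, Pi.zero_apply]
  have : ∑ l, (a i * b l + b i * a l) * t l = a i * (b ⬝ᵥ t) + b i * (a ⬝ᵥ t) := by
    simp only [dotProduct, Finset.mul_sum, ← Finset.sum_add_distrib]
    exact Finset.sum_congr rfl fun l _ => by ring
  rw [this, ha, hb]; ring

lemma qf_rk2 (a b t : W → ZMod 2) (ha : a ⬝ᵥ t = 0) :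
    qf (adjM (ZMod 2) (rk2 a b)) t = ∑ i, t i * (a i * b i) := by
  have h1 : qf (adjM (ZMod 2) (rk2 a b)) t =
      ∑ i, ∑ l, if i < l then (a i * t i) * (b l * t l) + (a l * t l) * (b i * t i) else 0 := by
    simp only [qf, adjM_rk2]
    refine Finset.sum_congr rfl fun i _ => Finset.sum_congr rfl fun l _ => ?_
    split_ifs
    · ring
    · rfl
  have h2 := sum_lt_split (fun i l => (a i * t i) * (b l * t l))
  have h3 : ∑ i, ∑ l, (a i * t i) * (b l * t l) = 0 := by
    rw [← Finset.sum_mul_sum]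
    have : ∑ i, a i * t i = 0 := ha
    rw [this, zero_mul]
  rw [h3] at h2
  rw [h1]
  have h4 : ∀ x y : ZMod 2, 0 = x + y → x = y := by decide
  rw [h4 _ _ h2]
  refine Finset.sum_congr rfl fun i _ => ?_
  generalize a i = x; generalize b i = y; generalize t i = w
  revert x y w; decide

lemma adjM_symmDiff (G D : SimpleGraph W) :
    adjM (ZMod 2) (symmDiff G D) = adjM (ZMod 2) G + adjM (ZMod 2) D := by
  ext a b
  rw [Matrix.add_apply]
  have h := symmDiff_adj G D a b
  by_cases h1 : G.Adj a b <;> by_cases h2 : D.Adj a b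
  · have h3 : ¬ (symmDiff G D).Adj a b := by rw [h]; tauto
    simp only [adjM_apply, h1, h2, h3, if_true, if_false]; decide
  · have h3 : (symmDiff G D).Adj a b := by rw [h]; tauto
    simp only [adjM_apply, h1, h2, h3, if_true, if_false]; decide
  · have h3 : (symmDiff G D).Adj a b := by rw [h]; tauto
    simp only [adjM_apply, h1, h2, h3, if_true, if_false]; decide
  · have h3 : ¬ (symmDiff G D).Adj a b := by rw [h]; tauto
    simp only [adjM_apply, h1, h2, h3, if_true, if_false]; decide

end qf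

section fourier

/-- The sign character. -/
def chi (x : ZMod 2) : ℤ := if x = 0 then 1 else -1

lemma chi_add (x y : ZMod 2) : chi (x + y) = chi x * chi y := by
  revert x y; decide

lemma chi_abs (x : ZMod 2) : |chi x| = 1 := by revert x; decide

open scoped Classical in
lemma sum_chi {r : ℕ} (v : Fin r → ZMod 2) :
    ∑ c : Fin r → ZMod 2, chi (c ⬝ᵥ v) = if v = 0 then 2 ^ r else 0 := by
  by_cases hv : v = 0
  · subst hv
    simp [chi]
  · rw [if_neg hv]
    obtain ⟨j, hj⟩ : ∃ j, v j ≠ 0 := by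
      by_contra h; push Not at h; exact hv (funext h)
    have hj1 : v j = 1 := z2_ne_zero hj
    obtain ⟨e, he⟩ : ∃ e : Fin r → ZMod 2, e ⬝ᵥ v = 1 :=
      ⟨Pi.single j 1, by rw [single_dotProduct, one_mul, hj1]⟩
    have h1 : ∑ c : Fin r → ZMod 2, chi (c ⬝ᵥ v) =
        ∑ c : Fin r → ZMod 2, chi ((c + e) ⬝ᵥ v) := by
      refine (Fintype.sum_equiv (Equiv.addRight e) _ _ fun c => ?_).symm
      rfl
    have h2 : ∀ c : Fin r → ZMod 2, chi ((c + e) ⬝ᵥ v) = - chi (c ⬝ᵥ v) := by
      intro c
      rw [add_dotProduct, chi_add, he]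
      simp [chi]
    rw [Finset.sum_congr rfl (fun c _ => h2 c), Finset.sum_neg_distrib] at h1
    omega

end fourier

section main

variable {W : Type*} [Fintype W] [LinearOrder W]

/-- The obstruction to equidistribution. -/
def KZ {r : ℕ} (t : Fin r → W → ZMod 2) (u : W → ZMod 2) : Prop :=
  ∀ a b : W → ZMod 2, (∀ j, a ⬝ᵥ t j = 0) → (∀ j, b ⬝ᵥ t j = 0) → ∑ i, u i * (a i * b i) = 0

/-- **Equidistribution of the quadratic form.** -/
theorem cnt_qf_le {r : ℕ} (t y : Fin r → W → ZMod 2) (κ : Fin r → ZMod 2) :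
    cnt (fun G : SimpleGraph W => (∀ j, adjM (ZMod 2) G *ᵥ t j = y j) ∧
      ∀ j, qf (adjM (ZMod 2) G) (t j) = κ j) * 2 ^ r ≤
    cnt (fun G : SimpleGraph W => ∀ j, adjM (ZMod 2) G *ᵥ t j = y j) *
      cnt (fun c : Fin r → ZMod 2 => KZ t (∑ j, c j • t j)) := by
  classical
  let N : Finset (SimpleGraph W) := univ.filter fun G => ∀ j, adjM (ZMod 2) G *ᵥ t j = y j
  let q : SimpleGraph W → Fin r → ZMod 2 := fun G j => qf (adjM (ZMod 2) G) (t j)
  have e1 : ((cnt (fun G : SimpleGraph W => (∀ j, adjM (ZMod 2) G *ᵥ t j = y j) ∧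
      ∀ j, qf (adjM (ZMod 2) G) (t j) = κ j) * 2 ^ r : ℕ) : ℤ) =
      ∑ G ∈ N, ∑ c : Fin r → ZMod 2, chi (c ⬝ᵥ (q G + κ)) := by
    simp only [sum_chi]
    rw [← Finset.sum_filter, Finset.sum_const, nsmul_eq_mul, cnt_eq]
    push_cast
    congr 2
    congr 1
    ext G
    simp only [N, Finset.mem_filter, Finset.mem_univ, true_and]
    refine and_congr_right fun _ => ?_
    rw [funext_iff]
    refine forall_congr' fun j => ?_
    simp only [Pi.add_apply, Pi.zero_apply, q]
    generalize qf (adjM (ZMod 2) G) (t j) = x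
    generalize κ j = z
    revert x z; decide
  have e2 : ∑ G ∈ N, ∑ c : Fin r → ZMod 2, chi (c ⬝ᵥ (q G + κ)) =
      ∑ c : Fin r → ZMod 2, chi (c ⬝ᵥ κ) * ∑ G ∈ N, chi (c ⬝ᵥ q G) := by
    rw [Finset.sum_comm]
    refine Finset.sum_congr rfl fun c _ => ?_
    rw [Finset.mul_sum]
    refine Finset.sum_congr rfl fun G _ => ?_
    rw [dotProduct_add, chi_add, mul_comm]
  have e3 : ∀ c : Fin r → ZMod 2, chi (c ⬝ᵥ κ) * ∑ G ∈ N, chi (c ⬝ᵥ q G) ≤
      if KZ t (∑ j, c j • t j) then (N.card : ℤ) else 0 := by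
    intro c
    split_ifs with hc
    · calc _ ≤ |chi (c ⬝ᵥ κ) * ∑ G ∈ N, chi (c ⬝ᵥ q G)| := le_abs_self _
        _ = |∑ G ∈ N, chi (c ⬝ᵥ q G)| := by rw [abs_mul, chi_abs, one_mul]
        _ ≤ ∑ G ∈ N, |chi (c ⬝ᵥ q G)| := Finset.abs_sum_le_sum_abs _ _
        _ = N.card := by simp [chi_abs]
    · rw [KZ] at hc
      push Not at hc
      obtain ⟨a, b, ha, hb, hab⟩ := hc
      have hab1 := z2_ne_zero hab
      -- adding the rank two form changes the sign
      have h1 : ∀ G, c ⬝ᵥ q (symmDiff G (rk2 a b)) = c ⬝ᵥ q G + 1 := by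
        intro G
        have h2 : q (symmDiff G (rk2 a b)) = q G + fun j => ∑ i, t j i * (a i * b i) := by
          ext j
          simp only [q, Pi.add_apply, adjM_symmDiff, qf_add]
          rw [qf_rk2 a b (t j) (ha j)]
        rw [h2, dotProduct_add]
        congr 1
        rw [← hab1]
        simp only [dotProduct, Finset.sum_apply, Pi.smul_apply, smul_eq_mul, Finset.mul_sum,
          Finset.sum_mul]
        rw [Finset.sum_comm]
        exact Finset.sum_congr rfl fun i _ => Finset.sum_congr rfl fun j _ => by ring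
      have h3 : ∑ G ∈ N, chi (c ⬝ᵥ q G) = ∑ G ∈ N, chi (c ⬝ᵥ q (symmDiff G (rk2 a b))) := by
        refine Finset.sum_bij' (fun G _ => symmDiff G (rk2 a b)) (fun G _ => symmDiff G (rk2 a b))
          ?_ ?_ ?_ ?_ ?_
        · intro G hG
          simp only [N, Finset.mem_filter, Finset.mem_univ, true_and] at hG ⊢
          intro j
          rw [adjM_symmDiff, Matrix.add_mulVec, hG j, rk2_mulVec a b (t j) (ha j) (hb j), add_zero]
        · intro G hG
          simp only [N, Finset.mem_filter, Finset.mem_univ, true_and] at hG ⊢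
          intro j
          rw [adjM_symmDiff, Matrix.add_mulVec, hG j, rk2_mulVec a b (t j) (ha j) (hb j), add_zero]
        · intro G _; exact symmDiff_symmDiff_cancel_right _ _
        · intro G _; exact symmDiff_symmDiff_cancel_right _ _
        · intro G _
          simp only [symmDiff_symmDiff_cancel_right]
      have h4 : ∀ G, chi (c ⬝ᵥ q (symmDiff G (rk2 a b))) = - chi (c ⬝ᵥ q G) := by
        intro G
        rw [h1, chi_add]; simp [chi]
      rw [Finset.sum_congr rfl (fun G _ => h4 G), Finset.sum_neg_distrib] at h3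
      have h5 : ∑ G ∈ N, chi (c ⬝ᵥ q G) = 0 := by omega
      rw [h5, mul_zero]
  have e4 : ((cnt (fun G : SimpleGraph W => (∀ j, adjM (ZMod 2) G *ᵥ t j = y j) ∧
      ∀ j, qf (adjM (ZMod 2) G) (t j) = κ j) * 2 ^ r : ℕ) : ℤ) ≤
      ((cnt (fun G : SimpleGraph W => ∀ j, adjM (ZMod 2) G *ᵥ t j = y j) *
      cnt (fun c : Fin r → ZMod 2 => KZ t (∑ j, c j • t j)) : ℕ) : ℤ) := by
    rw [e1, e2]
    refine (Finset.sum_le_sum fun c _ => e3 c).trans (le_of_eq ?_)
    rw [← Finset.sum_filter, Finset.sum_const, nsmul_eq_mul]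
    push_cast
    rw [cnt_eq (fun G : SimpleGraph W => ∀ j, adjM (ZMod 2) G *ᵥ t j = y j),
      cnt_eq (fun c : Fin r → ZMod 2 => KZ t (∑ j, c j • t j))]
    rw [mul_comm]
  exact_mod_cast e4

end main

end Pool.Agent.Helper185_DS
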