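import Mathlib
import Pool.Agent.Helper185_DS.Quad

/-!
# Subspaces closed under multiplication

A subspace of `F₂^W` closed under the pointwise product is determined by a partial equivalence relation,
so there are few of them.  The obstruction space of an isotropic subspace is of this kind.
-/

set_option autoImplicit false
set_option linter.unusedSectionVars false
set_option linter.unusedSimpArgs false

namespace Pool.Agent.Helper185_DS

open Matrix Finset

variable {W : Type*} [Fintype W]

/-- Closed under pointwise multiplication. -/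
def MulClosed (U : Submodule (ZMod 2) (W → ZMod 2)) : Prop :=
  ∀ u ∈ U, ∀ v ∈ U, u * v ∈ U

lemma MulClosed.sep {U : Submodule (ZMod 2) (W → ZMod 2)} (hU : MulClosed U) {v : W → ZMod 2}
    (h0 : ∀ i, (∀ u ∈ U, u i = 0) → v i = 0) (h1 : ∀ i l, (∀ u ∈ U, u i = u l) → v i = v l)
    {i l : W} (hi : v i = 1) (hl : v l = 0) : ∃ x ∈ U, x i = 1 ∧ x l = 0 := by
  have h2 : ∃ u ∈ U, u i ≠ u l := by
    by_contra h
    push Not at h
    have := h1 i l h
    rw [hi, hl] at this
    exact one_ne_zero this
  have h3 : ∃ u ∈ U, u i ≠ 0 := by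
    by_contra h
    push Not at h
    have := h0 i h
    rw [hi] at this
    exact one_ne_zero this
  obtain ⟨u, hu, hul⟩ := h2
  obtain ⟨w, hw, hwi⟩ := h3
  have hwi1 := z2_ne_zero hwi
  rcases z2_cases (u i) with h | h
  · have hul1 : u l = 1 := by
      rcases z2_cases (u l) with h' | h'
      · exact absurd (h.trans h'.symm) hul
      · exact h'
    refine ⟨w + w * u, U.add_mem hw (hU w hw u hu), ?_, ?_⟩
    · simp [h, hwi1]
    · simp only [Pi.add_apply, Pi.mul_apply, hul1, mul_one]
      generalize w l = x; revert x; decide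
  · have hul0 : u l = 0 := by
      rcases z2_cases (u l) with h' | h'
      · exact h'
      · exact absurd (h.trans h'.symm) hul
    exact ⟨u, hu, h, hul0⟩

lemma MulClosed.mem_of {U : Submodule (ZMod 2) (W → ZMod 2)} (hU : MulClosed U) {v : W → ZMod 2}
    (h0 : ∀ i, (∀ u ∈ U, u i = 0) → v i = 0) (h1 : ∀ i l, (∀ u ∈ U, u i = u l) → v i = v l) :
    v ∈ U := by
  classical
  -- vectors which are one at `i` and vanish where `v` does
  have hA : ∀ i, v i = 1 → ∀ T : Finset W, (∀ l ∈ T, v l = 0) →
      ∃ x ∈ U, x i = 1 ∧ ∀ l ∈ T, x l = 0 := by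
    intro i hi T
    induction T using Finset.induction_on with
    | empty =>
      intro _
      have h3 : ∃ u ∈ U, u i ≠ 0 := by
        by_contra h
        push Not at h
        have := h0 i h
        rw [hi] at this
        exact one_ne_zero this
      obtain ⟨u, hu, hui⟩ := h3
      exact ⟨u, hu, z2_ne_zero hui, by simp⟩
    | insert l T _ ih =>
      intro hT
      obtain ⟨x, hx, hx1, hx2⟩ := ih fun l' hl' => hT l' (Finset.mem_insert_of_mem hl')
      obtain ⟨y, hy, hy1, hy2⟩ := hU.sep h0 h1 hi (hT l (Finset.mem_insert_self _ _))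
      refine ⟨x * y, hU x hx y hy, by simp [hx1, hy1], ?_⟩
      intro l' hl'
      rcases Finset.mem_insert.1 hl' with rfl | h
      · simp [hy2]
      · simp [hx2 l' h]
  -- join
  have hB : ∀ T : Finset W, (∀ i ∈ T, v i = 1) → ∃ x ∈ U, (∀ i ∈ T, x i = 1) ∧
      ∀ l, v l = 0 → x l = 0 := by
    intro T
    induction T using Finset.induction_on with
    | empty => intro _; exact ⟨0, U.zero_mem, by simp, by simp⟩
    | insert i T _ ih =>
      intro hT
      obtain ⟨x, hx, hx1, hx2⟩ := ih fun l' hl' => hT l' (Finset.mem_insert_of_mem hl')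
      obtain ⟨y, hy, hy1, hy2⟩ := hA i (hT i (Finset.mem_insert_self _ _))
        (univ.filter fun l => v l = 0) (by simp)
      refine ⟨x + y + x * y, U.add_mem (U.add_mem hx hy) (hU x hx y hy), ?_, ?_⟩
      · intro j hj
        simp only [Pi.add_apply, Pi.mul_apply]
        rcases Finset.mem_insert.1 hj with rfl | h
        · rw [hy1]; generalize x j = a; revert a; decide
        · rw [hx1 j h]; generalize y j = a; revert a; decide
      · intro l hl
        simp [hx2 l hl, hy2 l (by simpa using hl)]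
  obtain ⟨x, hx, hx1, hx2⟩ := hB (univ.filter fun i => v i = 1) (by simp)
  have : v = x := by
    ext i
    rcases z2_cases (v i) with h | h
    · rw [h, hx2 i h]
    · rw [h, hx1 i (by simpa using h)]
  rw [this]; exact hx

/-- The equivalence relation of a set of functions. -/
def eqvOf (U : Submodule (ZMod 2) (W → ZMod 2)) : Setoid W where
  r i l := ∀ u ∈ U, u i = u l
  iseqv := ⟨fun _ _ _ => rfl, fun h u hu => (h u hu).symm, fun h h' u hu => (h u hu).trans (h' u hu)⟩

open scoped Classical in
/-- The code of a subspace. -/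
noncomputable def codeOf (U : Submodule (ZMod 2) (W → ZMod 2)) (i : W) : Option W :=
  if ∀ u ∈ U, u i = 0 then none else some (Quotient.out (Quotient.mk (eqvOf U) i))

lemma codeOf_none {U : Submodule (ZMod 2) (W → ZMod 2)} {i : W} :
    codeOf U i = none ↔ ∀ u ∈ U, u i = 0 := by
  rw [codeOf]
  split_ifs with h
  · simp only [true_iff]; exact h
  · simp only [reduceCtorEq, false_iff]; exact h

lemma codeOf_eq {U : Submodule (ZMod 2) (W → ZMod 2)} {i l : W} :
    codeOf U i = codeOf U l ↔ ∀ u ∈ U, u i = u l := by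
  constructor
  · intro h u hu
    by_cases hi : ∀ u ∈ U, u i = 0
    · have h1 : codeOf U l = none := by rw [← h]; exact codeOf_none.2 hi
      rw [hi u hu, codeOf_none.1 h1 u hu]
    · by_cases hl : ∀ u ∈ U, u l = 0
      · exact absurd (codeOf_none.1 (h.trans (codeOf_none.2 hl))) hi
      · rw [codeOf, codeOf, if_neg hi, if_neg hl, Option.some.injEq] at h
        have h2 : (Quotient.mk (eqvOf U) i) = Quotient.mk (eqvOf U) l := by
          rw [← Quotient.out_eq (Quotient.mk (eqvOf U) i), h, Quotient.out_eq]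
        exact Quotient.exact h2 u hu
  · intro h
    have h2 : (Quotient.mk (eqvOf U) i) = Quotient.mk (eqvOf U) l := Quotient.sound h
    have h3 : (∀ u ∈ U, u i = 0) ↔ ∀ u ∈ U, u l = 0 :=
      ⟨fun h' u hu => by rw [← h u hu]; exact h' u hu, fun h' u hu => by rw [h u hu]; exact h' u hu⟩
    by_cases hi : ∀ u ∈ U, u i = 0
    · rw [codeOf, codeOf, if_pos hi, if_pos (h3.1 hi)]
    · rw [codeOf, codeOf, if_neg hi, if_neg (fun h' => hi (h3.2 h')), h2]

lemma codeOf_inj {U U' : Submodule (ZMod 2) (W → ZMod 2)} (hU' : MulClosed U')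
    (h : codeOf U = codeOf U') : U ≤ U' := by
  intro v hv
  refine hU'.mem_of ?_ ?_
  · intro i hi
    have := codeOf_none.2 hi
    rw [← h] at this
    exact codeOf_none.1 this v hv
  · intro i l hil
    have := codeOf_eq.2 hil
    rw [← h] at this
    exact codeOf_eq.1 this v hv

/-- There are few subspaces closed under multiplication. -/
theorem cnt_mulClosed : cnt (MulClosed (W := W)) ≤ (Fintype.card W + 1) ^ Fintype.card W := by
  classical
  have h1 : cnt (MulClosed (W := W)) ≤ cnt (fun _ : W → Option W => True) := by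
    refine cnt_le_of_inj (fun U => codeOf U) (fun _ _ => trivial) ?_
    intro U U' hU hU' h
    exact le_antisymm (codeOf_inj hU' h) (codeOf_inj hU h.symm)
  refine h1.trans (le_of_eq ?_)
  rw [cnt_true, Nat.card_eq_fintype_card, Fintype.card_fun, Fintype.card_option]

/-- Double orthogonal complement. -/
lemma mem_span_of_orth {r : ℕ} {t : Fin r → W → ZMod 2} (ht : LinearIndependent (ZMod 2) t)
    {v : W → ZMod 2} (h : ∀ b : W → ZMod 2, (∀ j, b ⬝ᵥ t j = 0) → b ⬝ᵥ v = 0) :
    v ∈ Submodule.span (ZMod 2) (Set.range t) := by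
  by_contra hv
  have hi : LinearIndependent (ZMod 2) (Fin.cons v t : Fin (r + 1) → W → ZMod 2) := by
    rw [linearIndependent_finCons]; exact ⟨ht, hv⟩
  have h1 := card_orth t ht
  have h2 := card_orth _ hi
  have h3 : cnt (fun x : W → ZMod 2 => ∀ j, t j ⬝ᵥ x = 0) =
      cnt (fun x : W → ZMod 2 => ∀ j, (Fin.cons v t : Fin (r + 1) → W → ZMod 2) j ⬝ᵥ x = 0) := by
    refine cnt_congr fun x => ⟨fun hx j => ?_, fun hx j => ?_⟩
    · refine Fin.cases ?_ (fun j => ?_) j
      · rw [Fin.cons_zero, dotProduct_comm]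
        refine h x fun j => ?_
        rw [dotProduct_comm]; exact hx j
      · rw [Fin.cons_succ]; exact hx j
    · have := hx j.succ
      rwa [Fin.cons_succ] at this
  rw [h1, h2] at h3
  have h4 := hi.fintype_card_le_finrank
  rw [Fintype.card_fin, Module.finrank_fintype_fun_eq_card] at h4
  have h5 := Nat.pow_right_injective (le_refl 2) h3
  omega

/-- The obstruction space. -/
def obsSpace {r : ℕ} (t : Fin r → W → ZMod 2) : Submodule (ZMod 2) (W → ZMod 2) where
  carrier := {u | u ∈ Submodule.span (ZMod 2) (Set.range t) ∧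
    ∀ a b : W → ZMod 2, (∀ j, a ⬝ᵥ t j = 0) → (∀ j, b ⬝ᵥ t j = 0) → ∑ i, u i * (a i * b i) = 0}
  add_mem' := by
    rintro u v ⟨hu1, hu2⟩ ⟨hv1, hv2⟩
    refine ⟨Submodule.add_mem _ hu1 hv1, fun a b ha hb => ?_⟩
    simp only [Pi.add_apply, add_mul, Finset.sum_add_distrib]
    rw [hu2 a b ha hb, hv2 a b ha hb, add_zero]
  zero_mem' := ⟨Submodule.zero_mem _, fun a b _ _ => by simp⟩
  smul_mem' := by
    rintro c u ⟨hu1, hu2⟩
    refine ⟨Submodule.smul_mem _ _ hu1, fun a b ha hb => ?_⟩
    simp only [Pi.smul_apply, smul_eq_mul, mul_assoc]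
    rw [← Finset.mul_sum, hu2 a b ha hb, mul_zero]

lemma mem_obsSpace {r : ℕ} {t : Fin r → W → ZMod 2} {u : W → ZMod 2} :
    u ∈ obsSpace t ↔ u ∈ Submodule.span (ZMod 2) (Set.range t) ∧
    ∀ a b : W → ZMod 2, (∀ j, a ⬝ᵥ t j = 0) → (∀ j, b ⬝ᵥ t j = 0) → ∑ i, u i * (a i * b i) = 0 :=
  Iff.rfl

lemma IsoTuple.orth_span {r : ℕ} {t : Fin r → W → ZMod 2} (ht : IsoTuple t) {u : W → ZMod 2}
    (hu : u ∈ Submodule.span (ZMod 2) (Set.range t)) (j : Fin r) : u ⬝ᵥ t j = 0 := by
  rw [Submodule.mem_span_range_iff_exists_fun] at hu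
  obtain ⟨c, rfl⟩ := hu
  rw [sum_dotProduct]
  refine Finset.sum_eq_zero fun i _ => ?_
  rw [smul_dotProduct, ht.2, smul_zero]

/-- The obstruction space of an isotropic tuple is closed under multiplication. -/
theorem mulClosed_obsSpace {r : ℕ} {t : Fin r → W → ZMod 2} (ht : IsoTuple t) :
    MulClosed (obsSpace t) := by
  rintro u ⟨hu1, hu2⟩ v ⟨hv1, hv2⟩
  -- products with vectors orthogonal to the span are in the span
  have h1 : ∀ a : W → ZMod 2, (∀ j, a ⬝ᵥ t j = 0) → v * a ∈ Submodule.span (ZMod 2) (Set.range t) := by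
    intro a ha
    refine mem_span_of_orth ht.1 fun b hb => ?_
    rw [← hv2 a b ha hb]
    simp only [dotProduct, Pi.mul_apply]
    exact Finset.sum_congr rfl fun i _ => by ring
  have h2 : u * v ∈ Submodule.span (ZMod 2) (Set.range t) := by
    rw [mul_comm]
    exact h1 u fun j => ht.orth_span hu1 j
  refine ⟨h2, fun a b ha hb => ?_⟩
  have h3 := hu2 (v * a) b (fun j => ht.orth_span (h1 a ha) j) hb
  rw [← h3]
  simp only [Pi.mul_apply]
  exact Finset.sum_congr rfl fun i _ => by ring

end Pool.Agent.Helper185_DS
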