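import Mathlib
import Pool.Agent.Helper185_DS.BoolRing

/-!
# Isotropic tuples whose span contains given vectors
-/

set_option autoImplicit false
set_option linter.unusedSectionVars false
set_option linter.unusedSimpArgs false

namespace Pool.Agent.Helper185_DS

open Matrix Finset

variable {W : Type*} [Fintype W]

/-- Isotropic tuples whose first `k` vectors are prescribed. -/
def IsoExt {u : ℕ} (e : Fin u → W → ZMod 2) (k : ℕ) (r : ℕ) (t : Fin r → W → ZMod 2) : Prop :=
  IsoTuple t ∧ ∀ (i : Fin r) (j : Fin u), (i : ℕ) = (j : ℕ) → (i : ℕ) < k → t i = e j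

lemma cntExt_succ {u : ℕ} (e : Fin u → W → ZMod 2) (r : ℕ) :
    cnt (IsoExt e u (r + 1)) ≤ cnt (IsoExt e u r) * 2 ^ (Fintype.card W - r) := by
  refine cnt_snoc_le _ _ _ ?_ ?_
  · rintro t ⟨h1, h2⟩
    exact ⟨h1.init, fun i j hij hi => h2 i.castSucc j (by simpa using hij) (by simpa using hi)⟩
  · rintro t ⟨h1, h2⟩
    rw [← card_orth _ h1.1]
    refine cnt_mono ?_
    rintro x ⟨hx, _⟩ j
    exact hx.snoc_orth.1 j

lemma cntExt_le {u : ℕ} (e : Fin u → W → ZMod 2) (r : ℕ) (hur : u ≤ r)
    (hr : r ≤ Fintype.card W) :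
    cnt (IsoExt e u r) * 2 ^ (Fintype.card W + 1 - r).choose 2 ≤
      2 ^ (Fintype.card W + 1 - u).choose 2 := by
  classical
  obtain ⟨k, rfl⟩ : ∃ k, r = u + k := ⟨r - u, by omega⟩
  induction k with
  | zero =>
    have h1 : cnt (IsoExt e u (u + 0)) ≤ 1 := by
      rw [cnt_eq]
      refine Finset.card_le_one.2 ?_
      intro a ha b hb
      simp only [Finset.mem_filter, Finset.mem_univ, true_and] at ha hb
      ext1 i
      rw [ha.2 i ⟨i, by omega⟩ rfl (by omega), hb.2 i ⟨i, by omega⟩ rfl (by omega)]
    calc _ ≤ 1 * 2 ^ (Fintype.card W + 1 - (u + 0)).choose 2 := Nat.mul_le_mul_right _ h1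
      _ = _ := by rw [one_mul, add_zero]
  | succ k ih =>
    have h1 := cntExt_succ e (u + k)
    have h2 : (Fintype.card W + 1 - (u + k)).choose 2 =
        (Fintype.card W - (u + k)) + (Fintype.card W + 1 - (u + (k + 1))).choose 2 := by
      obtain ⟨l, hl⟩ : ∃ l, Fintype.card W - (u + k) = l := ⟨_, rfl⟩
      have h3 : Fintype.card W + 1 - (u + k) = l + 1 := by omega
      have h4 : Fintype.card W + 1 - (u + (k + 1)) = l := by omega
      rw [h3, h4, hl, Nat.choose_succ_succ' l 1]; simp
    calc _ ≤ (cnt (IsoExt e u (u + k)) * 2 ^ (Fintype.card W - (u + k))) *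
          2 ^ (Fintype.card W + 1 - (u + (k + 1))).choose 2 := Nat.mul_le_mul_right _ h1
      _ = cnt (IsoExt e u (u + k)) * 2 ^ (Fintype.card W + 1 - (u + k)).choose 2 := by
          rw [h2, pow_add]; ring
      _ ≤ _ := ih (by omega) (by omega)

lemma IsoTuple.orth_span' {r : ℕ} {t : Fin r → W → ZMod 2} (ht : IsoTuple t) {u v : W → ZMod 2}
    (hu : u ∈ Submodule.span (ZMod 2) (Set.range t))
    (hv : v ∈ Submodule.span (ZMod 2) (Set.range t)) : u ⬝ᵥ v = 0 := by
  rw [Submodule.mem_span_range_iff_exists_fun] at hv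
  obtain ⟨c, rfl⟩ := hv
  rw [dotProduct_sum]
  refine Finset.sum_eq_zero fun i _ => ?_
  rw [dotProduct_smul, ht.orth_span hu, smul_zero]

/-- Exchange: the new tuple. -/
lemma exchange {r : ℕ} {t : Fin r → W → ZMod 2} (ht : IsoTuple t) (c : Fin r → ZMod 2) (j k : Fin r)
    (hj : c j = 1) :
    IsoTuple (fun i => Function.update t j (∑ i, c i • t i) (Equiv.swap j k i)) ∧
      Submodule.span (ZMod 2) (Set.range
        (fun i => Function.update t j (∑ i, c i • t i) (Equiv.swap j k i))) =
      Submodule.span (ZMod 2) (Set.range t) := by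
  classical
  set e := ∑ i, c i • t i with he
  set s : Fin r → W → ZMod 2 := fun i => Function.update t j e (Equiv.swap j k i) with hs
  have hrange : Set.range s = Set.range (Function.update t j e) := by
    have : s = Function.update t j e ∘ (Equiv.swap j k) := rfl
    rw [this, Set.range_comp, (Equiv.swap j k).surjective.range_eq, Set.image_univ]
  have he1 : e ∈ Submodule.span (ZMod 2) (Set.range t) :=
    Submodule.sum_mem _ fun i _ => Submodule.smul_mem _ _ (Submodule.subset_span ⟨i, rfl⟩)
  have hspan : Submodule.span (ZMod 2) (Set.range s) = Submodule.span (ZMod 2) (Set.range t) := by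
    rw [hrange]
    refine le_antisymm (Submodule.span_le.2 ?_) (Submodule.span_le.2 ?_)
    · rintro _ ⟨i, rfl⟩
      by_cases hi : i = j
      · subst hi; rw [Function.update_self]; exact he1
      · rw [Function.update_of_ne hi]; exact Submodule.subset_span ⟨i, rfl⟩
    · have hother : ∀ i, i ≠ j → t i ∈ Submodule.span (ZMod 2) (Set.range (Function.update t j e)) := by
        intro i hi
        exact Submodule.subset_span ⟨i, by rw [Function.update_of_ne hi]⟩
      rintro _ ⟨i, rfl⟩
      by_cases hi : i = j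
      · subst hi
        have h1 : t i = e - ∑ l ∈ univ.erase i, c l • t l := by
          rw [he, ← Finset.add_sum_erase _ _ (Finset.mem_univ i), hj, one_smul, add_sub_cancel_right]
        rw [h1]
        refine Submodule.sub_mem _ (Submodule.subset_span ⟨i, by rw [Function.update_self]⟩) ?_
        exact Submodule.sum_mem _ fun l hl => Submodule.smul_mem _ _
          (hother l (Finset.ne_of_mem_erase hl))
      · exact hother i hi
  refine ⟨⟨?_, ?_⟩, hspan⟩
  · rw [linearIndependent_iff_card_eq_finrank_span]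
    have := (linearIndependent_iff_card_eq_finrank_span.1 ht.1)
    rw [this, Set.finrank, Set.finrank, hspan]
  · intro a b
    refine ht.orth_span' ?_ ?_
    · rw [← hspan]; exact Submodule.subset_span ⟨a, rfl⟩
    · rw [← hspan]; exact Submodule.subset_span ⟨b, rfl⟩

lemma cntContain_step {u : ℕ} (e : Fin u → W → ZMod 2) (he : LinearIndependent (ZMod 2) e) (r : ℕ)
    (hur : u ≤ r) (k : ℕ) (hk : k < u) :
    cnt (fun t : Fin r → W → ZMod 2 => IsoExt e k r t ∧
        ∀ i, e i ∈ Submodule.span (ZMod 2) (Set.range t)) ≤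
      2 ^ r * cnt (fun t : Fin r → W → ZMod 2 => IsoExt e (k + 1) r t ∧
        ∀ i, e i ∈ Submodule.span (ZMod 2) (Set.range t)) := by
  classical
  let kr' : Fin r := ⟨k, by omega⟩
  let ku : Fin u := ⟨k, hk⟩
  -- the coefficients
  have hco : ∀ t : Fin r → W → ZMod 2, ∃ c : Fin r → ZMod 2, (IsoExt e k r t ∧
      ∀ i, e i ∈ Submodule.span (ZMod 2) (Set.range t)) → ∑ i, c i • t i = e ku := by
    intro t
    by_cases h : IsoExt e k r t ∧ ∀ i, e i ∈ Submodule.span (ZMod 2) (Set.range t)
    · have := h.2 ku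
      rw [Submodule.mem_span_range_iff_exists_fun] at this
      obtain ⟨c, hc⟩ := this
      exact ⟨c, fun _ => hc⟩
    · exact ⟨0, fun h' => absurd h' h⟩
  choose co hco using hco
  -- the index
  have hix : ∀ c : Fin r → ZMod 2, ∃ j : Fin r, (∃ j : Fin r, k ≤ (j : ℕ) ∧ c j = 1) →
      k ≤ (j : ℕ) ∧ c j = 1 := by
    intro c
    by_cases h : ∃ j : Fin r, k ≤ (j : ℕ) ∧ c j = 1
    · obtain ⟨j, hj⟩ := h
      exact ⟨j, fun _ => hj⟩
    · exact ⟨kr', fun h' => absurd h' h⟩
  choose ix hix using hix
  have hexj : ∀ t : Fin r → W → ZMod 2, (IsoExt e k r t ∧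
      ∀ i, e i ∈ Submodule.span (ZMod 2) (Set.range t)) → ∃ j : Fin r, k ≤ (j : ℕ) ∧ co t j = 1 := by
    intro t ht
    by_contra hno
    push Not at hno
    have h0 : ∀ j : Fin r, k ≤ (j : ℕ) → co t j = 0 := fun j hj =>
      (z2_cases _).resolve_right (hno j hj)
    -- then `e k` is a combination of the earlier ones
    have hnm : e ku ∉ Submodule.span (ZMod 2) (e '' {i | i ≠ ku}) := by
      have := he.notMem_span_image (s := {i | i ≠ ku}) (x := ku) (by simp)
      exact this
    apply hnm
    rw [← hco t ht]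
    refine Submodule.sum_mem _ fun j _ => ?_
    by_cases hj : k ≤ (j : ℕ)
    · rw [h0 j hj, zero_smul]; exact Submodule.zero_mem _
    · refine Submodule.smul_mem _ _ (Submodule.subset_span ?_)
      rw [ht.1.2 j ⟨j, by omega⟩ rfl (by omega)]
      refine ⟨_, ?_, rfl⟩
      simp only [Set.mem_ofPred_eq, ne_eq, Fin.ext_iff, ku]
      omega
  have hle : cnt (fun t : Fin r → W → ZMod 2 => IsoExt e k r t ∧
        ∀ i, e i ∈ Submodule.span (ZMod 2) (Set.range t)) ≤
      cnt (fun p : (Fin r → ZMod 2) × (Fin r → W → ZMod 2) => True ∧ (IsoExt e (k + 1) r p.2 ∧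
        ∀ i, e i ∈ Submodule.span (ZMod 2) (Set.range p.2))) := by
    refine cnt_le_of_inj (fun t => (co t, fun i => Function.update t (ix (co t)) (∑ i, co t i • t i)
      (Equiv.swap (ix (co t)) kr' i))) ?_ ?_
    · intro t ht
      obtain ⟨h1, h2⟩ := hix _ (hexj t ht)
      obtain ⟨h3, h4⟩ := exchange ht.1.1 (co t) (ix (co t)) kr' h2
      refine ⟨trivial, ⟨h3, ?_⟩, ?_⟩
      · intro i j hij hi
        simp only
        rcases Nat.lt_or_ge (i : ℕ) k with hik | hik
        · have h5 : i ≠ ix (co t) := fun h => by rw [h] at hik; omega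
          have h6 : i ≠ kr' := fun h => by rw [h] at hik; simp [kr'] at hik
          rw [Equiv.swap_apply_of_ne_of_ne h5 h6, Function.update_of_ne h5]
          exact ht.1.2 i j hij hik
        · have h6 : i = kr' := by ext; simp only [kr']; omega
          rw [h6, Equiv.swap_apply_right, Function.update_self, hco t ht]
          congr 1
          ext; simp only [ku]; omega
      · intro i
        simp only
        rw [h4]
        exact ht.2 i
    · intro t t' ht ht' h
      rw [Prod.mk.injEq] at h
      obtain ⟨h1, h2⟩ := h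
      rw [h1] at h2
      have h3 : ∀ i, Function.update t (ix (co t')) (∑ i, co t' i • t i) i =
          Function.update t' (ix (co t')) (∑ i, co t' i • t' i) i := by
        intro i
        have := congrFun h2 (Equiv.swap (ix (co t')) kr' i)
        simpa using this
      have h4 : ∀ i, i ≠ ix (co t') → t i = t' i := by
        intro i hi
        have := h3 i
        rwa [Function.update_of_ne hi, Function.update_of_ne hi] at this
      have h5 : t (ix (co t')) = t' (ix (co t')) := by
        have h6 := hco t ht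
        rw [h1] at h6
        have h7 := hco t' ht'
        rw [← h7, ← Finset.add_sum_erase _ _ (Finset.mem_univ (ix (co t'))),
          ← Finset.add_sum_erase _ (fun i => co t' i • t' i) (Finset.mem_univ (ix (co t')))] at h6
        have h8 : ∑ i ∈ univ.erase (ix (co t')), co t' i • t i =
            ∑ i ∈ univ.erase (ix (co t')), co t' i • t' i :=
          Finset.sum_congr rfl fun i hi => by rw [h4 i (Finset.ne_of_mem_erase hi)]
        rw [h8] at h6
        have h9 := add_right_cancel h6
        have h10 := (hix _ (hexj t' ht')).2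
        rwa [h10, one_smul, one_smul] at h9
      funext i
      by_cases hi : i = ix (co t')
      · rw [hi]; exact h5
      · exact h4 i hi
  refine hle.trans ((cnt_prod_le (fun _ : Fin r → ZMod 2 => True)
    (fun _ (t : Fin r → W → ZMod 2) => IsoExt e (k + 1) r t ∧
        ∀ i, e i ∈ Submodule.span (ZMod 2) (Set.range t)) _ (fun _ _ => le_rfl)).trans ?_)
  refine Nat.mul_le_mul_right _ ?_
  rw [cnt_true, Nat.card_eq_fintype_card]
  simp

/-- **Isotropic tuples whose span contains given independent vectors are rare.** -/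
theorem cntContain_le {u : ℕ} (e : Fin u → W → ZMod 2) (he : LinearIndependent (ZMod 2) e) (r : ℕ)
    (hur : u ≤ r) (hr : r ≤ Fintype.card W) :
    cnt (fun t : Fin r → W → ZMod 2 => IsoTuple t ∧
        ∀ i, e i ∈ Submodule.span (ZMod 2) (Set.range t)) *
        2 ^ (Fintype.card W + 1 - r).choose 2 ≤
      2 ^ (r * u) * 2 ^ (Fintype.card W + 1 - u).choose 2 := by
  have key : ∀ k, k ≤ u → cnt (fun t : Fin r → W → ZMod 2 => IsoExt e 0 r t ∧
        ∀ i, e i ∈ Submodule.span (ZMod 2) (Set.range t)) ≤
      2 ^ (r * k) * cnt (fun t : Fin r → W → ZMod 2 => IsoExt e k r t ∧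
        ∀ i, e i ∈ Submodule.span (ZMod 2) (Set.range t)) := by
    intro k
    induction k with
    | zero => intro _; simp
    | succ k ih =>
      intro hk
      refine (ih (by omega)).trans ?_
      calc _ ≤ 2 ^ (r * k) * (2 ^ r * cnt (fun t : Fin r → W → ZMod 2 => IsoExt e (k + 1) r t ∧
            ∀ i, e i ∈ Submodule.span (ZMod 2) (Set.range t))) :=
            Nat.mul_le_mul_left _ (cntContain_step e he r hur k (by omega))
        _ = _ := by rw [mul_add, pow_add, mul_one]; ring
  have h1 : cnt (fun t : Fin r → W → ZMod 2 => IsoTuple t ∧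
        ∀ i, e i ∈ Submodule.span (ZMod 2) (Set.range t)) ≤
      cnt (fun t : Fin r → W → ZMod 2 => IsoExt e 0 r t ∧
        ∀ i, e i ∈ Submodule.span (ZMod 2) (Set.range t)) := by
    refine cnt_mono ?_
    rintro t ⟨h1, h2⟩
    exact ⟨⟨h1, fun i j _ hi => absurd hi (Nat.not_lt_zero _)⟩, h2⟩
  have h2 := key u le_rfl
  have h3 : cnt (fun t : Fin r → W → ZMod 2 => IsoExt e u r t ∧
        ∀ i, e i ∈ Submodule.span (ZMod 2) (Set.range t)) ≤ cnt (IsoExt e u r) :=
    cnt_mono fun t h => h.1
  calc _ ≤ (2 ^ (r * u) * cnt (IsoExt e u r)) * 2 ^ (Fintype.card W + 1 - r).choose 2 := by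
        refine Nat.mul_le_mul_right _ (h1.trans (h2.trans ?_))
        exact Nat.mul_le_mul_left _ h3
    _ = 2 ^ (r * u) * (cnt (IsoExt e u r) * 2 ^ (Fintype.card W + 1 - r).choose 2) := by ring
    _ ≤ _ := Nat.mul_le_mul_left _ (cntExt_le e r hur hr)

end Pool.Agent.Helper185_DS
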