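import Mathlib
import Pool.Agent.Helper185_DS.Contain

/-!
# Graphs with an isotropic Krylov space and consistent values modulo four
-/

set_option autoImplicit false
set_option linter.unusedSectionVars false
set_option linter.unusedSimpArgs false

namespace Pool.Agent.Helper185_DS

open Matrix Finset

lemma cnt_fiber_le2 {α β : Type*} [Finite α] [Finite β] (P : α → Prop) (R : α → β → Prop)
    (T : β → Prop) (D B : ℕ) (h1 : ∀ x, P x → ∃ y, T y ∧ R x y)
    (h2 : ∀ y, T y → cnt (fun x => P x ∧ R x y) * D ≤ B) : cnt P * D ≤ cnt T * B := by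
  classical
  have := Fintype.ofFinite β
  have hle : cnt P ≤ cnt (fun x => ∃ y ∈ univ.filter T, P x ∧ R x y) := by
    refine cnt_mono fun x hx => ?_
    obtain ⟨y, hy, hxy⟩ := h1 x hx
    exact ⟨y, by simp [hy], hx, hxy⟩
  refine (Nat.mul_le_mul_right _ (hle.trans (cnt_exists_le _ _))).trans ?_
  rw [Finset.sum_mul]
  calc _ ≤ ∑ _y ∈ univ.filter T, B := by
        refine Finset.sum_le_sum fun y hy => h2 y ?_
        simpa using hy
    _ = cnt T * B := by rw [Finset.sum_const, smul_eq_mul, cnt_eq]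

theorem cnt_chain_le2 {W : Type*} [Fintype W] (z : W → ZMod 2) (r : ℕ) (P : SimpleGraph W → Prop)
    (S : (Fin r → W → ZMod 2) → Prop) (D B : ℕ)
    (hP : ∀ G, P G → ChainLen (adjM (ZMod 2) G) z r ∧ S (fun i => kr (adjM (ZMod 2) G) z i))
    (hB : ∀ t c, LinearIndependent (ZMod 2) t → S t →
      cnt (fun G => P G ∧ (fun i : Fin r => kr (adjM (ZMod 2) G) z i) = t ∧
        ∀ i, adjM (ZMod 2) G *ᵥ t i = nextT t c i) * D ≤ B) :
    cnt P * D ≤ cnt (fun t => LinearIndependent (ZMod 2) t ∧ S t) * 2 ^ r * B := by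
  classical
  have h1 := cnt_fiber_le2 P (fun G (y : (Fin r → W → ZMod 2) × (Fin r → ZMod 2)) =>
      (fun i : Fin r => kr (adjM (ZMod 2) G) z i) = y.1 ∧
        ∀ i, adjM (ZMod 2) G *ᵥ y.1 i = nextT y.1 y.2 i)
    (fun y => (LinearIndependent (ZMod 2) y.1 ∧ S y.1) ∧ True) D B ?_ ?_
  · refine h1.trans (Nat.mul_le_mul_right _ ?_)
    refine cnt_prod_le (fun t => LinearIndependent (ZMod 2) t ∧ S t)
      (fun (_ : Fin r → W → ZMod 2) (_ : Fin r → ZMod 2) => True) (2 ^ r) fun t _ => ?_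
    rw [cnt_true, Nat.card_eq_fintype_card]
    simp
  · intro G hG
    obtain ⟨h2, h3⟩ := hP G hG
    obtain ⟨c, hc⟩ := h2.exists_next
    exact ⟨(fun i => kr (adjM (ZMod 2) G) z i, c), ⟨⟨h2.1, h3⟩, trivial⟩, rfl, hc⟩
  · rintro ⟨t, c⟩ ⟨⟨h2, h3⟩, _⟩
    exact hB t c h2 h3

variable {W : Type*} [Fintype W]

/-- Half of the weight, modulo two. -/
def om (v : W → ZMod 2) : ZMod 2 := (((∑ i, (v i).val) / 2 : ℕ) : ZMod 2)

/-- The Krylov space is totally isotropic. -/
def IsoK (A : Matrix W W (ZMod 2)) (z : W → ZMod 2) : Prop := ∀ k, z ⬝ᵥ kr A z k = 0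

lemma isoZ_of_isoK {G : SimpleGraph W} {z : W → ZMod 2} {r : ℕ}
    (h1 : ChainLen (adjM (ZMod 2) G) z r) (h2 : IsoK (adjM (ZMod 2) G) z) :
    IsoZ z r (fun i => kr (adjM (ZMod 2) G) z i) := by
  refine ⟨⟨h1.1, fun i j => ?_⟩, fun i hi => ?_⟩
  · rw [dot_kr _ (adjM_transpose G)]; exact h2 _
  · simp only [hi, kr_zero]

/-- The number of graphs for which `z` has an isotropic Krylov space of dimension `r`. -/
theorem cnt_isoK (z : W → ZMod 2) (r : ℕ) (P : SimpleGraph W → Prop)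
    (hP : ∀ G, P G → ChainLen (adjM (ZMod 2) G) z r ∧ IsoK (adjM (ZMod 2) G) z) :
    cnt P ≤ cnt (IsoZ z r) * 2 ^ r * 2 ^ (Fintype.card W - r).choose 2 := by
  refine (cnt_chain_le z r P (IsoZ z r) (2 ^ (Fintype.card W - r).choose 2) ?_ ?_).trans ?_
  · intro G hG
    exact ⟨(hP G hG).1, isoZ_of_isoK (hP G hG).1 (hP G hG).2⟩
  · intro t c ht _
    refine le_trans (cnt_mono ?_) (card_prescribed t ht (nextT t c))
    rintro G ⟨_, _, h⟩
    exact h
  · have : cnt (fun t => LinearIndependent (ZMod 2) t ∧ IsoZ z r t) ≤ cnt (IsoZ z r) :=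
      cnt_mono fun t h => h.2
    gcongr

variable [LinearOrder W]

/-- The mod 4 conditions on the second vector. -/
def ConsB (A : Matrix W W (ZMod 2)) (z b : W → ZMod 2) : Prop :=
  ∀ j, kr A z (2 * j) ⬝ᵥ b = om (kr A z j) ∧ kr A z (2 * j + 1) ⬝ᵥ b = qf A (kr A z j)

/-- Two matrices with the same values on a tuple have the same Krylov sequence. -/
lemma kr_eq_of_next {A A' : Matrix W W (ZMod 2)} {z : W → ZMod 2} {r : ℕ}
    {t : Fin r → W → ZMod 2} (h1 : ChainLen A z r) (ht : (fun i : Fin r => kr A z i) = t)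
    (hA : ∀ i, A *ᵥ t i = A' *ᵥ t i) (k : ℕ) : kr A z k = kr A' z k := by
  induction k with
  | zero => rfl
  | succ k ih =>
    rw [kr_succ, kr_succ, ← ih]
    have h2 := h1.kr_mem k
    rw [ht, Submodule.mem_span_range_iff_exists_fun] at h2
    obtain ⟨c, hc⟩ := h2
    rw [← hc, Matrix.mulVec_sum, Matrix.mulVec_sum]
    exact Finset.sum_congr rfl fun i _ => by rw [Matrix.mulVec_smul, Matrix.mulVec_smul, hA]

/-- The number of functions prescribed at the even places. -/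
lemma cnt_even_le {r : ℕ} (w : Fin r → ZMod 2) :
    cnt (fun al : Fin r → ZMod 2 => ∀ (i j : Fin r), (i : ℕ) = 2 * (j : ℕ) → al i = w j) ≤
      2 ^ (r / 2) := by
  classical
  have h1 : cnt (fun al : Fin r → ZMod 2 => ∀ (i j : Fin r), (i : ℕ) = 2 * (j : ℕ) → al i = w j) ≤
      cnt (fun _ : Fin (r / 2) → ZMod 2 => True) := by
    refine cnt_le_of_inj (fun al => fun i : Fin (r / 2) => al ⟨2 * i + 1, by omega⟩)
      (fun _ _ => trivial) ?_
    intro al al' h h' he
    funext i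
    rcases Nat.even_or_odd (i : ℕ) with hi | hi
    · obtain ⟨k, hk⟩ := hi
      rw [h i ⟨k, by omega⟩ (by simp only; omega), h' i ⟨k, by omega⟩ (by simp only; omega)]
    · obtain ⟨k, hk⟩ := hi
      have := congrFun he ⟨k, by omega⟩
      simp only at this
      have e : (⟨2 * k + 1, by omega⟩ : Fin r) = i := by ext; simp only; omega
      rw [e] at this
      exact this
  refine h1.trans (le_of_eq ?_)
  rw [cnt_true, Nat.card_eq_fintype_card, Fintype.card_fun, ZMod.card, Fintype.card_fin]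

/-- **Consistency is rare.** -/
theorem cnt_cons_good (z : W → ZMod 2) (r s : ℕ) :
    cnt (fun G : SimpleGraph W => ChainLen (adjM (ZMod 2) G) z r ∧ IsoK (adjM (ZMod 2) G) z ∧
      (∃ b, ConsB (adjM (ZMod 2) G) z b) ∧
      cnt (fun c : Fin r → ZMod 2 => KZ (fun i : Fin r => kr (adjM (ZMod 2) G) z i)
        (∑ j, c j • kr (adjM (ZMod 2) G) z j)) ≤ 2 ^ s) * 2 ^ r ≤
    cnt (IsoZ z r) * 2 ^ r * (2 ^ (r / 2) * (2 ^ (Fintype.card W - r).choose 2 * 2 ^ s)) := by
  classical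
  have h1 : cnt (fun t => LinearIndependent (ZMod 2) t ∧ IsoZ z r t) ≤ cnt (IsoZ z r) :=
    cnt_mono fun t h => h.2
  refine (cnt_chain_le2 z r _ (IsoZ z r) (2 ^ r)
    (2 ^ (r / 2) * (2 ^ (Fintype.card W - r).choose 2 * 2 ^ s)) ?_ ?_).trans ?_
  · rintro G ⟨hG1, hG2, _, _⟩
    exact ⟨hG1, isoZ_of_isoK hG1 hG2⟩
  · intro t c ht _
    -- through the values of `b` on the tuple
    have h2 := cnt_fiber_le2 (fun G : SimpleGraph W => (ChainLen (adjM (ZMod 2) G) z r ∧
        IsoK (adjM (ZMod 2) G) z ∧ (∃ b, ConsB (adjM (ZMod 2) G) z b) ∧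
        cnt (fun c : Fin r → ZMod 2 => KZ (fun i : Fin r => kr (adjM (ZMod 2) G) z i)
          (∑ j, c j • kr (adjM (ZMod 2) G) z j)) ≤ 2 ^ s) ∧
        (fun i : Fin r => kr (adjM (ZMod 2) G) z i) = t ∧
        ∀ i, adjM (ZMod 2) G *ᵥ t i = nextT t c i)
      (fun G (al : Fin r → ZMod 2) => ∃ b, ConsB (adjM (ZMod 2) G) z b ∧ ∀ i, t i ⬝ᵥ b = al i)
      (fun al => ∀ (i j : Fin r), (i : ℕ) = 2 * (j : ℕ) → al i = om (t j)) (2 ^ r)
      (2 ^ (Fintype.card W - r).choose 2 * 2 ^ s) ?_ ?_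
    · exact h2.trans (Nat.mul_le_mul_right _ (cnt_even_le fun j => om (t j)))
    · rintro G ⟨⟨_, _, ⟨b, hb⟩, _⟩, hG2, _⟩
      refine ⟨fun i => t i ⬝ᵥ b, ?_, b, hb, fun i => rfl⟩
      intro i j hij
      have h3 := (hb j).1
      rw [← hij] at h3
      have h4 : kr (adjM (ZMod 2) G) z i = t i := congrFun hG2 i
      have h5 : kr (adjM (ZMod 2) G) z j = t j := congrFun hG2 j
      rw [h4, h5] at h3
      exact h3
    · intro al _
      by_cases hex : ∃ G : SimpleGraph W, ((ChainLen (adjM (ZMod 2) G) z r ∧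
        IsoK (adjM (ZMod 2) G) z ∧ (∃ b, ConsB (adjM (ZMod 2) G) z b) ∧
        cnt (fun c : Fin r → ZMod 2 => KZ (fun i : Fin r => kr (adjM (ZMod 2) G) z i)
          (∑ j, c j • kr (adjM (ZMod 2) G) z j)) ≤ 2 ^ s) ∧
        (fun i : Fin r => kr (adjM (ZMod 2) G) z i) = t ∧
        ∀ i, adjM (ZMod 2) G *ᵥ t i = nextT t c i) ∧
        ∃ b, ConsB (adjM (ZMod 2) G) z b ∧ ∀ i, t i ⬝ᵥ b = al i
      · obtain ⟨G₁, ⟨⟨hc1, hi1, _, hk1⟩, ht1, hn1⟩, b₁, hb1, hal1⟩ := hex
        have h3 := cnt_qf_le t (nextT t c) (fun j => qf (adjM (ZMod 2) G₁) (t j))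
        have h4 : cnt (fun c : Fin r → ZMod 2 => KZ t (∑ j, c j • t j)) ≤ 2 ^ s := by
          rw [← ht1]; exact hk1
        refine le_trans (Nat.mul_le_mul_right _ (cnt_mono ?_)) (h3.trans
          (Nat.mul_le_mul (card_prescribed t ht _) h4))
        rintro G ⟨⟨⟨hc2, hi2, _, _⟩, ht2, hn2⟩, b₂, hb2, hal2⟩
        refine ⟨hn2, fun j => ?_⟩
        have e1 : ∀ k, kr (adjM (ZMod 2) G) z k = kr (adjM (ZMod 2) G₁) z k :=
          kr_eq_of_next hc2 ht2 fun i => (hn2 i).trans (hn1 i).symm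
        have e2 := (hb2 j).2
        have e3 := (hb1 j).2
        have e4 : kr (adjM (ZMod 2) G) z j = t j := congrFun ht2 j
        have e5 : kr (adjM (ZMod 2) G₁) z j = t j := congrFun ht1 j
        rw [e4] at e2
        rw [e5] at e3
        rw [← e2, ← e3, e1]
        have h6 := hc1.kr_mem (2 * j + 1)
        rw [ht1, Submodule.mem_span_range_iff_exists_fun] at h6
        obtain ⟨d, hd⟩ := h6
        rw [← hd, sum_dotProduct, sum_dotProduct]
        refine Finset.sum_congr rfl fun i _ => ?_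
        rw [smul_dotProduct, smul_dotProduct, hal1, hal2]
      · rw [cnt_eq_zero, zero_mul]
        · exact Nat.zero_le _
        · intro G hG
          exact hex ⟨G, hG⟩
  · gcongr

/-- **Tuples with a large obstruction space are rare.** -/
theorem cnt_bad_tuple (r s : ℕ) (hs : s + 1 ≤ r) (hr : r ≤ Fintype.card W) :
    cnt (fun t : Fin r → W → ZMod 2 => IsoTuple t ∧
      2 ^ s < cnt (fun c : Fin r → ZMod 2 => KZ t (∑ j, c j • t j))) *
        2 ^ (Fintype.card W + 1 - r).choose 2 ≤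
    (Fintype.card W + 1) ^ Fintype.card W *
      (2 ^ (r * (s + 1)) * 2 ^ (Fintype.card W + 1 - (s + 1)).choose 2) := by
  classical
  refine (cnt_fiber_le2 (fun t : Fin r → W → ZMod 2 => IsoTuple t ∧
      2 ^ s < cnt (fun c : Fin r → ZMod 2 => KZ t (∑ j, c j • t j)))
    (fun t (U : Submodule (ZMod 2) (W → ZMod 2)) => obsSpace t = U)
    (fun U => MulClosed U ∧ s + 1 ≤ Module.finrank (ZMod 2) U)
    (2 ^ (Fintype.card W + 1 - r).choose 2)
    (2 ^ (r * (s + 1)) * 2 ^ (Fintype.card W + 1 - (s + 1)).choose 2) ?_ ?_).trans ?_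
  · rintro t ⟨ht, hcnt⟩
    refine ⟨obsSpace t, ⟨mulClosed_obsSpace ht, ?_⟩, rfl⟩
    by_contra hlt
    push Not at hlt
    have h1 : cnt (fun c : Fin r → ZMod 2 => KZ t (∑ j, c j • t j)) ≤
        cnt (fun u : W → ZMod 2 => u ∈ obsSpace t) := by
      refine cnt_le_of_inj (fun c => ∑ j, c j • t j) ?_ ?_
      · intro c hc
        refine ⟨Submodule.sum_mem _ fun i _ => Submodule.smul_mem _ _
          (Submodule.subset_span ⟨i, rfl⟩), hc⟩
      · intro c c' _ _ h
        have h2 := Fintype.linearIndependent_iff.1 ht.1 (fun i => c i - c' i) (by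
          simp only [sub_smul, Finset.sum_sub_distrib]
          rw [sub_eq_zero]; exact h)
        funext i
        exact sub_eq_zero.1 (h2 i)
    have h2 : cnt (fun u : W → ZMod 2 => u ∈ obsSpace t) =
        2 ^ Module.finrank (ZMod 2) (obsSpace t) := by
      rw [cnt]
      have hfact : Fact (Nat.Prime 2) := ⟨Nat.prime_two⟩
      have : Nat.card {u // u ∈ obsSpace t} = Nat.card (obsSpace t) := rfl
      rw [this, Nat.card_eq_fintype_card, Module.card_eq_pow_finrank (K := ZMod 2), ZMod.card]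
    have h3 : 2 ^ Module.finrank (ZMod 2) (obsSpace t) ≤ 2 ^ s :=
      Nat.pow_le_pow_right (by norm_num) (by omega)
    omega
  · rintro U ⟨hU1, hU2⟩
    -- independent vectors in `U`
    obtain ⟨f, hf⟩ : ∃ f : Fin (s + 1) → U, LinearIndependent (ZMod 2) f := by
      have h1 := Module.finBasis (ZMod 2) U
      exact ⟨fun i => h1 (Fin.castLE hU2 i),
        h1.linearIndependent.comp _ (Fin.castLE_injective hU2)⟩
    have hf2 : LinearIndependent (ZMod 2) (fun i => (f i : W → ZMod 2)) :=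
      hf.map' U.subtype (Submodule.ker_subtype U)
    refine le_trans (Nat.mul_le_mul_right _ (cnt_mono ?_)) (cntContain_le _ hf2 r hs hr)
    rintro t ⟨⟨h1, _⟩, h2⟩
    refine ⟨h1, fun i => ?_⟩
    have h3 : (f i : W → ZMod 2) ∈ obsSpace t := by rw [h2]; exact (f i).2
    exact h3.1
  · refine Nat.mul_le_mul_right _ (le_trans (cnt_mono ?_) cnt_mulClosed)
    intro U h
    exact h.1

end Pool.Agent.Helper185_DS
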