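import Mathlib
import Pool.Agent.Helper185_DS.Cons

/-!
# Equality of integral moments and its consequences modulo four
-/

set_option autoImplicit false
set_option linter.unusedSectionVars false
set_option linter.unusedSimpArgs false

namespace Pool.Agent.Helper185_DS

open Matrix Finset

variable {W : Type*} [Fintype W]

/-- The lift with values 0 and 1. -/
def lf (b : W → ZMod 2) : W → ℤ := fun i => ((b i).val : ℤ)

/-- Reduction modulo two. -/
def md (w : W → ℤ) : W → ZMod 2 := fun i => (w i : ZMod 2)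

lemma md_lf (b : W → ZMod 2) : md (lf b) = b := by
  ext i
  simp [md, lf]

lemma md_add (u v : W → ℤ) : md (u + v) = md u + md v := by ext i; simp [md]

lemma md_sub (u v : W → ℤ) : md (u - v) = md u - md v := by ext i; simp [md]

lemma md_dot (u v : W → ℤ) : ((u ⬝ᵥ v : ℤ) : ZMod 2) = md u ⬝ᵥ md v := by
  simp [dotProduct, md]

lemma adjM_cast (G : SimpleGraph W) (a b : W) :
    ((adjM ℤ G a b : ℤ) : ZMod 2) = adjM (ZMod 2) G a b := by
  simp only [adjM_apply]
  split_ifs <;> simp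

lemma md_mulVec (G : SimpleGraph W) (w : W → ℤ) :
    md (adjM ℤ G *ᵥ w) = adjM (ZMod 2) G *ᵥ md w := by
  ext i
  simp only [md, Matrix.mulVec, dotProduct, Int.cast_sum, Int.cast_mul, adjM_cast]

lemma md_kr (G : SimpleGraph W) (w : W → ℤ) (k : ℕ) :
    md (kr (adjM ℤ G) w k) = kr (adjM (ZMod 2) G) (md w) k := by
  induction k with
  | zero => rfl
  | succ k ih => rw [kr_succ, kr_succ, md_mulVec, ih]

/-- Equality of the integral moments of two 0/1 vectors. -/
def IC (G : SimpleGraph W) (z b : W → ZMod 2) : Prop :=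
  ∀ k, lf (b + z) ⬝ᵥ kr (adjM ℤ G) (lf (b + z)) k = lf b ⬝ᵥ kr (adjM ℤ G) (lf b) k

lemma IC.eq (G : SimpleGraph W) {z b : W → ZMod 2} (h : IC G z b) (k : ℕ) :
    (lf (b + z) - lf b) ⬝ᵥ kr (adjM ℤ G) (lf (b + z) - lf b) k =
      - 2 * ((lf (b + z) - lf b) ⬝ᵥ kr (adjM ℤ G) (lf b) k) := by
  have h1 := h k
  have h2 : lf (b + z) = lf b + (lf (b + z) - lf b) := by abel
  rw [h2] at h1
  set x := lf (b + z) - lf b with hx
  rw [kr_add, add_dotProduct, dotProduct_add, dotProduct_add] at h1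
  have h3 : lf b ⬝ᵥ kr (adjM ℤ G) x k = x ⬝ᵥ kr (adjM ℤ G) (lf b) k := by
    have h4 := dot_kr _ (adjM_transpose (K := ℤ) G) x (lf b) k 0
    rw [kr_zero, add_zero] at h4
    rw [dotProduct_comm, h4]
  rw [h3] at h1
  linarith

lemma md_diff (z b : W → ZMod 2) : md (lf (b + z) - lf b) = z := by
  rw [md_sub, md_lf, md_lf]; abel

lemma IC.isoK {G : SimpleGraph W} {z b : W → ZMod 2} (h : IC G z b) :
    IsoK (adjM (ZMod 2) G) z := by
  intro k
  have h1 := congrArg (fun n : ℤ => (n : ZMod 2)) (h.eq G k)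
  simp only [md_dot, md_kr, md_diff, Int.cast_mul] at h1
  rw [h1]
  have : ((-2 : ℤ) : ZMod 2) = 0 := by decide
  rw [this, zero_mul]

lemma sq_mod_four (w : ℤ) : ∃ q : ℤ, w * w = (((w : ZMod 2)).val : ℤ) + 4 * q := by
  rcases Int.even_or_odd w with h | h
  · obtain ⟨k, hk⟩ := h
    refine ⟨k * k, ?_⟩
    have : (w : ZMod 2) = 0 := by
      rw [hk]; push_cast
      generalize (k : ZMod 2) = x; revert x; decide
    rw [this, ZMod.val_zero, hk]; push_cast; ring
  · obtain ⟨k, hk⟩ := h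
    refine ⟨k * k + k, ?_⟩
    have : (w : ZMod 2) = 1 := by
      rw [hk]; push_cast
      generalize (k : ZMod 2) = x; revert x; decide
    rw [this]
    have h1 : ((1 : ZMod 2).val : ℤ) = 1 := by decide
    rw [h1, hk]; ring

lemma sum_sq_mod_four (w : W → ℤ) : ∃ q : ℤ, w ⬝ᵥ w = ((∑ i, (md w i).val : ℕ) : ℤ) + 4 * q := by
  choose q hq using fun i => sq_mod_four (w i)
  refine ⟨∑ i, q i, ?_⟩
  rw [dotProduct, Finset.mul_sum]
  push_cast
  rw [← Finset.sum_add_distrib]
  exact Finset.sum_congr rfl fun i _ => hq i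

variable [LinearOrder W]

lemma md_qf (G : SimpleGraph W) (w : W → ℤ) :
    ((qf (adjM ℤ G) w : ℤ) : ZMod 2) = qf (adjM (ZMod 2) G) (md w) := by
  simp only [qf, Int.cast_sum]
  refine Finset.sum_congr rfl fun i _ => Finset.sum_congr rfl fun l _ => ?_
  split_ifs
  · simp only [Int.cast_mul, adjM_cast, md]
  · simp

/-- **The mod 4 conditions.** -/
theorem IC.consB {G : SimpleGraph W} {z b : W → ZMod 2} (h : IC G z b) :
    ConsB (adjM (ZMod 2) G) z b := by
  set x := lf (b + z) - lf b with hx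
  have hxz : md x = z := md_diff z b
  have hcast : ∀ k, ((x ⬝ᵥ kr (adjM ℤ G) (lf b) k : ℤ) : ZMod 2) = kr (adjM (ZMod 2) G) z k ⬝ᵥ b := by
    intro k
    have h4 := dot_kr _ (adjM_transpose (K := ℤ) G) x (lf b) k 0
    rw [kr_zero, add_zero] at h4
    rw [← h4, md_dot, md_kr, hxz, md_lf]
  intro j
  constructor
  · -- even moments
    have h1 := h.eq G (2 * j)
    rw [← hx, two_mul, ← dot_kr _ (adjM_transpose (K := ℤ) G) x x j j] at h1
    obtain ⟨q, hq⟩ := sum_sq_mod_four (kr (adjM ℤ G) x j)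
    rw [hq, md_kr, hxz] at h1
    set S : ℕ := ∑ i, (kr (adjM (ZMod 2) G) z j i).val with hS
    set p := x ⬝ᵥ kr (adjM ℤ G) (lf b) (j + j) with hp
    have h2 : ((S / 2 : ℕ) : ℤ) = -p - 2 * q := by omega
    have h3 : om (kr (adjM (ZMod 2) G) z j) = ((S / 2 : ℕ) : ZMod 2) := rfl
    rw [two_mul, ← hcast (j + j), ← hp, h3]
    have h4 : ((S / 2 : ℕ) : ZMod 2) = (((S / 2 : ℕ) : ℤ) : ZMod 2) := by push_cast; rfl
    rw [h4, h2]
    push_cast
    generalize (p : ZMod 2) = y
    generalize (q : ZMod 2) = y'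
    revert y y'; decide
  · -- odd moments
    have h1 := h.eq G (2 * j + 1)
    have e : 2 * j + 1 = j + (j + 1) := by ring
    rw [← hx, e, ← dot_kr _ (adjM_transpose (K := ℤ) G) x x j (j + 1), kr_succ,
      dot_eq_two_qf (adjM_symm G) (adjM_diag G)] at h1
    have h2 : qf (adjM ℤ G) (kr (adjM ℤ G) x j) = - (x ⬝ᵥ kr (adjM ℤ G) (lf b) (j + (j + 1))) := by
      linarith
    have h3 := congrArg (fun n : ℤ => (n : ZMod 2)) h2
    simp only [md_qf, md_kr, hxz, Int.cast_neg, hcast] at h3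
    rw [e, h3]
    generalize kr (adjM (ZMod 2) G) z (j + (j + 1)) ⬝ᵥ b = y
    revert y; decide

/-- The number of second vectors. -/
theorem cnt_consB_le {A : Matrix W W (ZMod 2)} {z : W → ZMod 2} {r : ℕ} (hr : ChainLen A z r) :
    cnt (fun b : W → ZMod 2 => ConsB A z b) ≤ 2 ^ (Fintype.card W - r) := by
  classical
  refine le_trans (cnt_mono ?_) (cnt_affine _ hr.1
    (fun i => if Even (i : ℕ) then om (kr A z ((i : ℕ) / 2)) else qf A (kr A z ((i : ℕ) / 2))))
  intro b hb i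
  have h1 := hb ((i : ℕ) / 2)
  rcases Nat.even_or_odd (i : ℕ) with hi | hi
  · rw [if_pos hi, ← h1.1]
    congr 2
    exact (Nat.two_mul_div_two_of_even hi).symm
  · rw [if_neg (Nat.not_even_iff_odd.2 hi), ← h1.2]
    congr 2
    exact (Nat.two_mul_div_two_add_one_of_odd hi).symm

end Pool.Agent.Helper185_DS
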