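import Mathlib
import Pool.Agent.Helper185_DS.Mod4

/-!
# Off-diagonal blocks of most graphs have small nullity
-/

set_option autoImplicit false
set_option linter.unusedSectionVars false
set_option linter.unusedSimpArgs false

namespace Pool.Agent.Helper185_DS

open Matrix Finset

/-- Counting functions with values in a set. -/
lemma cnt_pi {I E : Type*} [Fintype I] [Finite E] (P : E → Prop) :
    cnt (fun M : I → E => ∀ i, P (M i)) = cnt P ^ Fintype.card I := by
  classical
  have := Fintype.ofFinite E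
  rw [cnt_eq, cnt_eq]
  have : (univ.filter fun M : I → E => ∀ i, P (M i)) = Fintype.piFinset fun _ : I => univ.filter P := by
    ext M
    simp [Fintype.mem_piFinset]
  rw [this, Fintype.card_piFinset, Finset.prod_const, Finset.card_univ]

variable {W : Type*} [Fintype W] [DecidableEq W]

/-- Vectors supported off `Z` whose image vanishes on `Z`. -/
def NZ (A : Matrix W W (ZMod 2)) (Z : Finset W) : Submodule (ZMod 2) (W → ZMod 2) where
  carrier := {x | (∀ i ∈ Z, x i = 0) ∧ ∀ i ∈ Z, (A *ᵥ x) i = 0}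
  add_mem' := by
    rintro x y ⟨h1, h2⟩ ⟨h3, h4⟩
    refine ⟨fun i hi => ?_, fun i hi => ?_⟩
    · rw [Pi.add_apply, h1 i hi, h3 i hi, add_zero]
    · rw [Matrix.mulVec_add, Pi.add_apply, h2 i hi, h4 i hi, add_zero]
  zero_mem' := ⟨fun _ _ => rfl, fun i _ => by rw [Matrix.mulVec_zero]; rfl⟩
  smul_mem' := by
    rintro c x ⟨h1, h2⟩
    refine ⟨fun i hi => ?_, fun i hi => ?_⟩
    · rw [Pi.smul_apply, h1 i hi, smul_zero]
    · rw [Matrix.mulVec_smul, Pi.smul_apply, h2 i hi, smul_zero]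

lemma mem_NZ {A : Matrix W W (ZMod 2)} {Z : Finset W} {x : W → ZMod 2} :
    x ∈ NZ A Z ↔ (∀ i ∈ Z, x i = 0) ∧ ∀ i ∈ Z, (A *ᵥ x) i = 0 := Iff.rfl

/-- The number of graphs with a given off-diagonal kernel. -/
lemma cnt_kernel (Z : Finset W) {k : ℕ} (w : Fin k → W → ZMod 2)
    (hw : LinearIndependent (ZMod 2) w) (hwZ : ∀ i, ∀ j ∈ Z, w i j = 0) :
    cnt (fun G : SimpleGraph W => ∀ i, ∀ j ∈ Z, (adjM (ZMod 2) G *ᵥ w i) j = 0) *
      2 ^ (Z.card * k) ≤ 2 ^ (Fintype.card W).choose 2 := by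
  classical
  let U := {v // v ∉ Z}
  let V := {v // v ∈ Z}
  have hcU : Fintype.card U = Fintype.card W - Z.card := by
    have h0 : Fintype.card {v // v ∉ Z} = Fintype.card W - Z.card := by
      rw [Fintype.card_subtype, Finset.filter_not,
        Finset.card_sdiff_of_subset (Finset.filter_subset _ _), Finset.card_univ]
      congr 2
      ext v; simp
    exact h0
  have hcV : Fintype.card V = Z.card := Fintype.card_coe Z
  have hle : Z.card ≤ Fintype.card W := Finset.card_le_univ _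
  let w' : Fin k → U → ZMod 2 := fun i u => w i u.1
  have hw' : LinearIndependent (ZMod 2) w' := by
    rw [Fintype.linearIndependent_iff] at hw ⊢
    intro c hc
    apply hw c
    ext v
    by_cases hv : v ∈ Z
    · simp only [Finset.sum_apply, Pi.smul_apply, smul_eq_mul, Pi.zero_apply]
      exact Finset.sum_eq_zero fun i _ => by rw [hwZ i v hv, mul_zero]
    · have := congrFun hc ⟨v, hv⟩
      simpa [w', Finset.sum_apply] using this
  have hk : k ≤ Fintype.card U := by
    have := hw'.fintype_card_le_finrank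
    rwa [Fintype.card_fin, Module.finrank_fintype_fun_eq_card] at this
  have h1 : cnt (fun G : SimpleGraph W => ∀ i, ∀ j ∈ Z, (adjM (ZMod 2) G *ᵥ w i) j = 0) ≤
      cnt (fun q : SimpleGraph V × (SimpleGraph U × (V → U → ZMod 2)) =>
        True ∧ (True ∧ ∀ j, ∀ i, w' i ⬝ᵥ q.2.2 j = 0)) := by
    refine cnt_le_of_inj (fun G => (G.comap Subtype.val, (G.comap Subtype.val,
      fun u w => adjM (ZMod 2) G u.1 w.1))) ?_ ?_
    · intro G hG
      refine ⟨trivial, trivial, fun j i => ?_⟩
      have h2 := hG i j.1 j.2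
      rw [← h2]
      simp only [dotProduct, Matrix.mulVec, w']
      rw [← Fintype.sum_subtype_add_sum_subtype (fun v => v ∉ Z)
        (fun x => adjM (ZMod 2) G j.1 x * w i x)]
      have h3 : ∑ x : {v // ¬ v ∉ Z}, adjM (ZMod 2) G j.1 x.1 * w i x.1 = 0 := by
        refine Finset.sum_eq_zero fun x _ => ?_
        rw [hwZ i x.1 (by have := x.2; push Not at this; exact this), mul_zero]
      rw [h3, add_zero]
      exact Finset.sum_congr rfl fun x _ => mul_comm _ _
    · intro G G' _ _ h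
      rw [Prod.mk.injEq, Prod.mk.injEq] at h
      obtain ⟨hu, hw, hm⟩ := h
      ext a b
      by_cases ha : a ∈ Z <;> by_cases hb : b ∈ Z
      · have : (G.comap (Subtype.val : V → W)).Adj ⟨a, ha⟩ ⟨b, hb⟩ ↔
            (G'.comap (Subtype.val : V → W)).Adj ⟨a, ha⟩ ⟨b, hb⟩ := by rw [hu]
        simpa using this
      · have := congrFun (congrFun hm ⟨a, ha⟩) ⟨b, hb⟩
        simp only [adjM_apply] at this
        by_cases h1 : G.Adj a b <;> by_cases h2 : G'.Adj a b <;> simp_all
      · have := congrFun (congrFun hm ⟨b, hb⟩) ⟨a, ha⟩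
        simp only [adjM_apply] at this
        rw [G.adj_comm, G'.adj_comm]
        by_cases h1 : G.Adj b a <;> by_cases h2 : G'.Adj b a <;> simp_all
      · have : (G.comap (Subtype.val : U → W)).Adj ⟨a, ha⟩ ⟨b, hb⟩ ↔
            (G'.comap (Subtype.val : U → W)).Adj ⟨a, ha⟩ ⟨b, hb⟩ := by rw [hw]
        simpa using this
  have h2 : cnt (fun q : SimpleGraph V × (SimpleGraph U × (V → U → ZMod 2)) =>
        True ∧ (True ∧ ∀ j, ∀ i, w' i ⬝ᵥ q.2.2 j = 0)) ≤
      2 ^ (Z.card).choose 2 * (2 ^ (Fintype.card U).choose 2 * (2 ^ (Fintype.card U - k)) ^ Z.card) := by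
    refine (cnt_prod_le (fun _ : SimpleGraph V => True)
      (fun _ (q : SimpleGraph U × (V → U → ZMod 2)) => True ∧ ∀ j, ∀ i, w' i ⬝ᵥ q.2 j = 0)
      (2 ^ (Fintype.card U).choose 2 * (2 ^ (Fintype.card U - k)) ^ Z.card) fun _ _ => ?_).trans ?_
    · refine (cnt_prod_le (fun _ : SimpleGraph U => True)
        (fun _ (M : V → U → ZMod 2) => ∀ j, ∀ i, w' i ⬝ᵥ M j = 0)
        ((2 ^ (Fintype.card U - k)) ^ Z.card) fun _ _ => ?_).trans ?_
      · rw [cnt_pi (fun x : U → ZMod 2 => ∀ i, w' i ⬝ᵥ x = 0), card_orth w' hw', hcV]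
      · rw [cnt_true, natCard_graph, Nat.card_eq_fintype_card]
    · rw [cnt_true, natCard_graph, Nat.card_eq_fintype_card, hcV]
  have h3 := Nat.mul_le_mul_right (2 ^ (Z.card * k)) (h1.trans h2)
  refine h3.trans (le_of_eq ?_)
  rw [← pow_mul, ← pow_add, ← pow_add, ← pow_add]
  congr 1
  have h4 : Fintype.card W = Fintype.card U + Z.card := by omega
  rw [h4, choose_two_add]
  have h5 : Fintype.card U = (Fintype.card U - k) + k := by omega
  have h6 : (Fintype.card U - k) * Z.card + Z.card * k = Z.card * Fintype.card U := by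
    conv_rhs => rw [h5]
    ring
  rw [← h6]; ring

/-- **Nullity of an off-diagonal block.** -/
theorem cnt_nullity (Z : Finset W) (hZ : Fintype.card W ≤ 2 * Z.card) (k : ℕ) :
    cnt (fun G : SimpleGraph W => 2 * k ≤ Module.finrank (ZMod 2) (NZ (adjM (ZMod 2) G) Z)) *
      2 ^ (k * (2 * k - 1)) ≤ 2 ^ (Fintype.card W).choose 2 := by
  classical
  have hfact : Fact (Nat.Prime 2) := ⟨Nat.prime_two⟩
  have hle : Z.card ≤ Fintype.card W := Finset.card_le_univ _
  -- many independent tuples in a large kernel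
  have h1 : ∀ G : SimpleGraph W, 2 * k ≤ Module.finrank (ZMod 2) (NZ (adjM (ZMod 2) G) Z) →
      2 ^ (k * (2 * k - 1)) ≤ cnt (fun w : Fin k → W → ZMod 2 =>
        LinearIndependent (ZMod 2) w ∧ ∀ i, w i ∈ NZ (adjM (ZMod 2) G) Z) := by
    intro G hG
    set N := NZ (adjM (ZMod 2) G) Z
    have h2 := card_linearIndependent (K := ZMod 2) (V := N) (k := k) (by omega)
    have h3 : Nat.card {s : Fin k → N // LinearIndependent (ZMod 2) s} ≤
        cnt (fun w : Fin k → W → ZMod 2 => LinearIndependent (ZMod 2) w ∧ ∀ i, w i ∈ N) := by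
      refine Nat.card_le_card_of_injective (fun s => ⟨fun i => (s.1 i : W → ZMod 2), ?_, ?_⟩) ?_
      · exact s.2.map' N.subtype (Submodule.ker_subtype N)
      · intro i; exact (s.1 i).2
      · intro s s' h
        apply Subtype.ext
        funext i
        apply Subtype.ext
        exact congrFun (congrArg Subtype.val h) i
    refine le_trans ?_ h3
    rw [h2, ZMod.card]
    calc 2 ^ (k * (2 * k - 1)) = ∏ _i : Fin k, 2 ^ (2 * k - 1) := by
          rw [Finset.prod_const, Finset.card_univ, Fintype.card_fin, ← pow_mul, mul_comm]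
      _ ≤ _ := by
          refine Finset.prod_le_prod' fun i _ => ?_
          have hd := hG
          set d := Module.finrank (ZMod 2) N
          have hi := i.2
          have h4 : 2 ^ (i : ℕ) ≤ 2 ^ (d - 1) := Nat.pow_le_pow_right (by norm_num) (by omega)
          have h5 : 2 ^ (2 * k - 1) ≤ 2 ^ (d - 1) := Nat.pow_le_pow_right (by norm_num) (by omega)
          have h6 : 2 ^ d = 2 ^ (d - 1) + 2 ^ (d - 1) := by
            rw [← two_mul, ← pow_succ']; congr 1; omega
          omega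
  have h2 : cnt (fun G : SimpleGraph W => 2 * k ≤ Module.finrank (ZMod 2) (NZ (adjM (ZMod 2) G) Z)) *
      2 ^ (k * (2 * k - 1)) ≤ ∑ G : SimpleGraph W, cnt (fun w : Fin k → W → ZMod 2 =>
        LinearIndependent (ZMod 2) w ∧ ∀ i, w i ∈ NZ (adjM (ZMod 2) G) Z) := by
    refine le_trans (Nat.mul_le_mul_right _ (cnt_mono h1)) (cnt_markov _ _)
  refine h2.trans ?_
  rw [← cnt_prod (fun (G : SimpleGraph W) (w : Fin k → W → ZMod 2) =>
    LinearIndependent (ZMod 2) w ∧ ∀ i, w i ∈ NZ (adjM (ZMod 2) G) Z),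
    cnt_prod_swap (fun (G : SimpleGraph W) (w : Fin k → W → ZMod 2) =>
    LinearIndependent (ZMod 2) w ∧ ∀ i, w i ∈ NZ (adjM (ZMod 2) G) Z)]
  have h3 : ∀ w : Fin k → W → ZMod 2, cnt (fun G : SimpleGraph W =>
      LinearIndependent (ZMod 2) w ∧ ∀ i, w i ∈ NZ (adjM (ZMod 2) G) Z) * 2 ^ (Z.card * k) ≤
      if (∀ i, ∀ j ∈ Z, w i j = 0) then 2 ^ (Fintype.card W).choose 2 else 0 := by
    intro w
    by_cases hw : LinearIndependent (ZMod 2) w ∧ ∀ i, ∀ j ∈ Z, w i j = 0
    · rw [if_pos hw.2]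
      refine le_trans (Nat.mul_le_mul_right _ (cnt_mono ?_)) (cnt_kernel Z w hw.1 hw.2)
      rintro G ⟨_, h⟩ i j hj
      exact (h i).2 j hj
    · rw [cnt_eq_zero, zero_mul]
      · exact Nat.zero_le _
      · rintro G ⟨h, h'⟩
        exact hw ⟨h, fun i j hj => (h' i).1 j hj⟩
  have h4 : (∑ w : Fin k → W → ZMod 2, cnt (fun G : SimpleGraph W =>
      LinearIndependent (ZMod 2) w ∧ ∀ i, w i ∈ NZ (adjM (ZMod 2) G) Z)) * 2 ^ (Z.card * k) ≤
      2 ^ ((Fintype.card W - Z.card) * k) * 2 ^ (Fintype.card W).choose 2 := by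
    rw [Finset.sum_mul]
    refine (Finset.sum_le_sum fun w _ => h3 w).trans ?_
    rw [← Finset.sum_filter, Finset.sum_const, smul_eq_mul]
    refine Nat.mul_le_mul_right _ ?_
    rw [← cnt_eq, cnt_pi (I := Fin k) (fun x : W → ZMod 2 => ∀ j ∈ Z, x j = 0), Fintype.card_fin,
      pow_mul]
    refine Nat.pow_le_pow_left ?_ _
    have h5 : cnt (fun x : W → ZMod 2 => ∀ j ∈ Z, x j = 0) ≤
        cnt (fun _ : {v // v ∉ Z} → ZMod 2 => True) := by
      refine cnt_le_of_inj (fun x u => x u.1) (fun _ _ => trivial) ?_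
      intro x y hx hy h
      ext v
      by_cases hv : v ∈ Z
      · rw [hx v hv, hy v hv]
      · exact congrFun h ⟨v, hv⟩
    refine h5.trans (le_of_eq ?_)
    rw [cnt_true, Nat.card_eq_fintype_card, Fintype.card_fun, ZMod.card]
    congr 1
    rw [Fintype.card_subtype, Finset.filter_not,
        Finset.card_sdiff_of_subset (Finset.filter_subset _ _), Finset.card_univ]
    congr 2
    ext v; simp
  have h5 : 2 ^ ((Fintype.card W - Z.card) * k) ≤ 2 ^ (Z.card * k) :=
    Nat.pow_le_pow_right (by norm_num) (Nat.mul_le_mul_right _ (by omega))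
  have h6 := h4.trans (Nat.mul_le_mul_right _ h5)
  rw [mul_comm (2 ^ (Z.card * k))] at h6
  exact Nat.le_of_mul_le_mul_right h6 (by positivity)

end Pool.Agent.Helper185_DS
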