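import Mathlib
import Pool.Agent.Helper185_DS.Nullity

/-!
# Vectors with a small Krylov space modulo two

For a typical graph, if the difference modulo two has a small Krylov space then few second vectors have
the same moments.
-/

set_option autoImplicit false
set_option linter.unusedSectionVars false
set_option linter.unusedSimpArgs false

namespace Pool.Agent.Helper185_DS

open Matrix Finset

section linalg

variable {F V V' : Type*} [Field F] [AddCommGroup V] [Module F V] [FiniteDimensional F V]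
  [AddCommGroup V'] [Module F V'] [FiniteDimensional F V']

lemma finrank_le_map_add (T : Submodule F V) (f : V →ₗ[F] V') (N : Submodule F V)
    (h : ∀ x ∈ T, f x = 0 → x ∈ N) :
    Module.finrank F T ≤ Module.finrank F (T.map f) + Module.finrank F N := by
  have h1 := (f.domRestrict T).finrank_range_add_finrank_ker
  rw [LinearMap.range_domRestrict] at h1
  have h2 : Module.finrank F (LinearMap.ker (f.domRestrict T)) ≤ Module.finrank F N := by
    let g : LinearMap.ker (f.domRestrict T) →ₗ[F] N :=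
      { toFun := fun x => ⟨x.1.1, h _ x.1.2 (by
          have := x.2
          rw [LinearMap.mem_ker, LinearMap.domRestrict_apply] at this
          exact this)⟩
        map_add' := fun x y => rfl
        map_smul' := fun c x => rfl }
    refine LinearMap.finrank_le_finrank_of_injective (f := g) ?_
    intro x y hxy
    apply Subtype.ext
    apply Subtype.ext
    have h5 : ((g x : N) : V) = ((g y : N) : V) := by rw [hxy]
    exact h5
  omega

end linalg

variable {W : Type*} [Fintype W]

/-- The Krylov space. -/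
def kspace (A : Matrix W W (ZMod 2)) (z : W → ZMod 2) : Submodule (ZMod 2) (W → ZMod 2) :=
  Submodule.span (ZMod 2) (Set.range fun k : ℕ => kr A z k)

lemma mulVec_mem_kspace {A : Matrix W W (ZMod 2)} {z v : W → ZMod 2} (hv : v ∈ kspace A z) :
    A *ᵥ v ∈ kspace A z := by
  rw [kspace] at hv ⊢
  induction hv using Submodule.span_induction with
  | mem x hx =>
    obtain ⟨i, rfl⟩ := hx
    simp only [← kr_succ]
    exact Submodule.subset_span ⟨i + 1, rfl⟩
  | zero => rw [Matrix.mulVec_zero]; exact Submodule.zero_mem _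
  | add x y _ _ hx hy => rw [Matrix.mulVec_add]; exact Submodule.add_mem _ hx hy
  | smul a x _ hx => rw [Matrix.mulVec_smul]; exact Submodule.smul_mem _ _ hx

lemma finrank_kspace_of_not_small {G : SimpleGraph W} {a : ℕ} {z : W → ZMod 2}
    (h : ¬ Small G a z) : a < Module.finrank (ZMod 2) (kspace (adjM (ZMod 2) G) z) := by
  obtain ⟨r, _, hr⟩ := exists_chainLen (A := adjM (ZMod 2) G) (z := z)
  have h1 : a < r := by
    by_contra hle
    exact h ⟨r, by omega, hr⟩
  have h2 : r ≤ Module.finrank (ZMod 2) (kspace (adjM (ZMod 2) G) z) := by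
    have h3 : LinearIndependent (ZMod 2) (fun i : Fin r =>
        (⟨kr (adjM (ZMod 2) G) z i, Submodule.subset_span ⟨i, rfl⟩⟩ :
          kspace (adjM (ZMod 2) G) z)) := by
      refine LinearIndependent.of_comp (kspace (adjM (ZMod 2) G) z).subtype ?_
      exact hr.1
    have := h3.fintype_card_le_finrank
    rwa [Fintype.card_fin] at this
  omega

variable [DecidableEq W]

/-- Restriction to a set. -/
def resL (Z : Finset W) : (W → ZMod 2) →ₗ[ZMod 2] ({v // v ∈ Z} → ZMod 2) :=
  LinearMap.funLeft (ZMod 2) (ZMod 2) (Subtype.val : {v // v ∈ Z} → W)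

lemma resL_apply (Z : Finset W) (x : W → ZMod 2) (v : {v // v ∈ Z}) : resL Z x v = x v.1 := rfl

lemma resL_eq_zero {Z : Finset W} {x : W → ZMod 2} (h : resL Z x = 0) : ∀ i ∈ Z, x i = 0 :=
  fun i hi => congrFun h ⟨i, hi⟩

/-- **The restriction of a large Krylov space to a large set is large.** -/
theorem finrank_map_resL {A : Matrix W W (ZMod 2)} (z : W → ZMod 2) (Z : Finset W) :
    Module.finrank (ZMod 2) (kspace A z) ≤
      2 * Module.finrank (ZMod 2) ((kspace A z).map (resL Z)) +
        Module.finrank (ZMod 2) (NZ A Z) := by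
  set T := kspace A z with hT
  have h1 := finrank_le_map_add T (resL Z) (T ⊓ LinearMap.ker (resL Z))
    (fun x hx hx0 => ⟨hx, LinearMap.mem_ker.2 hx0⟩)
  have h2 := finrank_le_map_add (T ⊓ LinearMap.ker (resL Z)) ((resL Z).comp A.mulVecLin) (NZ A Z)
    (fun x hx hx0 => ⟨resL_eq_zero (LinearMap.mem_ker.1 hx.2), resL_eq_zero hx0⟩)
  have h3 : (T ⊓ LinearMap.ker (resL Z)).map ((resL Z).comp A.mulVecLin) ≤ T.map (resL Z) := by
    rintro _ ⟨x, hx, rfl⟩
    exact ⟨A *ᵥ x, mulVec_mem_kspace hx.1, rfl⟩
  have h4 := Submodule.finrank_mono h3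
  omega

/-- The part off `Z`. -/
def offZ (Z : Finset W) (b : W → ZMod 2) : W → ZMod 2 := fun i => if i ∈ Z then 0 else b i

lemma cnt_supp (Z : Finset W) :
    cnt (fun x : W → ZMod 2 => ∀ i ∈ Z, x i = 0) ≤ 2 ^ (Fintype.card W - Z.card) := by
  classical
  have h5 : cnt (fun x : W → ZMod 2 => ∀ j ∈ Z, x j = 0) ≤
      cnt (fun _ : {v // v ∉ Z} → ZMod 2 => True) := by
    refine cnt_le_of_inj (fun x u => x u.1) (fun _ _ => trivial) ?_
    intro x y hx hy h
    ext v
    by_cases hv : v ∈ Z
    · rw [hx v hv, hy v hv]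
    · exact congrFun h ⟨v, hv⟩
  refine h5.trans (le_of_eq ?_)
  rw [cnt_true, Nat.card_eq_fintype_card, Fintype.card_fun, ZMod.card]
  congr 1
  rw [Fintype.card_subtype, Finset.filter_not,
      Finset.card_sdiff_of_subset (Finset.filter_subset _ _), Finset.card_univ]
  congr 2
  ext v; simp

/-- Vectors with a given part off `Z`, orthogonal differences. -/
lemma cnt_fixed_off (Z : Finset W) (T : Submodule (ZMod 2) (W → ZMod 2)) (d : ℕ)
    (hd : d ≤ Module.finrank (ZMod 2) (T.map (resL Z))) (P : (W → ZMod 2) → Prop)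
    (hP : ∀ b b', P b → P b' → (∀ i, i ∉ Z → b i = b' i) ∧ ∀ y ∈ T, (b - b') ⬝ᵥ y = 0) :
    cnt P ≤ 2 ^ (Z.card - d) := by
  classical
  by_cases hex : ∃ b0, P b0
  · obtain ⟨b0, hb0⟩ := hex
    -- independent vectors
    obtain ⟨f, hf⟩ : ∃ f : Fin d → (T.map (resL Z) : Submodule (ZMod 2) ({v // v ∈ Z} → ZMod 2)),
        LinearIndependent (ZMod 2) f := by
      have h1 := Module.finBasis (ZMod 2)
        (T.map (resL Z) : Submodule (ZMod 2) ({v // v ∈ Z} → ZMod 2))
      exact ⟨fun i => h1 (Fin.castLE hd i), h1.linearIndependent.comp _ (Fin.castLE_injective hd)⟩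
    have hf2 : LinearIndependent (ZMod 2) (fun i => (f i : {v // v ∈ Z} → ZMod 2)) :=
      hf.map' (Submodule.subtype _) (Submodule.ker_subtype _)
    have h2 := card_orth _ hf2
    rw [Fintype.card_coe] at h2
    rw [← h2]
    refine cnt_le_of_inj (fun b => resL Z (b - b0)) ?_ ?_
    · intro b hb j
      obtain ⟨y, hy, hyj⟩ := (f j).2
      rw [← hyj]
      have h3 := (hP b b0 hb hb0).2 y hy
      rw [← h3]
      simp only [dotProduct, resL_apply]
      rw [← Fintype.sum_subtype_add_sum_subtype (fun v => v ∈ Z)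
        (fun x => (b - b0) x * y x)]
      have h4 : ∑ x : {v // v ∉ Z}, (b - b0) x.1 * y x.1 = 0 := by
        refine Finset.sum_eq_zero fun x _ => ?_
        have := (hP b b0 hb hb0).1 x.1 x.2
        rw [Pi.sub_apply, this, sub_self, zero_mul]
      rw [h4, add_zero]
      exact Finset.sum_congr (by ext x; simp) fun x _ => mul_comm _ _
    · intro b b' hb hb' h
      ext v
      by_cases hv : v ∈ Z
      · have := congrFun h ⟨v, hv⟩
        simp only [resL_apply, Pi.sub_apply] at this
        exact sub_left_injective this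
      · exact (hP b b' hb hb').1 v hv
  · rw [cnt_eq_zero fun b hb => hex ⟨b, hb⟩]
    exact Nat.zero_le _

/-- The annihilating polynomial, over any ring. -/
def pol {K : Type*} [CommRing K] (A : Matrix W W K) {r : ℕ} (c : Fin r → K) (w : W → K) : W → K :=
  kr A w r - ∑ i, c i • kr A w i

lemma pol_add {K : Type*} [CommRing K] (A : Matrix W W K) {r : ℕ} (c : Fin r → K) (w w' : W → K) :
    pol A c (w + w') = pol A c w + pol A c w' := by
  simp only [pol, kr_add, smul_add, Finset.sum_add_distrib]; abel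

lemma pol_sub {K : Type*} [CommRing K] (A : Matrix W W K) {r : ℕ} (c : Fin r → K) (w w' : W → K) :
    pol A c (w - w') = pol A c w - pol A c w' := by
  simp only [pol, kr_sub, smul_sub, Finset.sum_sub_distrib]; abel

lemma pol_smul {K : Type*} [CommRing K] (A : Matrix W W K) {r : ℕ} (c : Fin r → K) (x : K)
    (w : W → K) : pol A c (x • w) = x • pol A c w := by
  simp only [pol, kr_smul, smul_sub, Finset.smul_sum]
  congr 1
  exact Finset.sum_congr rfl fun i _ => smul_comm _ _ _

lemma dot_kr_pol {K : Type*} [CommRing K] (A : Matrix W W K) {r : ℕ} (c : Fin r → K)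
    (u w : W → K) (h : ∀ k, u ⬝ᵥ kr A w k = 0) (k : ℕ) : u ⬝ᵥ kr A (pol A c w) k = 0 := by
  rw [pol, kr_sub, kr_sum, dotProduct_sub, dotProduct_sum, kr_kr, h, zero_sub, neg_eq_zero]
  refine Finset.sum_eq_zero fun i _ => ?_
  rw [kr_smul, dotProduct_smul, kr_kr, h, smul_zero]

lemma md_pol (G : SimpleGraph W) {r : ℕ} (c : Fin r → ZMod 2) (w : W → ℤ) :
    md (pol (adjM ℤ G) (fun i => ((c i).val : ℤ)) w) = pol (adjM (ZMod 2) G) c (md w) := by
  rw [pol, pol, md_sub, md_kr]
  congr 1
  ext i
  simp only [md, Finset.sum_apply, Pi.smul_apply, smul_eq_mul, Int.cast_sum, Int.cast_mul]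
  refine Finset.sum_congr rfl fun j _ => ?_
  have h1 : (((c j).val : ℤ) : ZMod 2) = c j := by simp
  rw [h1]
  congr 1
  exact congrFun (md_kr G w j) i

/-- Integral vectors which vanish modulo two. -/
lemma exists_half {w : W → ℤ} (h : md w = 0) : ∃ v : W → ℤ, w = (2 : ℤ) • v := by
  have h1 : ∀ i, ∃ v, w i = 2 * v := by
    intro i
    have := congrFun h i
    simp only [md, Pi.zero_apply] at this
    obtain ⟨v, hv⟩ := (ZMod.intCast_zmod_eq_zero_iff_dvd (w i) 2).1 this
    exact ⟨v, by simpa using hv⟩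
  choose v hv using h1
  exact ⟨v, by ext i; simp [hv]⟩

lemma lf_eq_of_zero (b : W → ZMod 2) (i : W) (h : b i = 0) : lf b i = 0 := by simp [lf, h]

/-- **Core count.** -/
theorem cnt_core_IC (G : SimpleGraph W) (z : W → ZMod 2) (r a D' d k : ℕ) (hr : r ≤ a)
    (hchain : ChainLen (adjM (ZMod 2) G) z r) (h1 : cnt (Small G a) ≤ 2 ^ (3 * a))
    (h2 : cnt (Small G D') ≤ 2 ^ (3 * D')) (Z : Finset W)
    (h3 : Module.finrank (ZMod 2) (NZ (adjM (ZMod 2) G) Z) ≤ 2 * k) (hD : 2 * k + 2 * d ≤ D')
    (sg : ℤ) (hsg : sg = 1 ∨ sg = -1)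
    (H : ∀ b b', IC G z b → IC G z b' → (∀ i, i ∉ Z → b i = b' i) →
      ∀ k, (lf b - lf b') ⬝ᵥ kr (adjM ℤ G) (lf z + (2 * sg) • lf (offZ Z b)) k = 0) :
    cnt (IC G z) ≤ 2 ^ Z.card * (2 ^ (3 * D') * 2 ^ (3 * a)) +
      2 ^ (Fintype.card W - Z.card) * 2 ^ (Z.card - d) := by
  classical
  -- the coefficients
  obtain ⟨c, hc⟩ : ∃ c : Fin r → ZMod 2, ∑ i, c i • kr (adjM (ZMod 2) G) z i =
      kr (adjM (ZMod 2) G) z r := by
    have := hchain.2
    rwa [Submodule.mem_span_range_iff_exists_fun] at this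
  have hpz : pol (adjM (ZMod 2) G) c z = 0 := by rw [pol, hc, sub_self]
  let cz : Fin r → ℤ := fun i => ((c i).val : ℤ)
  obtain ⟨u0, hu0⟩ : ∃ u0 : W → ℤ, pol (adjM ℤ G) cz (lf z) = (2 : ℤ) • u0 := by
    apply exists_half
    rw [md_pol, md_lf, hpz]
  -- the key vector
  let et : (W → ZMod 2) → (W → ZMod 2) := fun rho => md u0 + pol (adjM (ZMod 2) G) c rho
  have hsgz : ((sg : ℤ) : ZMod 2) = 1 := by
    rcases hsg with h | h <;> rw [h] <;> decide
  have hkey : ∀ b b', IC G z b → IC G z b' → (∀ i, i ∉ Z → b i = b' i) →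
      ∀ k, (b - b') ⬝ᵥ kr (adjM (ZMod 2) G) (et (offZ Z b)) k = 0 := by
    intro b b' hb hb' hbb k
    have e1 := dot_kr_pol (adjM ℤ G) cz _ _ (H b b' hb hb' hbb) k
    rw [pol_add, pol_smul, hu0] at e1
    have e2 : (2 : ℤ) • u0 + (2 * sg) • pol (adjM ℤ G) cz (lf (offZ Z b)) =
        (2 : ℤ) • (u0 + sg • pol (adjM ℤ G) cz (lf (offZ Z b))) := by
      rw [smul_add, mul_smul]
    rw [e2, kr_smul, dotProduct_smul, smul_eq_mul] at e1
    have e3 : (lf b - lf b') ⬝ᵥ kr (adjM ℤ G) (u0 + sg • pol (adjM ℤ G) cz (lf (offZ Z b))) k = 0 := by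
      omega
    have e4 := congrArg (fun n : ℤ => (n : ZMod 2)) e3
    simp only [md_dot, md_kr, md_sub, md_lf, Int.cast_zero, md_add] at e4
    have e5 : md (sg • pol (adjM ℤ G) cz (lf (offZ Z b))) =
        pol (adjM (ZMod 2) G) c (offZ Z b) := by
      have : md (sg • pol (adjM ℤ G) cz (lf (offZ Z b))) =
          md (pol (adjM ℤ G) cz (lf (offZ Z b))) := by
        ext i
        simp only [md, Pi.smul_apply, smul_eq_mul, Int.cast_mul, hsgz, one_mul]
      rw [this, md_pol, md_lf]
    rw [e5] at e4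
    exact e4
  -- splitting
  have hsplit : cnt (IC G z) ≤ cnt (fun b => Small G D' (et (offZ Z b))) +
      cnt (fun b => IC G z b ∧ ¬ Small G D' (et (offZ Z b))) := by
    simp only [cnt_eq]
    refine (Finset.card_le_card ?_).trans (Finset.card_union_le _ _)
    intro b hb
    simp only [Finset.mem_union, Finset.mem_filter, Finset.mem_univ, true_and] at hb ⊢
    tauto
  refine hsplit.trans (Nat.add_le_add ?_ ?_)
  · -- few vectors with a small Krylov space
    have e1 : cnt (fun b => Small G D' (et (offZ Z b))) ≤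
        cnt (fun rho => Small G D' (et rho)) * 2 ^ Z.card := by
      refine cnt_fiber_le _ (fun b rho => offZ Z b = rho) _ _ (fun b hb => ⟨_, hb, rfl⟩) ?_
      intro rho _
      have : cnt (fun b => Small G D' (et (offZ Z b)) ∧ offZ Z b = rho) ≤
          cnt (fun _ : {v // v ∈ Z} → ZMod 2 => True) := by
        refine cnt_le_of_inj (fun b v => b v.1) (fun _ _ => trivial) ?_
        rintro b b' ⟨_, hb⟩ ⟨_, hb'⟩ h
        ext v
        by_cases hv : v ∈ Z
        · exact congrFun h ⟨v, hv⟩
        · have := congrFun (hb.trans hb'.symm) v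
          simpa [offZ, hv] using this
      refine this.trans (le_of_eq ?_)
      rw [cnt_true, Nat.card_eq_fintype_card, Fintype.card_fun, ZMod.card, Fintype.card_coe]
    have e2 : cnt (fun rho => Small G D' (et rho)) ≤ cnt (Small G D') * 2 ^ (3 * a) := by
      refine cnt_fiber_le _ (fun rho y => et rho = y) _ _ (fun rho hrho => ⟨_, hrho, rfl⟩) ?_
      intro y _
      refine le_trans ?_ h1
      by_cases hex : ∃ rho0, et rho0 = y
      · obtain ⟨rho0, h0⟩ := hex
        refine cnt_le_of_inj (fun rho => rho - rho0) ?_ ?_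
        · rintro rho ⟨_, hrho⟩
          have e3 : pol (adjM (ZMod 2) G) c (rho - rho0) = 0 := by
            rw [pol_sub]
            have := hrho.trans h0.symm
            simp only [et] at this
            rw [add_left_cancel this, sub_self]
          obtain ⟨j, hj, hj2⟩ := chainLen_of_mem (A := adjM (ZMod 2) G) (z := rho - rho0) (r := r) (by
            rw [pol, sub_eq_zero] at e3
            rw [e3]
            exact Submodule.sum_mem _ fun i _ => Submodule.smul_mem _ _
              (Submodule.subset_span ⟨i, rfl⟩))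
          exact ⟨j, by omega, hj2⟩
        · rintro rho rho' _ _ h
          exact sub_left_injective h
      · rw [cnt_eq_zero]
        · exact Nat.zero_le _
        · rintro rho ⟨_, h⟩
          exact hex ⟨rho, h⟩
    calc _ ≤ (cnt (Small G D') * 2 ^ (3 * a)) * 2 ^ Z.card := e1.trans (Nat.mul_le_mul_right _ e2)
      _ ≤ (2 ^ (3 * D') * 2 ^ (3 * a)) * 2 ^ Z.card := by gcongr
      _ = _ := mul_comm _ _
  · -- large Krylov space
    refine (cnt_fiber_le _ (fun b rho => offZ Z b = rho) (fun rho => ∀ i ∈ Z, rho i = 0)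
      (2 ^ (Z.card - d)) (fun b hb => ⟨_, fun i hi => by simp [offZ, hi], rfl⟩) ?_).trans
      (Nat.mul_le_mul_right _ (cnt_supp Z))
    intro rho _
    by_cases hs : Small G D' (et rho)
    · rw [cnt_eq_zero]
      · exact Nat.zero_le _
      · rintro b ⟨⟨_, h⟩, h'⟩
        rw [h'] at h; exact h hs
    · have e1 := finrank_kspace_of_not_small hs
      have e2 := finrank_map_resL (A := adjM (ZMod 2) G) (et rho) Z
      refine cnt_fixed_off Z (kspace (adjM (ZMod 2) G) (et rho)) d (by omega) _ ?_
      rintro b b' ⟨⟨hb, _⟩, hbr⟩ ⟨⟨hb', _⟩, hbr'⟩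
      have hoff : ∀ i, i ∉ Z → b i = b' i := by
        intro i hi
        have := congrFun (hbr.trans hbr'.symm) i
        simpa [offZ, hi] using this
      refine ⟨hoff, fun y hy => ?_⟩
      have e3 := hkey b b' hb hb' hoff
      rw [hbr] at e3
      rw [kspace] at hy
      induction hy using Submodule.span_induction with
      | mem x hx => obtain ⟨i, rfl⟩ := hx; exact e3 i
      | zero => exact dotProduct_zero _
      | add x y _ _ hx hy => rw [dotProduct_add, hx, hy, add_zero]
      | smul t x _ hx => rw [dotProduct_smul, hx, smul_zero]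

lemma IC.dot {G : SimpleGraph W} {z b : W → ZMod 2} (h : IC G z b) (k : ℕ) :
    (lf (b + z) - lf b) ⬝ᵥ kr (adjM ℤ G) (lf (b + z) + lf b) k = 0 := by
  have h1 := h k
  have h3 : lf b ⬝ᵥ kr (adjM ℤ G) (lf (b + z)) k = lf (b + z) ⬝ᵥ kr (adjM ℤ G) (lf b) k := by
    have h4 := dot_kr _ (adjM_transpose (K := ℤ) G) (lf (b + z)) (lf b) k 0
    rw [kr_zero, add_zero] at h4
    rw [dotProduct_comm, h4]
  rw [kr_add, dotProduct_add, sub_dotProduct, sub_dotProduct, h1, h3]
  ring

/-- **Few second vectors.** -/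
theorem cnt_IC_le (G : SimpleGraph W) (z : W → ZMod 2) (r a D' d k : ℕ) (hr : r ≤ a)
    (hchain : ChainLen (adjM (ZMod 2) G) z r) (h1 : cnt (Small G a) ≤ 2 ^ (3 * a))
    (h2 : cnt (Small G D') ≤ 2 ^ (3 * D'))
    (h3 : ∀ Z : Finset W, Fintype.card W ≤ 2 * Z.card →
      Module.finrank (ZMod 2) (NZ (adjM (ZMod 2) G) Z) ≤ 2 * k) (hD : 2 * k + 2 * d ≤ D') :
    ∃ Z : Finset W, (Z = univ.filter (fun i => z i = 1) ∨ Z = univ.filter (fun i => z i = 0)) ∧
      cnt (IC G z) ≤ 2 ^ Z.card * (2 ^ (3 * D') * 2 ^ (3 * a)) +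
      2 ^ (Fintype.card W - Z.card) * 2 ^ (Z.card - d) := by
  classical
  have hcard : (univ.filter (fun i => z i = 1)).card + (univ.filter (fun i => z i = 0)).card =
      Fintype.card W := by
    have := Finset.card_filter_add_card_filter_not (s := (univ : Finset W)) (fun i => z i = 1)
    rw [Finset.card_univ] at this
    rw [← this]
    congr 2
    ext i
    simp only [Finset.mem_filter, Finset.mem_univ, true_and]
    generalize z i = x; revert x; decide
  have hval : ∀ x y : ZMod 2, (x = y ∨ x = y + 1) := by decide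
  rcases Nat.le_total ((univ.filter (fun i => z i = 0)).card) ((univ.filter (fun i => z i = 1)).card)
    with hle | hle
  · refine ⟨univ.filter (fun i => z i = 1), Or.inl rfl, ?_⟩
    refine cnt_core_IC G z r a D' d k hr hchain h1 h2 _ (h3 _ (by omega)) hD 1 (Or.inl rfl) ?_
    intro b b' hb hb' hbb k
    -- the fixed vector is the sum
    have e1 : ∀ b : W → ZMod 2, lf (b + z) + lf b =
        lf z + (2 * (1 : ℤ)) • lf (offZ (univ.filter (fun i => z i = 1)) b) := by
      intro b
      ext i
      simp only [Pi.add_apply, Pi.smul_apply, smul_eq_mul, lf, offZ, Finset.mem_filter,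
        Finset.mem_univ, true_and]
      generalize z i = x; generalize b i = y; revert x y; decide
    have e2 := hb.dot k
    have e3 := hb'.dot k
    have e4 : offZ (univ.filter (fun i => z i = 1)) b' = offZ (univ.filter (fun i => z i = 1)) b := by
      ext i
      simp only [offZ]
      split_ifs with hi
      · rfl
      · exact (hbb i hi).symm
    rw [e1] at e2 e3
    rw [e4] at e3
    have e5 : lf b - lf b' = lf b - lf b' := rfl
    have e6 : (2 : ℤ) • (lf b - lf b') = (lf (b' + z) - lf b') - (lf (b + z) - lf b) := by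
      ext i
      simp only [Pi.sub_apply, Pi.smul_apply, smul_eq_mul, lf, Pi.add_apply]
      by_cases hi : z i = 1
      · rw [hi]
        generalize b i = x; generalize b' i = y; revert x y; decide
      · have h0 : z i = 0 := (z2_cases _).resolve_right hi
        have h4 : b i = b' i := hbb i (by simp [hi])
        rw [h0, h4]; simp
    have e7 : ((2 : ℤ) • (lf b - lf b')) ⬝ᵥ kr (adjM ℤ G)
        (lf z + (2 * (1 : ℤ)) • lf (offZ (univ.filter (fun i => z i = 1)) b)) k = 0 := by
      rw [e6, sub_dotProduct, e2, e3, sub_zero]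
    rw [smul_dotProduct, smul_eq_mul] at e7
    omega
  · refine ⟨univ.filter (fun i => z i = 0), Or.inr rfl, ?_⟩
    refine cnt_core_IC G z r a D' d k hr hchain h1 h2 _ (h3 _ (by omega)) hD (-1) (Or.inr rfl) ?_
    intro b b' hb hb' hbb k
    have e1 : ∀ b : W → ZMod 2, lf (b + z) - lf b =
        lf z + (2 * (-1 : ℤ)) • lf (offZ (univ.filter (fun i => z i = 0)) b) := by
      intro b
      ext i
      simp only [Pi.add_apply, Pi.sub_apply, Pi.smul_apply, smul_eq_mul, lf, offZ,
        Finset.mem_filter, Finset.mem_univ, true_and]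
      generalize z i = x; generalize b i = y; revert x y; decide
    have e2 := hb.dot k
    have e3 := hb'.dot k
    have e4 : offZ (univ.filter (fun i => z i = 0)) b' = offZ (univ.filter (fun i => z i = 0)) b := by
      ext i
      simp only [offZ]
      split_ifs with hi
      · rfl
      · exact (hbb i hi).symm
    rw [e1] at e2 e3
    rw [e4] at e3
    set x := lf z + (2 * (-1 : ℤ)) • lf (offZ (univ.filter (fun i => z i = 0)) b) with hx
    have e6 : (2 : ℤ) • (lf b - lf b') = (lf (b + z) + lf b) - (lf (b' + z) + lf b') := by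
      ext i
      simp only [Pi.sub_apply, Pi.smul_apply, smul_eq_mul, lf, Pi.add_apply]
      by_cases hi : z i = 0
      · rw [hi]; simp only [add_zero]; ring
      · have h0 : z i = 1 := z2_ne_zero hi
        have h4 : b i = b' i := hbb i (by simp [hi])
        rw [h0, h4]; simp
    have e7 : x ⬝ᵥ kr (adjM ℤ G) ((2 : ℤ) • (lf b - lf b')) k = 0 := by
      rw [e6, kr_sub, dotProduct_sub, e2, e3, sub_zero]
    have e8 := dot_kr _ (adjM_transpose (K := ℤ) G) x (lf b - lf b') k 0
    rw [kr_zero, add_zero] at e8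
    rw [kr_smul, dotProduct_smul, smul_eq_mul] at e7
    rw [dotProduct_comm, e8]
    omega

end Pool.Agent.Helper185_DS
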