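import Mathlib
import Pool.Agent.Helper185_DS.RandomSide

/-!
# Counts for a fixed difference vector
-/

set_option autoImplicit false
set_option linter.unusedSectionVars false
set_option linter.unusedSimpArgs false

namespace Pool.Agent.Helper185_DS

open Matrix Finset

variable {W : Type*} [Fintype W] [LinearOrder W]

lemma exists_r {G : SimpleGraph W} {z b : W → ZMod 2} (hz : z ≠ 0) (h : IC G z b) :
    ∃ r, 1 ≤ r ∧ 2 * r ≤ Fintype.card W ∧ ChainLen (adjM (ZMod 2) G) z r := by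
  obtain ⟨r, _, hr⟩ := exists_chainLen (A := adjM (ZMod 2) G) (z := z)
  exact ⟨r, hr.pos hz, (isoZ_of_isoK hr h.isoK).1.two_mul_le, hr⟩

lemma pow_card_eq (hm : 1 ≤ Fintype.card W) :
    2 * (2 ^ (Fintype.card W - 1).choose 2 * 2 ^ Fintype.card W) =
      4 * 2 ^ (Fintype.card W).choose 2 := by
  have h := choose_two_sub (Fintype.card W) 0 (by omega)
  rw [Nat.sub_zero, Nat.zero_add] at h
  have h2 : Fintype.card W = (Fintype.card W - 1) + 1 := by omega
  have h3 : 2 ^ Fintype.card W = 2 * 2 ^ (Fintype.card W - 1) := by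
    conv_lhs => rw [h2]
    rw [pow_succ]; ring
  rw [h, pow_add, h3]; ring

/-- For one dimension of the Krylov space. -/
lemma cnt_pair_r (z : W → ZMod 2) (r : ℕ) :
    cnt (fun p : SimpleGraph W × (W → ZMod 2) =>
      (ChainLen (adjM (ZMod 2) p.1) z r ∧ IsoK (adjM (ZMod 2) p.1) z) ∧
        ConsB (adjM (ZMod 2) p.1) z p.2) ≤
      (cnt (IsoZ z r) * 2 ^ r * 2 ^ (Fintype.card W - r).choose 2) * 2 ^ (Fintype.card W - r) := by
  refine (cnt_prod_le (fun G : SimpleGraph W =>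
      ChainLen (adjM (ZMod 2) G) z r ∧ IsoK (adjM (ZMod 2) G) z)
    (fun G b => ConsB (adjM (ZMod 2) G) z b) (2 ^ (Fintype.card W - r))
    fun G hG => cnt_consB_le hG.1).trans ?_
  exact Nat.mul_le_mul_right _ (cnt_isoK z r _ fun G hG => hG)

/-- **Class I.** -/
theorem cnt_pair_I (z : W → ZMod 2) (hz0 : z ≠ 0) (hz1 : z ≠ 1) (hm : 1 ≤ Fintype.card W) :
    cnt (fun p : SimpleGraph W × (W → ZMod 2) => IC p.1 z p.2) ≤
      Fintype.card W * (4 * 2 ^ (Fintype.card W).choose 2) := by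
  classical
  have h1 : cnt (fun p : SimpleGraph W × (W → ZMod 2) => IC p.1 z p.2) ≤
      ∑ r ∈ Finset.Icc 1 (Fintype.card W / 2), cnt (fun p : SimpleGraph W × (W → ZMod 2) =>
      (ChainLen (adjM (ZMod 2) p.1) z r ∧ IsoK (adjM (ZMod 2) p.1) z) ∧
        ConsB (adjM (ZMod 2) p.1) z p.2) := by
    refine le_trans (cnt_mono ?_) (cnt_exists_le _ _)
    rintro ⟨G, b⟩ h
    obtain ⟨r, hr1, hr2, hr3⟩ := exists_r hz0 h
    exact ⟨r, Finset.mem_Icc.2 ⟨hr1, by omega⟩, ⟨hr3, h.isoK⟩, h.consB⟩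
  refine h1.trans ?_
  calc _ ≤ ∑ _r ∈ Finset.Icc 1 (Fintype.card W / 2), 4 * 2 ^ (Fintype.card W).choose 2 := by
        refine Finset.sum_le_sum fun r hr => ?_
        rw [Finset.mem_Icc] at hr
        refine (cnt_pair_r z r).trans ?_
        have h2 := cntIso_le z hz1 r hr.1 (by omega)
        calc _ = (cnt (IsoZ z r) * 2 ^ (Fintype.card W - r).choose 2) *
              (2 ^ r * 2 ^ (Fintype.card W - r)) := by ring
          _ = (cnt (IsoZ z r) * 2 ^ (Fintype.card W - r).choose 2) * 2 ^ Fintype.card W := by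
              rw [← pow_add]; congr 2; omega
          _ ≤ (2 * 2 ^ (Fintype.card W - 1).choose 2) * 2 ^ Fintype.card W :=
              Nat.mul_le_mul_right _ h2
          _ = 2 * (2 ^ (Fintype.card W - 1).choose 2 * 2 ^ Fintype.card W) := by ring
          _ = _ := pow_card_eq hm
    _ = (Fintype.card W / 2) * (4 * 2 ^ (Fintype.card W).choose 2) := by
        rw [Finset.sum_const, smul_eq_mul, Nat.card_Icc]; simp
    _ ≤ _ := Nat.mul_le_mul_right _ (Nat.div_le_self _ _)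

/-- The all ones vector. -/
theorem cnt_pair_one (z : W → ZMod 2) (hz0 : z ≠ 0) (hm : 1 ≤ Fintype.card W) :
    cnt (fun p : SimpleGraph W × (W → ZMod 2) => IC p.1 z p.2) ≤
      Fintype.card W * (4 * 2 ^ (Fintype.card W).choose 2 * 2 ^ (Fintype.card W / 2)) := by
  classical
  have h1 : cnt (fun p : SimpleGraph W × (W → ZMod 2) => IC p.1 z p.2) ≤
      ∑ r ∈ Finset.Icc 1 (Fintype.card W / 2), cnt (fun p : SimpleGraph W × (W → ZMod 2) =>
      (ChainLen (adjM (ZMod 2) p.1) z r ∧ IsoK (adjM (ZMod 2) p.1) z) ∧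
        ConsB (adjM (ZMod 2) p.1) z p.2) := by
    refine le_trans (cnt_mono ?_) (cnt_exists_le _ _)
    rintro ⟨G, b⟩ h
    obtain ⟨r, hr1, hr2, hr3⟩ := exists_r hz0 h
    exact ⟨r, Finset.mem_Icc.2 ⟨hr1, by omega⟩, ⟨hr3, h.isoK⟩, h.consB⟩
  refine h1.trans ?_
  calc _ ≤ ∑ _r ∈ Finset.Icc 1 (Fintype.card W / 2),
        4 * 2 ^ (Fintype.card W).choose 2 * 2 ^ (Fintype.card W / 2) := by
        refine Finset.sum_le_sum fun r hr => ?_
        rw [Finset.mem_Icc] at hr
        refine (cnt_pair_r z r).trans ?_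
        have h2 := cntIso_le' z r hr.1 (by omega)
        calc _ = (cnt (IsoZ z r) * 2 ^ (Fintype.card W - r).choose 2) *
              (2 ^ r * 2 ^ (Fintype.card W - r)) := by ring
          _ = (cnt (IsoZ z r) * 2 ^ (Fintype.card W - r).choose 2) * 2 ^ Fintype.card W := by
              rw [← pow_add]; congr 2; omega
          _ ≤ (2 ^ r * 2 ^ (Fintype.card W - 1).choose 2) * 2 ^ Fintype.card W :=
              Nat.mul_le_mul_right _ h2
          _ = 2 ^ r * (2 ^ (Fintype.card W - 1).choose 2 * 2 ^ Fintype.card W) := by ring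
          _ ≤ 2 ^ (Fintype.card W / 2) *
              (2 * (2 ^ (Fintype.card W - 1).choose 2 * 2 ^ Fintype.card W)) := by
              refine Nat.mul_le_mul (Nat.pow_le_pow_right (by norm_num) hr.2) ?_
              omega
          _ = _ := by rw [pow_card_eq hm]; ring
    _ = (Fintype.card W / 2) *
        (4 * 2 ^ (Fintype.card W).choose 2 * 2 ^ (Fintype.card W / 2)) := by
        rw [Finset.sum_const, smul_eq_mul, Nat.card_Icc]; simp
    _ ≤ _ := Nat.mul_le_mul_right _ (Nat.div_le_self _ _)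

/-- The good part for one dimension. -/
def GoodP (z : W → ZMod 2) (r s : ℕ) (G : SimpleGraph W) : Prop :=
  ChainLen (adjM (ZMod 2) G) z r ∧ IsoK (adjM (ZMod 2) G) z ∧
      (∃ b, ConsB (adjM (ZMod 2) G) z b) ∧
      cnt (fun c : Fin r → ZMod 2 => KZ (fun i : Fin r => kr (adjM (ZMod 2) G) z i)
        (∑ j, c j • kr (adjM (ZMod 2) G) z j)) ≤ 2 ^ s

/-- The bad part for one dimension. -/
def BadP (z : W → ZMod 2) (r s : ℕ) (G : SimpleGraph W) : Prop :=
  ChainLen (adjM (ZMod 2) G) z r ∧ IsoK (adjM (ZMod 2) G) z ∧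
      2 ^ s < cnt (fun c : Fin r → ZMod 2 => KZ (fun i : Fin r => kr (adjM (ZMod 2) G) z i)
        (∑ j, c j • kr (adjM (ZMod 2) G) z j))

lemma cnt_good_pair (z : W → ZMod 2) (hz1 : z ≠ 1) (r : ℕ) (hr1 : 1 ≤ r)
    (hr : 2 * r ≤ Fintype.card W) (a : ℕ) (ha : a ≤ r) (hm : 1 ≤ Fintype.card W) :
    cnt (fun p : SimpleGraph W × (W → ZMod 2) => GoodP z r (r / 4) p.1 ∧
      ConsB (adjM (ZMod 2) p.1) z p.2) * 2 ^ (a / 4) ≤ 4 * 2 ^ (Fintype.card W).choose 2 := by
  have h1 := cnt_prod_le (GoodP z r (r / 4))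
    (fun G b => ConsB (adjM (ZMod 2) G) z b) (2 ^ (Fintype.card W - r))
    fun G hG => cnt_consB_le hG.1
  have h2 := cnt_cons_good z r (r / 4)
  have h3 := cntIso_le z hz1 r hr1 hr
  have h4 : cnt (GoodP z r (r / 4)) * 2 ^ r ≤
      (2 * 2 ^ (Fintype.card W - 1).choose 2 * 2 ^ (r / 2 + r / 4)) * 2 ^ r := by
    refine h2.trans ?_
    calc _ = (cnt (IsoZ z r) * 2 ^ (Fintype.card W - r).choose 2) * (2 ^ (r / 2 + r / 4) * 2 ^ r) := by
          rw [pow_add]; ring
      _ ≤ (2 * 2 ^ (Fintype.card W - 1).choose 2) * (2 ^ (r / 2 + r / 4) * 2 ^ r) :=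
          Nat.mul_le_mul_right _ h3
      _ = _ := by ring
  have h5 := Nat.le_of_mul_le_mul_right h4 (by positivity)
  calc _ ≤ (cnt (GoodP z r (r / 4)) * 2 ^ (Fintype.card W - r)) * 2 ^ (a / 4) :=
        Nat.mul_le_mul_right _ h1
    _ ≤ ((2 * 2 ^ (Fintype.card W - 1).choose 2 * 2 ^ (r / 2 + r / 4)) *
        2 ^ (Fintype.card W - r)) * 2 ^ (a / 4) := by gcongr
    _ = 2 * 2 ^ (Fintype.card W - 1).choose 2 *
        2 ^ (r / 2 + r / 4 + (Fintype.card W - r) + a / 4) := by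
        simp only [pow_add]; ring
    _ ≤ 2 * 2 ^ (Fintype.card W - 1).choose 2 * 2 ^ Fintype.card W := by
        refine Nat.mul_le_mul_left _ (Nat.pow_le_pow_right (by norm_num) ?_)
        omega
    _ = 2 * (2 ^ (Fintype.card W - 1).choose 2 * 2 ^ Fintype.card W) := by ring
    _ = _ := pow_card_eq hm

lemma cnt_bad_pair (z : W → ZMod 2) (r : ℕ) (hr1 : 2 ≤ r)
    (hr : 2 * r ≤ Fintype.card W) (a : ℕ) (ha : a ≤ r) :
    cnt (fun p : SimpleGraph W × (W → ZMod 2) => BadP z r (r / 4) p.1 ∧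
      ConsB (adjM (ZMod 2) p.1) z p.2) * 2 ^ ((a / 4) * (Fintype.card W / 4)) ≤
      (Fintype.card W + 1) ^ Fintype.card W *
        2 ^ ((Fintype.card W).choose 2 + Fintype.card W) := by
  classical
  have h1 := cnt_prod_le (BadP z r (r / 4))
    (fun G b => ConsB (adjM (ZMod 2) G) z b) (2 ^ (Fintype.card W - r))
    fun G hG => cnt_consB_le hG.1
  set m := Fintype.card W with hm
  set s := r / 4 with hs
  have h2 : cnt (BadP z r s) ≤ cnt (fun t : Fin r → W → ZMod 2 => IsoTuple t ∧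
      2 ^ s < cnt (fun c : Fin r → ZMod 2 => KZ t (∑ j, c j • t j))) * 2 ^ r *
      2 ^ (m - r).choose 2 := by
    refine (cnt_chain_le z r (BadP z r s) (fun t => IsoTuple t ∧
      2 ^ s < cnt (fun c : Fin r → ZMod 2 => KZ t (∑ j, c j • t j)))
      (2 ^ (m - r).choose 2) ?_ ?_).trans ?_
    · rintro G ⟨hG1, hG2, hG3⟩
      exact ⟨hG1, (isoZ_of_isoK hG1 hG2).1, hG3⟩
    · intro t c ht _
      refine le_trans (cnt_mono ?_) (card_prescribed t ht (nextT t c))
      rintro G ⟨_, _, h⟩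
      exact h
    · have : cnt (fun t : Fin r → W → ZMod 2 => LinearIndependent (ZMod 2) t ∧ IsoTuple t ∧
        2 ^ s < cnt (fun c : Fin r → ZMod 2 => KZ t (∑ j, c j • t j))) ≤
        cnt (fun t : Fin r → W → ZMod 2 => IsoTuple t ∧
        2 ^ s < cnt (fun c : Fin r → ZMod 2 => KZ t (∑ j, c j • t j))) :=
        cnt_mono fun t h => h.2
      gcongr
  have h3 := cnt_bad_tuple (W := W) r s (by omega) (by omega)
  rw [← hm] at h3
  have h4 : (m + 1 - r).choose 2 = (m - r).choose 2 + (m - r) := by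
    have h5 : m + 1 - r = (m - r) + 1 := by omega
    rw [h5, Nat.choose_succ_succ' (m - r) 1]; simp; ring
  have h5 : m + 1 - (s + 1) = m - s := by omega
  rw [h4, h5] at h3
  have hexp : r + r * (s + 1) + (m - s).choose 2 + (a / 4) * (m / 4) ≤ m.choose 2 + m := by
    have e1 := choose_two_add (m - s) s
    have e2 : m - s + s = m := by omega
    rw [e2] at e1
    rw [e1]
    have e3 : (a / 4) * (m / 4) ≤ s * (m / 4) := Nat.mul_le_mul_right _ (by omega)
    have e4 : r * s + s * (m / 4) ≤ s * (m - s) := by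
      have : r + m / 4 ≤ m - s := by omega
      calc r * s + s * (m / 4) = s * (r + m / 4) := by ring
        _ ≤ _ := Nat.mul_le_mul_left _ this
    have e5 : r + r * (s + 1) = 2 * r + r * s := by ring
    rw [e5]
    omega
  calc _ ≤ (cnt (BadP z r s) * 2 ^ (m - r)) * 2 ^ ((a / 4) * (m / 4)) :=
        Nat.mul_le_mul_right _ h1
    _ ≤ ((cnt (fun t : Fin r → W → ZMod 2 => IsoTuple t ∧
      2 ^ s < cnt (fun c : Fin r → ZMod 2 => KZ t (∑ j, c j • t j))) * 2 ^ r *
      2 ^ (m - r).choose 2) * 2 ^ (m - r)) * 2 ^ ((a / 4) * (m / 4)) := by gcongr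
    _ = (cnt (fun t : Fin r → W → ZMod 2 => IsoTuple t ∧
      2 ^ s < cnt (fun c : Fin r → ZMod 2 => KZ t (∑ j, c j • t j))) *
        2 ^ ((m - r).choose 2 + (m - r))) * (2 ^ r * 2 ^ ((a / 4) * (m / 4))) := by
        rw [pow_add]; ring
    _ ≤ ((m + 1) ^ m * (2 ^ (r * (s + 1)) * 2 ^ (m - s).choose 2)) *
        (2 ^ r * 2 ^ ((a / 4) * (m / 4))) := Nat.mul_le_mul_right _ h3
    _ = (m + 1) ^ m * 2 ^ (r + r * (s + 1) + (m - s).choose 2 + (a / 4) * (m / 4)) := by
        simp only [pow_add]; ring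
    _ ≤ _ := Nat.mul_le_mul_left _ (Nat.pow_le_pow_right (by norm_num) hexp)

/-- **Class IIb.** The difference vector has a Krylov space of dimension more than `a`. -/
theorem cnt_pair_IIb (z : W → ZMod 2) (hz0 : z ≠ 0) (hz1 : z ≠ 1) (a : ℕ) (ha : 1 ≤ a) :
    (cnt (fun p : SimpleGraph W × (W → ZMod 2) => ¬ Small p.1 a z ∧ IC p.1 z p.2) : ℝ) ≤
      Fintype.card W * ((4 * 2 ^ (Fintype.card W).choose 2) / 2 ^ (a / 4) +
        (Fintype.card W + 1) ^ Fintype.card W *
        2 ^ ((Fintype.card W).choose 2 + Fintype.card W) / 2 ^ ((a / 4) * (Fintype.card W / 4))) := by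
  classical
  set m := Fintype.card W with hm
  rcases Nat.eq_zero_or_pos m with hm0 | hmpos
  · -- no vertices
    have hW : IsEmpty W := Fintype.card_eq_zero_iff.1 (by rw [← hm, hm0])
    exact absurd (Subsingleton.elim z 0) hz0
  have h1 : cnt (fun p : SimpleGraph W × (W → ZMod 2) => ¬ Small p.1 a z ∧ IC p.1 z p.2) ≤
      ∑ r ∈ (Finset.Icc 1 (m / 2)).filter (fun r => a < r),
        (cnt (fun p : SimpleGraph W × (W → ZMod 2) => GoodP z r (r / 4) p.1 ∧
          ConsB (adjM (ZMod 2) p.1) z p.2) +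
        cnt (fun p : SimpleGraph W × (W → ZMod 2) => BadP z r (r / 4) p.1 ∧
          ConsB (adjM (ZMod 2) p.1) z p.2)) := by
    refine le_trans (cnt_mono ?_) ((cnt_exists_le ((Finset.Icc 1 (m / 2)).filter (fun r => a < r))
      (fun r (p : SimpleGraph W × (W → ZMod 2)) => (GoodP z r (r / 4) p.1 ∧
          ConsB (adjM (ZMod 2) p.1) z p.2) ∨ (BadP z r (r / 4) p.1 ∧
          ConsB (adjM (ZMod 2) p.1) z p.2))).trans ?_)
    · rintro ⟨G, b⟩ ⟨hs, h⟩
      obtain ⟨r, hr1, hr2, hr3⟩ := exists_r hz0 h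
      have har : a < r := by
        by_contra hle
        exact hs ⟨r, by omega, hr3⟩
      refine ⟨r, Finset.mem_filter.2 ⟨Finset.mem_Icc.2 ⟨hr1, by omega⟩, har⟩, ?_⟩
      rcases Nat.lt_or_ge (2 ^ (r / 4)) (cnt (fun c : Fin r → ZMod 2 =>
        KZ (fun i : Fin r => kr (adjM (ZMod 2) G) z i)
        (∑ j, c j • kr (adjM (ZMod 2) G) z j))) with hlt | hge
      · exact Or.inr ⟨⟨hr3, h.isoK, hlt⟩, h.consB⟩
      · exact Or.inl ⟨⟨hr3, h.isoK, ⟨b, h.consB⟩, hge⟩, h.consB⟩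
    · refine Finset.sum_le_sum fun r _ => ?_
      simp only [cnt_eq]
      refine (Finset.card_le_card ?_).trans (Finset.card_union_le _ _)
      intro p hp
      simp only [Finset.mem_union, Finset.mem_filter, Finset.mem_univ, true_and] at hp ⊢
      exact hp
  have h2 : ∀ r ∈ (Finset.Icc 1 (m / 2)).filter (fun r => a < r),
      (((cnt (fun p : SimpleGraph W × (W → ZMod 2) => GoodP z r (r / 4) p.1 ∧
          ConsB (adjM (ZMod 2) p.1) z p.2) +
        cnt (fun p : SimpleGraph W × (W → ZMod 2) => BadP z r (r / 4) p.1 ∧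
          ConsB (adjM (ZMod 2) p.1) z p.2)) : ℕ) : ℝ) ≤ (4 * 2 ^ m.choose 2) / 2 ^ (a / 4) +
        (m + 1) ^ m * 2 ^ (m.choose 2 + m) / 2 ^ ((a / 4) * (m / 4)) := by
    intro r hr
    rw [Finset.mem_filter, Finset.mem_Icc] at hr
    have h3 := cnt_good_pair z hz1 r hr.1.1 (by omega) a (by omega) hmpos
    have h4 := cnt_bad_pair z r (by omega) (by omega) a (by omega)
    rw [← hm] at h3 h4
    push_cast
    refine add_le_add ?_ ?_
    · rw [le_div_iff₀ (by positivity)]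
      exact_mod_cast h3
    · rw [le_div_iff₀ (by positivity)]
      exact_mod_cast h4
  calc (cnt (fun p : SimpleGraph W × (W → ZMod 2) => ¬ Small p.1 a z ∧ IC p.1 z p.2) : ℝ) ≤
        ((∑ r ∈ (Finset.Icc 1 (m / 2)).filter (fun r => a < r),
        (cnt (fun p : SimpleGraph W × (W → ZMod 2) => GoodP z r (r / 4) p.1 ∧
          ConsB (adjM (ZMod 2) p.1) z p.2) +
        cnt (fun p : SimpleGraph W × (W → ZMod 2) => BadP z r (r / 4) p.1 ∧
          ConsB (adjM (ZMod 2) p.1) z p.2)) : ℕ) : ℝ) := by exact_mod_cast h1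
    _ ≤ ∑ _r ∈ (Finset.Icc 1 (m / 2)).filter (fun r => a < r),
        ((4 * 2 ^ m.choose 2) / 2 ^ (a / 4) +
        (m + 1) ^ m * 2 ^ (m.choose 2 + m) / 2 ^ ((a / 4) * (m / 4)) : ℝ) := by
        rw [Nat.cast_sum]
        exact Finset.sum_le_sum h2
    _ = (((Finset.Icc 1 (m / 2)).filter (fun r => a < r)).card : ℝ) *
        ((4 * 2 ^ m.choose 2) / 2 ^ (a / 4) +
        (m + 1) ^ m * 2 ^ (m.choose 2 + m) / 2 ^ ((a / 4) * (m / 4))) := by
        rw [Finset.sum_const, nsmul_eq_mul]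
    _ ≤ _ := by
        refine mul_le_mul_of_nonneg_right ?_ (by positivity)
        have h5 : ((Finset.Icc 1 (m / 2)).filter (fun r => a < r)).card ≤ m := by
          refine (Finset.card_filter_le _ _).trans ?_
          rw [Nat.card_Icc]; omega
        exact_mod_cast h5

end Pool.Agent.Helper185_DS
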