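import Mathlib
import Pool.Agent.Helper185_DS.Assemble1

/-!
# The total number of pairs (graph, vector) with another vector having the same moments
-/

set_option autoImplicit false
set_option linter.unusedSectionVars false
set_option linter.unusedSimpArgs false

namespace Pool.Agent.Helper185_DS

open Matrix Finset

lemma cnt_or_le {α : Type*} [Finite α] (P Q : α → Prop) :
    cnt (fun x => P x ∨ Q x) ≤ cnt P + cnt Q := by
  classical
  have := Fintype.ofFinite α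
  simp only [cnt_eq]
  refine (Finset.card_le_card ?_).trans (Finset.card_union_le _ _)
  intro p hp
  simp only [Finset.mem_union, Finset.mem_filter, Finset.mem_univ, true_and] at hp ⊢
  exact hp

lemma cnt_prod_const {α β : Type*} [Finite α] [Finite β] (P : α → Prop) :
    cnt (fun p : α × β => P p.1) ≤ cnt P * Nat.card β := by
  have h := cnt_prod_le (β := β) P (fun _ _ => True) (Nat.card β) fun a _ => cnt_le_card _
  refine le_trans (cnt_mono ?_) h
  intro p hp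
  exact ⟨hp, trivial⟩

variable {W : Type*} [Fintype W] [LinearOrder W]

lemma cnt_shift_pair (z : W → ZMod 2) (P : SimpleGraph W → Prop) :
    cnt (fun p : SimpleGraph W × (W → ZMod 2) => P p.1 ∧ IC p.1 z (p.2 + z)) =
      cnt (fun p : SimpleGraph W × (W → ZMod 2) => P p.1 ∧ IC p.1 z p.2) :=
  cnt_equiv ((Equiv.refl (SimpleGraph W)).prodCongr (Equiv.addRight z)) fun _ => Iff.rfl

/-- The weight of a vector. -/
def wt (z : W → ZMod 2) : ℕ := (univ.filter fun i => z i = 1).card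

lemma wt_compl (z : W → ZMod 2) : wt z + (univ.filter fun i => z i = 0).card = Fintype.card W := by
  have := Finset.card_filter_add_card_filter_not (s := (univ : Finset W)) (fun i => z i = 1)
  rw [Finset.card_univ] at this
  rw [← this, wt]
  congr 2
  ext i
  simp only [Finset.mem_filter, Finset.mem_univ, true_and]
  generalize z i = x; revert x; decide

/-- Vectors of low weight or low co-weight. -/
lemma cnt_classI (w0 : ℕ) :
    cnt (fun z : W → ZMod 2 => ¬ (w0 ≤ wt z ∧ w0 + wt z ≤ Fintype.card W)) ≤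
      2 * cnt (fun z : W → ZMod 2 => wt z < w0) := by
  have h1 : cnt (fun z : W → ZMod 2 => ¬ (w0 ≤ wt z ∧ w0 + wt z ≤ Fintype.card W)) ≤
      cnt (fun z : W → ZMod 2 => wt z < w0 ∨ Fintype.card W < w0 + wt z) := by
    refine cnt_mono fun z hz => ?_
    omega
  have h2 : cnt (fun z : W → ZMod 2 => Fintype.card W < w0 + wt z) ≤
      cnt (fun z : W → ZMod 2 => wt z < w0) := by
    refine cnt_le_of_inj (fun z => z + 1) ?_ ?_
    · intro z hz
      have h3 := wt_compl z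
      have h4 : wt (z + 1) = (univ.filter fun i => z i = 0).card := by
        rw [wt]
        congr 1
        ext i
        simp only [Finset.mem_filter, Finset.mem_univ, true_and, Pi.add_apply, Pi.one_apply]
        generalize z i = x; revert x; decide
      rw [h4]; omega
    · intro z z' _ _ h
      exact add_right_cancel h
  refine h1.trans ((cnt_or_le _ _).trans ?_)
  omega

/-- The count for typical graphs and differences with small Krylov space. -/
lemma cnt_typical (q : ℕ) (hq : 300 * q ≤ Fintype.card W) (G : SimpleGraph W)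
    (h1 : cnt (Small G q) < 2 ^ (3 * q)) (h2 : cnt (Small G (10 * q)) < 2 ^ (3 * (10 * q)))
    (h3 : ∀ Z : Finset W, Fintype.card W ≤ 2 * Z.card →
      Module.finrank (ZMod 2) (NZ (adjM (ZMod 2) G) Z) < 2 * q) :
    cnt (fun b : W → ZMod 2 => ∃ z, (37 * q ≤ wt z ∧ 37 * q + wt z ≤ Fintype.card W) ∧
      Small G q z ∧ IC G z (b + z)) ≤ 2 * 2 ^ (Fintype.card W - q) := by
  classical
  set m := Fintype.card W with hm
  have h4 : cnt (fun b : W → ZMod 2 => ∃ z, (37 * q ≤ wt z ∧ 37 * q + wt z ≤ m) ∧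
      Small G q z ∧ IC G z (b + z)) ≤
      cnt (fun z => Small G q z ∧ (37 * q ≤ wt z ∧ 37 * q + wt z ≤ m)) *
        (2 ^ (m - 37 * q) * (2 ^ (3 * (10 * q)) * 2 ^ (3 * q)) + 2 ^ (m - 4 * q)) := by
    refine cnt_fiber_le _ (fun b z => IC G z (b + z)) _ _ ?_ ?_
    · rintro b ⟨z, hz1, hz2, hz3⟩
      exact ⟨z, ⟨hz2, hz1⟩, hz3⟩
    · rintro z ⟨⟨r, hr, hchain⟩, hz1, hz2⟩
      have e1 : cnt (fun b : W → ZMod 2 => (∃ z, (37 * q ≤ wt z ∧ 37 * q + wt z ≤ m) ∧
          Small G q z ∧ IC G z (b + z)) ∧ IC G z (b + z)) ≤ cnt (IC G z) := by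
        refine cnt_le_of_inj (fun b => b + z) (fun b hb => hb.2) ?_
        intro b b' _ _ h
        exact add_right_cancel h
      refine e1.trans ?_
      obtain ⟨Z, hZ, hle⟩ := cnt_IC_le G z r q (10 * q) (4 * q) q hr hchain h1.le h2.le
        (fun Z hZ => (h3 Z hZ).le) (by omega)
      rw [← hm] at hle
      have h5 := wt_compl z
      rw [← hm] at h5
      have h6 : 37 * q ≤ Z.card ∧ 37 * q + Z.card ≤ m := by
        rcases hZ with h | h
        · rw [h]; exact ⟨hz1, hz2⟩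
        · rw [h]; exact ⟨by omega, by omega⟩
      refine hle.trans (Nat.add_le_add ?_ ?_)
      · exact Nat.mul_le_mul_right _ (Nat.pow_le_pow_right (by norm_num) (by omega))
      · rw [← pow_add]
        exact Nat.pow_le_pow_right (by norm_num) (by omega)
  refine h4.trans ?_
  have h5 : cnt (fun z => Small G q z ∧ (37 * q ≤ wt z ∧ 37 * q + wt z ≤ m)) ≤ 2 ^ (3 * q) :=
    (cnt_mono fun z h => h.1).trans h1.le
  calc _ ≤ 2 ^ (3 * q) * (2 ^ (m - 37 * q) * (2 ^ (3 * (10 * q)) * 2 ^ (3 * q)) + 2 ^ (m - 4 * q)) :=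
        Nat.mul_le_mul_right _ h5
    _ = 2 ^ (3 * q + (m - 37 * q) + 3 * (10 * q) + 3 * q) + 2 ^ (3 * q + (m - 4 * q)) := by
        simp only [pow_add]; ring
    _ = 2 ^ (m - q) + 2 ^ (m - q) := by
        congr 2
        · omega
        · omega
    _ = _ := by ring

/-- **Total count.** -/
theorem cnt_total (q : ℕ) (hq1 : 1 ≤ q) (hq : 300 * q ≤ Fintype.card W) :
    (cnt (fun p : SimpleGraph W × (W → ZMod 2) => ∃ z, z ≠ 0 ∧ IC p.1 z (p.2 + z)) : ℝ) ≤
      2 ^ ((Fintype.card W).choose 2 + Fintype.card W) *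
      (2 / 2 ^ q + 2 / 2 ^ (10 * q) + 2 ^ Fintype.card W / 2 ^ (q * (2 * q - 1)) +
        8 * cnt (fun z : W → ZMod 2 => wt z < 37 * q) * Fintype.card W / 2 ^ Fintype.card W +
        4 * Fintype.card W * 2 ^ (Fintype.card W / 2) / 2 ^ Fintype.card W +
        Fintype.card W * (4 / 2 ^ (q / 4) + (Fintype.card W + 1) ^ Fintype.card W *
          2 ^ Fintype.card W / 2 ^ ((q / 4) * (Fintype.card W / 4))) + 2 / 2 ^ q) := by
  classical
  set m := Fintype.card W with hm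
  have hm1 : 1 ≤ m := by omega
  have hcardV : Nat.card (W → ZMod 2) = 2 ^ m := by
    rw [Nat.card_eq_fintype_card, Fintype.card_fun, ZMod.card]
  have hcardG : Nat.card (SimpleGraph W) = 2 ^ m.choose 2 := by
    rw [natCard_graph, Nat.card_eq_fintype_card]
  let N1 : SimpleGraph W → Prop := fun G => 2 ^ (3 * q) ≤ cnt (Small G q)
  let N2 : SimpleGraph W → Prop := fun G => 2 ^ (3 * (10 * q)) ≤ cnt (Small G (10 * q))
  let N3 : SimpleGraph W → Prop := fun G => ∃ Z : Finset W, m ≤ 2 * Z.card ∧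
    2 * q ≤ Module.finrank (ZMod 2) (NZ (adjM (ZMod 2) G) Z)
  let P4 : SimpleGraph W × (W → ZMod 2) → Prop := fun p =>
    ∃ z, (z ≠ 0 ∧ z ≠ 1 ∧ ¬ (37 * q ≤ wt z ∧ 37 * q + wt z ≤ m)) ∧ IC p.1 z (p.2 + z)
  let P5 : SimpleGraph W × (W → ZMod 2) → Prop := fun p => (1 : W → ZMod 2) ≠ 0 ∧ IC p.1 1 (p.2 + 1)
  let P6 : SimpleGraph W × (W → ZMod 2) → Prop := fun p =>
    ∃ z, (z ≠ 0 ∧ z ≠ 1) ∧ (¬ Small p.1 q z ∧ IC p.1 z (p.2 + z))
  let P7 : SimpleGraph W × (W → ZMod 2) → Prop := fun p => (¬ N1 p.1 ∧ ¬ N2 p.1 ∧ ¬ N3 p.1) ∧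
    ∃ z, (37 * q ≤ wt z ∧ 37 * q + wt z ≤ m) ∧ Small p.1 q z ∧ IC p.1 z (p.2 + z)
  have hcover : cnt (fun p : SimpleGraph W × (W → ZMod 2) => ∃ z, z ≠ 0 ∧ IC p.1 z (p.2 + z)) ≤
      cnt (fun p : SimpleGraph W × (W → ZMod 2) => N1 p.1) +
      (cnt (fun p : SimpleGraph W × (W → ZMod 2) => N2 p.1) +
      (cnt (fun p : SimpleGraph W × (W → ZMod 2) => N3 p.1) +
      (cnt P4 + (cnt P5 + (cnt P6 + cnt P7))))) := by
    refine le_trans (cnt_mono (Q := fun p => N1 p.1 ∨ (N2 p.1 ∨ (N3 p.1 ∨ (P4 p ∨ (P5 p ∨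
      (P6 p ∨ P7 p)))))) ?_) ?_
    · rintro ⟨G, b⟩ ⟨z, hz, h⟩
      by_cases h1 : N1 G
      · exact Or.inl h1
      by_cases h2 : N2 G
      · exact Or.inr (Or.inl h2)
      by_cases h3 : N3 G
      · exact Or.inr (Or.inr (Or.inl h3))
      refine Or.inr (Or.inr (Or.inr ?_))
      by_cases hz1 : z = 1
      · rw [hz1] at h hz
        exact Or.inr (Or.inl ⟨hz, h⟩)
      by_cases hcl : 37 * q ≤ wt z ∧ 37 * q + wt z ≤ m
      · refine Or.inr (Or.inr ?_)
        by_cases hs : Small G q z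
        · exact Or.inr ⟨⟨h1, h2, h3⟩, z, hcl, hs, h⟩
        · exact Or.inl ⟨z, ⟨hz, hz1⟩, hs, h⟩
      · exact Or.inl ⟨z, ⟨hz, hz1, hcl⟩, h⟩
    · refine (cnt_or_le _ _).trans (Nat.add_le_add_left ?_ _)
      refine (cnt_or_le _ _).trans (Nat.add_le_add_left ?_ _)
      refine (cnt_or_le _ _).trans (Nat.add_le_add_left ?_ _)
      refine (cnt_or_le _ _).trans (Nat.add_le_add_left ?_ _)
      refine (cnt_or_le _ _).trans (Nat.add_le_add_left ?_ _)
      exact cnt_or_le _ _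
  -- the seven counts
  have hpow : ∀ k, k ≤ m → cnt (fun G : SimpleGraph W => 2 ^ (3 * k) ≤ cnt (Small G k)) * 2 ^ k ≤
      2 * 2 ^ m.choose 2 := by
    intro k hk
    have h := cnt_small (W := W) k hk
    have e : 2 ^ (3 * k) = 2 ^ k * 2 ^ (2 * k) := by rw [← pow_add]; congr 1; ring
    rw [← hm] at h
    have h' : (cnt (fun G : SimpleGraph W => 2 ^ (3 * k) ≤ cnt (Small G k)) * 2 ^ k) * 2 ^ (2 * k) ≤
        (2 * 2 ^ m.choose 2) * 2 ^ (2 * k) := by
      calc _ = cnt (fun G : SimpleGraph W => 2 ^ (3 * k) ≤ cnt (Small G k)) * 2 ^ (3 * k) := by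
            rw [e]; ring
        _ ≤ _ := h
        _ = _ := by rw [pow_succ]; ring
    exact Nat.le_of_mul_le_mul_right h' (by positivity)
  have c1 : (cnt (fun p : SimpleGraph W × (W → ZMod 2) => N1 p.1) : ℝ) ≤
      2 ^ (m.choose 2 + m) * (2 / 2 ^ q) := by
    have h := cnt_prod_const (β := W → ZMod 2) N1
    rw [hcardV] at h
    have h2 := hpow q (by omega)
    have h3 : (cnt N1 : ℝ) * 2 ^ q ≤ 2 * 2 ^ m.choose 2 := by exact_mod_cast h2
    have h4 : (cnt (fun p : SimpleGraph W × (W → ZMod 2) => N1 p.1) : ℝ) ≤ cnt N1 * 2 ^ m := by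
      exact_mod_cast h
    rw [← mul_div_assoc, le_div_iff₀ (by positivity)]
    calc _ ≤ (cnt N1 * 2 ^ m : ℝ) * 2 ^ q := by gcongr
      _ = (cnt N1 * 2 ^ q : ℝ) * 2 ^ m := by ring
      _ ≤ (2 * 2 ^ m.choose 2) * 2 ^ m := by gcongr
      _ = _ := by rw [pow_add]; ring
  have c2 : (cnt (fun p : SimpleGraph W × (W → ZMod 2) => N2 p.1) : ℝ) ≤
      2 ^ (m.choose 2 + m) * (2 / 2 ^ (10 * q)) := by
    have h := cnt_prod_const (β := W → ZMod 2) N2
    rw [hcardV] at h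
    have h2 := hpow (10 * q) (by omega)
    have h3 : (cnt N2 : ℝ) * 2 ^ (10 * q) ≤ 2 * 2 ^ m.choose 2 := by exact_mod_cast h2
    have h4 : (cnt (fun p : SimpleGraph W × (W → ZMod 2) => N2 p.1) : ℝ) ≤ cnt N2 * 2 ^ m := by
      exact_mod_cast h
    rw [← mul_div_assoc, le_div_iff₀ (by positivity)]
    calc _ ≤ (cnt N2 * 2 ^ m : ℝ) * 2 ^ (10 * q) := by gcongr
      _ = (cnt N2 * 2 ^ (10 * q) : ℝ) * 2 ^ m := by ring
      _ ≤ (2 * 2 ^ m.choose 2) * 2 ^ m := by gcongr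
      _ = _ := by rw [pow_add]; ring
  have c3 : (cnt (fun p : SimpleGraph W × (W → ZMod 2) => N3 p.1) : ℝ) ≤
      2 ^ (m.choose 2 + m) * (2 ^ m / 2 ^ (q * (2 * q - 1))) := by
    have h := cnt_prod_const (β := W → ZMod 2) N3
    rw [hcardV] at h
    have h2 : cnt N3 * 2 ^ (q * (2 * q - 1)) ≤ 2 ^ m * 2 ^ m.choose 2 := by
      have e1 := cnt_fiber_le2 N3 (fun G (Z : Finset W) => m ≤ 2 * Z.card ∧
        2 * q ≤ Module.finrank (ZMod 2) (NZ (adjM (ZMod 2) G) Z)) (fun Z => m ≤ 2 * Z.card)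
        (2 ^ (q * (2 * q - 1))) (2 ^ m.choose 2) ?_ ?_
      · refine e1.trans (Nat.mul_le_mul_right _ ((cnt_le_card _).trans ?_))
        rw [Nat.card_eq_fintype_card, Fintype.card_finset]
      · rintro G ⟨Z, hZ1, hZ2⟩
        exact ⟨Z, hZ1, hZ1, hZ2⟩
      · intro Z hZ
        refine le_trans (Nat.mul_le_mul_right _ (cnt_mono ?_)) (cnt_nullity Z hZ q)
        rintro G ⟨_, _, hG⟩
        exact hG
    have h3 : (cnt N3 : ℝ) * 2 ^ (q * (2 * q - 1)) ≤ 2 ^ m * 2 ^ m.choose 2 := by exact_mod_cast h2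
    have h4 : (cnt (fun p : SimpleGraph W × (W → ZMod 2) => N3 p.1) : ℝ) ≤ cnt N3 * 2 ^ m := by
      exact_mod_cast h
    rw [← mul_div_assoc, le_div_iff₀ (by positivity)]
    calc _ ≤ (cnt N3 * 2 ^ m : ℝ) * 2 ^ (q * (2 * q - 1)) := by gcongr
      _ = (cnt N3 * 2 ^ (q * (2 * q - 1)) : ℝ) * 2 ^ m := by ring
      _ ≤ (2 ^ m * 2 ^ m.choose 2) * 2 ^ m := by gcongr
      _ = _ := by rw [pow_add]; ring
  have c4 : (cnt P4 : ℝ) ≤ 2 ^ (m.choose 2 + m) *
      (8 * cnt (fun z : W → ZMod 2 => wt z < 37 * q) * m / 2 ^ m) := by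
    have e1 : cnt P4 ≤ cnt (fun z : W → ZMod 2 =>
        z ≠ 0 ∧ z ≠ 1 ∧ ¬ (37 * q ≤ wt z ∧ 37 * q + wt z ≤ m)) * (m * (4 * 2 ^ m.choose 2)) := by
      refine cnt_fiber_le P4 (fun p z => IC p.1 z (p.2 + z)) _ _ ?_ ?_
      · rintro p ⟨z, hz, h⟩
        exact ⟨z, hz, h⟩
      · rintro z ⟨hz0, hz1, _⟩
        have e2 := cnt_shift_pair z (fun _ => True)
        have e3 : cnt (fun p : SimpleGraph W × (W → ZMod 2) => P4 p ∧ IC p.1 z (p.2 + z)) ≤
            cnt (fun p : SimpleGraph W × (W → ZMod 2) => True ∧ IC p.1 z (p.2 + z)) :=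
          cnt_mono fun p hp => ⟨trivial, hp.2⟩
        rw [e2] at e3
        refine e3.trans (le_trans (cnt_mono ?_) (cnt_pair_I z hz0 hz1 hm1))
        intro p hp
        exact hp.2
    have e4 : cnt (fun z : W → ZMod 2 =>
        z ≠ 0 ∧ z ≠ 1 ∧ ¬ (37 * q ≤ wt z ∧ 37 * q + wt z ≤ m)) ≤
        2 * cnt (fun z : W → ZMod 2 => wt z < 37 * q) :=
      (cnt_mono fun z hz => hz.2.2).trans (cnt_classI (37 * q))
    have e5 : (cnt P4 : ℝ) ≤ (2 * cnt (fun z : W → ZMod 2 => wt z < 37 * q)) *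
        (m * (4 * 2 ^ m.choose 2)) := by
      exact_mod_cast e1.trans (Nat.mul_le_mul_right _ e4)
    refine e5.trans (le_of_eq ?_)
    rw [pow_add]
    field_simp
    ring
  have c5 : (cnt P5 : ℝ) ≤ 2 ^ (m.choose 2 + m) * (4 * m * 2 ^ (m / 2) / 2 ^ m) := by
    have e1 : cnt P5 ≤ m * (4 * 2 ^ m.choose 2 * 2 ^ (m / 2)) := by
      by_cases h0 : (1 : W → ZMod 2) ≠ 0
      · have e2 := cnt_shift_pair (1 : W → ZMod 2) (fun _ => True)
        have e3 : cnt P5 ≤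
            cnt (fun p : SimpleGraph W × (W → ZMod 2) => True ∧ IC p.1 1 (p.2 + 1)) :=
          cnt_mono fun p hp => ⟨trivial, hp.2⟩
        rw [e2] at e3
        refine e3.trans (le_trans (cnt_mono ?_) (cnt_pair_one 1 h0 hm1))
        intro p hp
        exact hp.2
      · rw [cnt_eq_zero fun p hp => h0 hp.1]
        exact Nat.zero_le _
    have e5 : (cnt P5 : ℝ) ≤ m * (4 * 2 ^ m.choose 2 * 2 ^ (m / 2)) := by exact_mod_cast e1
    refine e5.trans (le_of_eq ?_)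
    rw [pow_add]
    field_simp
  have c6 : (cnt P6 : ℝ) ≤ 2 ^ (m.choose 2 + m) * (m * (4 / 2 ^ (q / 4) + (m + 1) ^ m *
          2 ^ m / 2 ^ ((q / 4) * (m / 4)))) := by
    have e1 : cnt P6 ≤ ∑ z : W → ZMod 2, (if z ≠ 0 ∧ z ≠ 1 then
        cnt (fun p : SimpleGraph W × (W → ZMod 2) => ¬ Small p.1 q z ∧ IC p.1 z p.2) else 0) := by
      refine (cnt_exists_le' (fun (z : W → ZMod 2) (p : SimpleGraph W × (W → ZMod 2)) =>
        (z ≠ 0 ∧ z ≠ 1) ∧ (¬ Small p.1 q z ∧ IC p.1 z (p.2 + z)))).trans ?_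
      refine Finset.sum_le_sum fun z _ => ?_
      split_ifs with hz
      · rw [← cnt_shift_pair z (fun G => ¬ Small G q z)]
        exact cnt_mono fun p hp => hp.2
      · rw [cnt_eq_zero fun p hp => hz hp.1]
    have e2 : ∀ z : W → ZMod 2, ((if z ≠ 0 ∧ z ≠ 1 then
        cnt (fun p : SimpleGraph W × (W → ZMod 2) => ¬ Small p.1 q z ∧ IC p.1 z p.2) else 0 : ℕ) : ℝ) ≤
        m * ((4 * 2 ^ m.choose 2) / 2 ^ (q / 4) +
        (m + 1) ^ m * 2 ^ (m.choose 2 + m) / 2 ^ ((q / 4) * (m / 4))) := by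
      intro z
      split_ifs with hz
      · exact cnt_pair_IIb z hz.1 hz.2 q hq1
      · push_cast; positivity
    calc (cnt P6 : ℝ) ≤ ((∑ z : W → ZMod 2, (if z ≠ 0 ∧ z ≠ 1 then
        cnt (fun p : SimpleGraph W × (W → ZMod 2) => ¬ Small p.1 q z ∧ IC p.1 z p.2) else 0) : ℕ) : ℝ) := by
          exact_mod_cast e1
      _ ≤ ∑ _z : W → ZMod 2, (m * ((4 * 2 ^ m.choose 2) / 2 ^ (q / 4) +
        (m + 1) ^ m * 2 ^ (m.choose 2 + m) / 2 ^ ((q / 4) * (m / 4))) : ℝ) := by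
          rw [Nat.cast_sum]
          exact Finset.sum_le_sum fun z _ => e2 z
      _ = 2 ^ m * (m * ((4 * 2 ^ m.choose 2) / 2 ^ (q / 4) +
        (m + 1) ^ m * 2 ^ (m.choose 2 + m) / 2 ^ ((q / 4) * (m / 4)))) := by
          rw [Finset.sum_const, nsmul_eq_mul, Finset.card_univ, ← Nat.card_eq_fintype_card, hcardV]
          push_cast; rfl
      _ = _ := by rw [pow_add]; ring
  have c7 : (cnt P7 : ℝ) ≤ 2 ^ (m.choose 2 + m) * (2 / 2 ^ q) := by
    have e1 : cnt P7 ≤ 2 ^ m.choose 2 * (2 * 2 ^ (m - q)) := by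
      refine (cnt_prod_le (fun G : SimpleGraph W => ¬ N1 G ∧ ¬ N2 G ∧ ¬ N3 G)
        (fun G b => ∃ z, (37 * q ≤ wt z ∧ 37 * q + wt z ≤ m) ∧ Small G q z ∧ IC G z (b + z))
        (2 * 2 ^ (m - q)) ?_).trans ?_
      · rintro G ⟨g1, g2, g3⟩
        refine cnt_typical q hq G (not_le.1 g1) (not_le.1 g2) ?_
        intro Z hZ
        by_contra hge
        exact g3 ⟨Z, hZ, not_lt.1 hge⟩
      · refine Nat.mul_le_mul_right _ ((cnt_le_card _).trans (le_of_eq hcardG))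
    have e5 : (cnt P7 : ℝ) ≤ 2 ^ m.choose 2 * (2 * 2 ^ (m - q)) := by exact_mod_cast e1
    refine e5.trans (le_of_eq ?_)
    have e6 : (2 : ℝ) ^ m = 2 ^ (m - q) * 2 ^ q := by rw [← pow_add]; congr 1; omega
    rw [pow_add, e6]
    field_simp
  have hfin : (cnt (fun p : SimpleGraph W × (W → ZMod 2) => ∃ z, z ≠ 0 ∧ IC p.1 z (p.2 + z)) : ℝ) ≤
      cnt (fun p : SimpleGraph W × (W → ZMod 2) => N1 p.1) +
      (cnt (fun p : SimpleGraph W × (W → ZMod 2) => N2 p.1) +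
      (cnt (fun p : SimpleGraph W × (W → ZMod 2) => N3 p.1) +
      (cnt P4 + (cnt P5 + (cnt P6 + cnt P7))))) := by exact_mod_cast hcover
  refine hfin.trans ?_
  have := add_le_add c1 (add_le_add c2 (add_le_add c3 (add_le_add c4 (add_le_add c5
    (add_le_add c6 c7)))))
  refine this.trans (le_of_eq ?_)
  ring

end Pool.Agent.Helper185_DS
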