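import Mathlib
import Pool.Agent.Helper185_DS.Assemble2

/-!
# Asymptotics of the total count
-/

set_option autoImplicit false
set_option linter.unusedSectionVars false
set_option linter.unusedSimpArgs false

namespace Pool.Agent.Helper185_DS

open Matrix Finset Filter Topology

/-- Few vectors have small weight. -/
lemma cnt_wt_lt (m w : ℕ) :
    (cnt (fun z : Fin m → ZMod 2 => wt z < w) : ℝ) ≤ 7 ^ w * (8 / 7) ^ m := by
  classical
  have h1 : ∑ z : Fin m → ZMod 2, (1 / 7 : ℝ) ^ wt z = (8 / 7) ^ m := by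
    have h2 : ∀ z : Fin m → ZMod 2, (1 / 7 : ℝ) ^ wt z = ∏ i, (if z i = 1 then (1 / 7 : ℝ) else 1) := by
      intro z
      rw [Finset.prod_ite, Finset.prod_const, Finset.prod_const_one, mul_one]
      rfl
    have h3 := Finset.prod_univ_sum (fun _ : Fin m => (univ : Finset (ZMod 2)))
      (fun _ x => if x = 1 then (1 / 7 : ℝ) else 1)
    rw [Fintype.piFinset_univ] at h3
    rw [Finset.sum_congr rfl fun z _ => h2 z, ← h3]
    have h4 : ∑ x : ZMod 2, (if x = 1 then (1 / 7 : ℝ) else 1) = 8 / 7 := by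
      have : (univ : Finset (ZMod 2)) = {0, 1} := by decide
      rw [this, Finset.sum_pair (by decide)]
      norm_num
    rw [h4, Finset.prod_const, Finset.card_univ, Fintype.card_fin]
  have h5 : (cnt (fun z : Fin m → ZMod 2 => wt z < w) : ℝ) * (1 / 7) ^ w ≤ (8 / 7) ^ m := by
    rw [← h1, cnt_eq, ← nsmul_eq_mul, ← Finset.sum_const]
    refine (Finset.sum_le_sum (g := fun z => (1 / 7 : ℝ) ^ wt z) fun z hz => ?_).trans
      (Finset.sum_le_sum_of_subset_of_nonneg (Finset.filter_subset _ _)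
        fun z _ _ => by positivity)
    rw [Finset.mem_filter] at hz
    exact pow_le_pow_of_le_one (by norm_num) (by norm_num) hz.2.le
  have h6 : (7 : ℝ) ^ w * (1 / 7) ^ w = 1 := by rw [← mul_pow]; norm_num
  calc (cnt (fun z : Fin m → ZMod 2 => wt z < w) : ℝ) =
        7 ^ w * (cnt (fun z : Fin m → ZMod 2 => wt z < w) * (1 / 7) ^ w) := by
        rw [mul_left_comm, h6, mul_one]
    _ ≤ _ := by gcongr

lemma ev_small (C : ℝ) (k : ℕ) (β : ℝ) (hβ : 1 / 1300 < β) :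
    ∀ᶠ m : ℕ in atTop, C * (m : ℝ) ^ k * (2 : ℝ) ^ (-(β * m)) ≤
      (1 / 8) * (2 : ℝ) ^ (-((1 / 1300 : ℝ) * m)) := by
  set r : ℝ := (2 : ℝ) ^ (-(β - 1 / 1300)) with hr
  have hr0 : 0 ≤ r := by positivity
  have hr1 : r < 1 := Real.rpow_lt_one_of_one_lt_of_neg (by norm_num) (by linarith)
  have h1 := (tendsto_pow_const_mul_const_pow_of_lt_one k hr0 hr1).const_mul C
  rw [mul_zero] at h1
  filter_upwards [h1.eventually (eventually_le_nhds (show (0 : ℝ) < 1 / 8 by norm_num))] with m hm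
  have h2 : (2 : ℝ) ^ (-(β * m)) = r ^ m * (2 : ℝ) ^ (-((1 / 1300 : ℝ) * m)) := by
    rw [hr, ← Real.rpow_natCast, ← Real.rpow_mul (by norm_num), ← Real.rpow_add (by norm_num)]
    congr 1; ring
  rw [h2]
  have h3 : 0 ≤ (2 : ℝ) ^ (-((1 / 1300 : ℝ) * m)) := by positivity
  calc C * (m : ℝ) ^ k * (r ^ m * (2 : ℝ) ^ (-((1 / 1300 : ℝ) * m))) =
        (C * ((m : ℝ) ^ k * r ^ m)) * (2 : ℝ) ^ (-((1 / 1300 : ℝ) * m)) := by ring
    _ ≤ _ := mul_le_mul_of_nonneg_right hm h3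

lemma div_pow_le (C : ℝ) (hC : 0 ≤ C) (a : ℕ) (x : ℝ) (h : x ≤ a) :
    C / 2 ^ a ≤ C * (2 : ℝ) ^ (-x) := by
  rw [div_eq_mul_inv]
  refine mul_le_mul_of_nonneg_left ?_ hC
  rw [Real.rpow_neg (by norm_num), ← Real.rpow_natCast]
  gcongr
  norm_num

/-- **The asymptotic form of the total count.** -/
theorem total_asym : ∀ᶠ m : ℕ in atTop,
    (cnt (fun p : SimpleGraph (Fin m) × (Fin m → ZMod 2) =>
      ∃ z, z ≠ 0 ∧ IC p.1 z (p.2 + z)) : ℝ) ≤
      2 ^ (m.choose 2 + m) * (2 : ℝ) ^ (-((1 / 1300 : ℝ) * m)) := by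
  have hlog : ∀ᶠ m : ℕ in atTop, ((m : ℝ) + 1) ≤ (2 : ℝ) ^ ((1 / 20000 : ℝ) * m) := by
    have h1 : Tendsto (fun m : ℕ => (2 : ℝ) * ((m : ℝ) ^ 1 * ((2 : ℝ) ^ (-(1 / 20000 : ℝ))) ^ m))
        atTop (𝓝 (2 * 0)) :=
      (tendsto_pow_const_mul_const_pow_of_lt_one 1 (by positivity)
        (Real.rpow_lt_one_of_one_lt_of_neg (by norm_num) (by norm_num))).const_mul 2
    rw [mul_zero] at h1
    filter_upwards [h1.eventually (eventually_le_nhds (show (0 : ℝ) < 1 by norm_num)),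
      eventually_ge_atTop 1] with m hm hm1
    have h2 : ((2 : ℝ) ^ (-(1 / 20000 : ℝ))) ^ m = ((2 : ℝ) ^ ((1 / 20000 : ℝ) * m))⁻¹ := by
      rw [← Real.rpow_natCast, ← Real.rpow_mul (by norm_num), ← Real.rpow_neg (by norm_num)]
      congr 1; ring
    rw [h2, pow_one] at hm
    have h3 : 0 < (2 : ℝ) ^ ((1 / 20000 : ℝ) * m) := by positivity
    have hm1' : (1 : ℝ) ≤ m := by exact_mod_cast hm1
    have h4 : 2 * (m : ℝ) ≤ (2 : ℝ) ^ ((1 / 20000 : ℝ) * m) := by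
      have : (2 * ((m : ℝ) * ((2 : ℝ) ^ ((1 / 20000 : ℝ) * m))⁻¹)) * (2 : ℝ) ^ ((1 / 20000 : ℝ) * m) ≤
          1 * (2 : ℝ) ^ ((1 / 20000 : ℝ) * m) := mul_le_mul_of_nonneg_right hm h3.le
      rw [one_mul] at this
      calc 2 * (m : ℝ) = (2 * ((m : ℝ) * ((2 : ℝ) ^ ((1 / 20000 : ℝ) * m))⁻¹)) *
            (2 : ℝ) ^ ((1 / 20000 : ℝ) * m) := by field_simp
        _ ≤ _ := this
    linarith
  filter_upwards [eventually_ge_atTop 1000000, ev_small 4 0 (1 / 300) (by norm_num),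
    ev_small 1 0 1 (by norm_num), ev_small 8 1 (3 / 8) (by norm_num),
    ev_small 4 1 (1 / 2) (by norm_num), ev_small 8 1 (1 / 1200) (by norm_num), hlog]
    with m hm e1 e3 e4 e5 e6 hlog
  have hmR : (1000000 : ℝ) ≤ m := by exact_mod_cast hm
  set q := m / 300 with hq
  have hq300 : 300 * q ≤ m := Nat.mul_div_le m 300
  have hqlow : m < 300 * q + 300 := by omega
  have hqR : (m : ℝ) / 300 - 1 ≤ q := by
    have : (m : ℝ) ≤ 300 * q + 300 := by exact_mod_cast hqlow.le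
    linarith
  have hq1 : 1 ≤ q := by omega
  have h := cnt_total (W := Fin m) q hq1 (by rw [Fintype.card_fin]; exact hq300)
  rw [Fintype.card_fin] at h
  refine h.trans ?_
  refine mul_le_mul_of_nonneg_left ?_ (by positivity)
  set T := (1 / 8) * (2 : ℝ) ^ (-((1 / 1300 : ℝ) * m)) with hT
  -- the terms
  have t1 : (2 : ℝ) / 2 ^ q ≤ T := by
    refine le_trans ?_ e1
    refine (div_pow_le 2 (by norm_num) q ((m : ℝ) / 300 - 1) hqR).trans (le_of_eq ?_)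
    rw [show -((m : ℝ) / 300 - 1) = 1 + (-(1 / 300 * m)) by ring, Real.rpow_add (by norm_num)]
    norm_num
    ring
  have t2 : (2 : ℝ) / 2 ^ (10 * q) ≤ T := by
    refine le_trans ?_ t1
    exact div_le_div_of_nonneg_left (by norm_num) (by positivity)
      (pow_le_pow_right₀ (by norm_num) (by omega))
  have t3 : (2 : ℝ) ^ m / 2 ^ (q * (2 * q - 1)) ≤ T := by
    have h1 : 2 * m ≤ q * (2 * q - 1) := by
      have h2 : 3333 ≤ q := by omega
      have h3 : m ≤ 600 * q := by omega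
      have h4 : 1200 * q ≤ q * (2 * q - 1) := by
        rw [mul_comm 1200 q]; exact Nat.mul_le_mul_left _ (by omega)
      omega
    refine le_trans ?_ e3
    refine (div_pow_le _ (by positivity) _ (2 * m : ℝ) (by exact_mod_cast h1)).trans (le_of_eq ?_)
    rw [← Real.rpow_natCast 2 m, ← Real.rpow_add (by norm_num)]
    simp only [pow_zero, mul_one, one_mul]
    congr 1; ring
  have t4 : 8 * (cnt (fun z : Fin m → ZMod 2 => wt z < 37 * q) : ℝ) * m / 2 ^ m ≤ T := by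
    refine le_trans ?_ e4
    set B : ℝ := ((cnt (fun z : Fin m → ZMod 2 => wt z < 37 * q) : ℕ) : ℝ) with hB
    have hB0 : 0 ≤ B := by positivity
    have hB1 : B ≤ 7 ^ (37 * q) * (8 / 7) ^ m := cnt_wt_lt m (37 * q)
    have hB2 : B / 2 ^ m ≤ (2 : ℝ) ^ (-(3 / 8 * (m : ℝ))) := by
      have h1 : (B / 2 ^ m) ^ 8 ≤ ((2 : ℝ) ^ (-(3 / 8 * (m : ℝ)))) ^ 8 := by
        have h2 : ((2 : ℝ) ^ (-(3 / 8 * (m : ℝ)))) ^ 8 = (1 / 8) ^ m := by
          rw [← Real.rpow_natCast, ← Real.rpow_mul (by norm_num)]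
          have h3 : (1 / 8 : ℝ) = (2 : ℝ) ^ (-3 : ℝ) := by
            rw [Real.rpow_neg (by norm_num)]; norm_num
          rw [h3, ← Real.rpow_natCast (2 ^ (-3 : ℝ)) m, ← Real.rpow_mul (by norm_num)]
          congr 1; push_cast; ring
        rw [h2]
        have h4 : B ^ 8 ≤ (7 ^ (37 * q) * (8 / 7) ^ m) ^ 8 := pow_le_pow_left₀ hB0 hB1 8
        have h5 : ((7 : ℝ) ^ (37 * q) * (8 / 7) ^ m) ^ 8 ≤ 7 ^ m * ((8 / 7) ^ m) ^ 8 := by
          rw [mul_pow]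
          refine mul_le_mul_of_nonneg_right ?_ (by positivity)
          rw [← pow_mul]
          exact pow_le_pow_right₀ (by norm_num) (by omega)
        rw [div_pow, div_le_iff₀ (by positivity)]
        refine (h4.trans h5).trans ?_
        have h6 : (7 : ℝ) ^ m * ((8 / 7) ^ m) ^ 8 = (7 * (8 / 7) ^ 8) ^ m := by
          rw [mul_pow, ← pow_mul, ← pow_mul, mul_comm m 8]
        have h7 : (1 / 8 : ℝ) ^ m * ((2 : ℝ) ^ m) ^ 8 = (1 / 8 * 2 ^ 8) ^ m := by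
          rw [mul_pow, ← pow_mul, ← pow_mul, mul_comm m 8]
        rw [h6, h7]
        exact pow_le_pow_left₀ (by positivity) (by norm_num) m
      exact le_of_pow_le_pow_left₀ (by norm_num) (by positivity) h1
    calc 8 * B * m / 2 ^ m = 8 * (m : ℝ) ^ 1 * (B / 2 ^ m) := by ring
      _ ≤ _ := by gcongr
  have t5 : 4 * (m : ℝ) * 2 ^ (m / 2) / 2 ^ m ≤ T := by
    refine le_trans ?_ e5
    have h1 : (2 : ℝ) ^ (m / 2) ≤ (2 : ℝ) ^ ((m : ℝ) / 2) := by
      rw [← Real.rpow_natCast]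
      refine Real.rpow_le_rpow_of_exponent_le (by norm_num) ?_
      exact Nat.cast_div_le
    have h2 : (2 : ℝ) ^ (m / 2) / 2 ^ m ≤ (2 : ℝ) ^ (-(1 / 2 * (m : ℝ))) := by
      rw [div_le_iff₀ (by positivity)]
      refine h1.trans (le_of_eq ?_)
      rw [← Real.rpow_natCast 2 m, ← Real.rpow_add (by norm_num)]
      congr 1; ring
    calc 4 * (m : ℝ) * 2 ^ (m / 2) / 2 ^ m = 4 * (m : ℝ) ^ 1 * ((2 : ℝ) ^ (m / 2) / 2 ^ m) := by ring
      _ ≤ _ := by gcongr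
  have hq4 : (m : ℝ) / 1200 - 1 ≤ ((q / 4 : ℕ) : ℝ) := by
    have : m ≤ 1200 * (q / 4) + 1200 := by omega
    have : (m : ℝ) ≤ 1200 * ((q / 4 : ℕ) : ℝ) + 1200 := by exact_mod_cast this
    linarith
  have t6 : (m : ℝ) * (4 / 2 ^ (q / 4)) ≤ T := by
    refine le_trans ?_ e6
    have h1 : (4 : ℝ) / 2 ^ (q / 4) ≤ 8 * (2 : ℝ) ^ (-(1 / 1200 * (m : ℝ))) := by
      refine (div_pow_le 4 (by norm_num) (q / 4) _ hq4).trans (le_of_eq ?_)
      rw [show -((m : ℝ) / 1200 - 1) = 1 + (-(1 / 1200 * m)) by ring, Real.rpow_add (by norm_num)]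
      norm_num
      ring
    calc (m : ℝ) * (4 / 2 ^ (q / 4)) ≤ m * (8 * (2 : ℝ) ^ (-(1 / 1200 * (m : ℝ)))) := by gcongr
      _ = _ := by ring
  have t7 : (m : ℝ) * (((m : ℝ) + 1) ^ m * 2 ^ m / 2 ^ ((q / 4) * (m / 4))) ≤ T := by
    refine le_trans ?_ e3
    have h1 : (m : ℝ) * ((m : ℝ) + 1) ^ m ≤ (2 : ℝ) ^ ((1 / 20000 : ℝ) * m * (m + 1)) := by
      calc (m : ℝ) * ((m : ℝ) + 1) ^ m ≤ ((m : ℝ) + 1) * ((m : ℝ) + 1) ^ m := by gcongr; linarith
        _ = ((m : ℝ) + 1) ^ (m + 1) := by rw [pow_succ]; ring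
        _ ≤ ((2 : ℝ) ^ ((1 / 20000 : ℝ) * m)) ^ (m + 1) := pow_le_pow_left₀ (by positivity) hlog _
        _ = _ := by
            rw [← Real.rpow_natCast, ← Real.rpow_mul (by norm_num)]
            congr 1; push_cast; ring
    have hm4 : (m : ℝ) / 5 ≤ ((m / 4 : ℕ) : ℝ) := by
      have : m ≤ 5 * (m / 4) := by omega
      have : (m : ℝ) ≤ 5 * ((m / 4 : ℕ) : ℝ) := by exact_mod_cast this
      linarith
    have hq4' : (m : ℝ) / 1300 ≤ ((q / 4 : ℕ) : ℝ) := by linarith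
    have h2 : (m : ℝ) * m / 6500 ≤ (((q / 4) * (m / 4) : ℕ) : ℝ) := by
      push_cast
      calc (m : ℝ) * m / 6500 = (m / 1300) * (m / 5) := by ring
        _ ≤ _ := mul_le_mul hq4' hm4 (by positivity) (by positivity)
    calc (m : ℝ) * (((m : ℝ) + 1) ^ m * 2 ^ m / 2 ^ ((q / 4) * (m / 4))) =
          ((m : ℝ) * ((m : ℝ) + 1) ^ m) * 2 ^ m / 2 ^ ((q / 4) * (m / 4)) := by ring
      _ ≤ ((2 : ℝ) ^ ((1 / 20000 : ℝ) * m * (m + 1)) * 2 ^ m) / 2 ^ ((q / 4) * (m / 4)) := by gcongr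
      _ ≤ ((2 : ℝ) ^ ((1 / 20000 : ℝ) * m * (m + 1)) * 2 ^ m) *
          (2 : ℝ) ^ (-((m : ℝ) * m / 6500)) := div_pow_le _ (by positivity) _ _ h2
      _ = (2 : ℝ) ^ ((1 / 20000 : ℝ) * m * (m + 1) + m + -((m : ℝ) * m / 6500)) := by
          rw [Real.rpow_add (by norm_num), Real.rpow_add (by norm_num), Real.rpow_natCast]
      _ ≤ (2 : ℝ) ^ (-(1 * (m : ℝ))) := by
          refine Real.rpow_le_rpow_of_exponent_le (by norm_num) ?_
          nlinarith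
      _ = _ := by simp
  have hsum : 8 * T = (2 : ℝ) ^ (-((1 / 1300 : ℝ) * m)) := by rw [hT]; ring
  rw [← hsum]
  have t67 : (m : ℝ) * (4 / 2 ^ (q / 4) + ((m : ℝ) + 1) ^ m * 2 ^ m / 2 ^ ((q / 4) * (m / 4))) ≤
      T + T := by
    rw [mul_add]; exact add_le_add t6 t7
  linarith

end Pool.Agent.Helper185_DS
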