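import Mathlib
import Pool.Agent.Helper185_DS.Shift

/-!
# Union bound over the modifications with few edges
-/

set_option autoImplicit false
set_option linter.unusedSimpArgs false
set_option linter.unusedSectionVars false

namespace Pool.Agent.Helper185_DS

open Matrix Finset Polynomial

lemma edgeSet_symmDiff {V : Type*} (G H : SimpleGraph V) :
    (symmDiff G H).edgeSet = symmDiff G.edgeSet H.edgeSet := by
  ext e
  induction e with
  | _ a b =>
    rw [Set.mem_symmDiff]
    simp only [SimpleGraph.mem_edgeSet, symmDiff_adj]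

/-- The characteristic polynomial modulo two. -/
lemma charpoly_mod_two {V : Type*} [Fintype V] [DecidableEq V] {G H : SimpleGraph V}
    (h : (adjM ℤ H).charpoly = (adjM ℤ G).charpoly) :
    (adjM (ZMod 2) G).charpoly = (adjM (ZMod 2) H).charpoly := by
  have key : ∀ G : SimpleGraph V, (adjM (ZMod 2) G).charpoly =
      (adjM ℤ G).charpoly.map (Int.castRingHom (ZMod 2)) := by
    intro G
    rw [← Matrix.charpoly_map]
    congr 1
    ext a b
    simp only [Matrix.map_apply, adjM_apply]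
    by_cases hab : G.Adj a b <;> simp [hab]
  rw [key, key, h]

/-- The number of graphs cospectral modulo two with their modification by a graph with few edges. -/
theorem cnt_few {n d : ℕ} (hd : 2 * d + 1 ≤ n) (D : SimpleGraph (Fin n)) (hD0 : D ≠ ⊥)
    (hDd : D.edgeSet.ncard ≤ d) :
    (cnt (fun G : SimpleGraph (Fin n) =>
      (adjM (ZMod 2) G).charpoly = (adjM (ZMod 2) (symmDiff G D)).charpoly) : ℝ) ≤
      2 ^ n.choose 2 * (2 : ℝ) ^ ((3 * d : ℝ) - n / 2) := by
  classical
  -- the support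
  let T : Finset (Fin n) := univ.filter fun a => ∃ b, D.Adj a b
  have hT : T.card ≤ 2 * d := by
    have h1 : T ⊆ D.edgeFinset.biUnion fun e => e.toFinset := by
      intro a ha
      simp only [T, Finset.mem_filter, Finset.mem_univ, true_and] at ha
      obtain ⟨b, hb⟩ := ha
      rw [Finset.mem_biUnion]
      exact ⟨s(a, b), by rw [SimpleGraph.mem_edgeFinset]; exact hb, by simp⟩
    have h2 : D.edgeFinset.card ≤ d := by
      rw [← SimpleGraph.coe_edgeFinset, Set.ncard_coe_finset] at hDd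
      exact hDd
    calc T.card ≤ _ := Finset.card_le_card h1
      _ ≤ ∑ e ∈ D.edgeFinset, e.toFinset.card := Finset.card_biUnion_le
      _ ≤ ∑ _e ∈ D.edgeFinset, 2 := by
          refine Finset.sum_le_sum fun e he => ?_
          rw [Sym2.card_toFinset]
          split_ifs <;> omega
      _ = D.edgeFinset.card * 2 := by rw [Finset.sum_const, smul_eq_mul]
      _ ≤ 2 * d := by omega
  have hd1 : 1 ≤ d := by
    by_contra h
    have h0 : D.edgeSet.ncard = 0 := by omega
    rw [Set.ncard_eq_zero] at h0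
    exact hD0 (SimpleGraph.edgeSet_eq_empty.1 h0)
  obtain ⟨u, hu1, hu2, hu3⟩ : ∃ u, 2 * d ≤ u ∧ u ≤ 2 * d + 1 ∧ Odd (n - u) := by
    rcases Nat.even_or_odd n with hn | hn
    · obtain ⟨k, hk⟩ := hn
      exact ⟨2 * d + 1, by omega, le_rfl, ⟨k - d - 1, by omega⟩⟩
    · obtain ⟨k, hk⟩ := hn
      exact ⟨2 * d, le_rfl, by omega, ⟨k - d, by omega⟩⟩
  obtain ⟨U₀, hU1, hU2⟩ := Finset.exists_superset_card_eq (s := T) (n := u) (by omega)
    (by rw [Fintype.card_fin]; omega)
  have hsupp : ∀ a b, D.Adj a b → a ∈ U₀ ∧ b ∈ U₀ := by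
    intro a b hab
    exact ⟨hU1 (by simp only [T, Finset.mem_filter, Finset.mem_univ, true_and]; exact ⟨b, hab⟩),
      hU1 (by simp only [T, Finset.mem_filter, Finset.mem_univ, true_and]; exact ⟨a, hab.symm⟩)⟩
  have hmain := cnt_shift U₀ D hsupp hD0 (by rw [Fintype.card_fin, hU2]; exact hu3)
  rw [Fintype.card_fin, hU2] at hmain
  have hmain' : (cnt (fun G : SimpleGraph (Fin n) =>
      (adjM (ZMod 2) G).charpoly = (adjM (ZMod 2) (symmDiff G D)).charpoly) : ℝ) * 2 ^ (n - u) ≤
      2 ^ n.choose 2 * 2 ^ ((u - 2) + (n - u + 1) / 2) := by exact_mod_cast hmain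
  obtain ⟨k, hk⟩ := hu3
  have h5 : ((u - 2) + (n - u + 1) / 2 : ℕ) = u - 2 + (k + 1) := by omega
  have h6 : (n : ℝ) = u + (2 * k + 1) := by
    have : n = u + (2 * k + 1) := by omega
    rw [this]; push_cast; ring
  have h7 : ((2 : ℝ) ^ ((3 * d : ℝ) - n / 2)) * 2 ^ (n - u) ≥ 2 ^ ((u - 2) + (n - u + 1) / 2) := by
    rw [h5, hk, ← Real.rpow_natCast, ← Real.rpow_natCast, ← Real.rpow_add (by norm_num)]
    apply Real.rpow_le_rpow_of_exponent_le (by norm_num)
    have h8 : ((u - 2 + (k + 1) : ℕ) : ℝ) = (u : ℝ) - 2 + (k + 1) := by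
      have : 2 ≤ u := by omega
      push_cast [this]; ring
    rw [h8, h6]
    push_cast
    have h9 : (u : ℝ) ≤ 2 * d + 1 := by exact_mod_cast hu2
    linarith
  have h10 : (0 : ℝ) < 2 ^ (n - u) := by positivity
  rw [← mul_le_mul_iff_left₀ h10]
  calc _ ≤ _ := hmain'
    _ ≤ 2 ^ n.choose 2 * (((2 : ℝ) ^ ((3 * d : ℝ) - n / 2)) * 2 ^ (n - u)) := by
        refine mul_le_mul_of_nonneg_left h7 (by positivity)
    _ = _ := by ring

/-- The number of graphs with few edges. -/
theorem cnt_graphs_few (n d : ℕ) (t : ℝ) (ht0 : 0 < t) (ht1 : t ≤ 1) :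
    (cnt (fun D : SimpleGraph (Fin n) => D.edgeSet.ncard ≤ d) : ℝ) ≤
      (1 + t) ^ n.choose 2 * (1 / t) ^ d := by
  classical
  set N := n.choose 2 with hN
  have h1 : cnt (fun D : SimpleGraph (Fin n) => D.edgeSet.ncard ≤ d) ≤
      ∑ j ∈ Finset.range (d + 1), N.choose j := by
    have hcard : (⊤ : SimpleGraph (Fin n)).edgeFinset.card = N := by
      rw [SimpleGraph.card_edgeFinset_top_eq_card_choose_two, Fintype.card_fin]
    rw [cnt_eq]
    calc _ ≤ ((Finset.range (d + 1)).biUnion fun j =>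
          Finset.powersetCard j (⊤ : SimpleGraph (Fin n)).edgeFinset).card := by
          refine Finset.card_le_card_of_injOn (fun D => D.edgeFinset) ?_ ?_
          · intro D hD
            rw [Finset.mem_coe, Finset.mem_filter] at hD
            rw [Finset.mem_coe, Finset.mem_biUnion]
            refine ⟨D.edgeFinset.card, ?_, ?_⟩
            · rw [Finset.mem_range]
              have := hD.2
              rw [← SimpleGraph.coe_edgeFinset, Set.ncard_coe_finset] at this
              omega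
            · rw [Finset.mem_powersetCard]
              exact ⟨SimpleGraph.edgeFinset_mono le_top, rfl⟩
          · intro D _ D' _ h
            exact SimpleGraph.edgeFinset_inj.1 h
      _ ≤ ∑ j ∈ Finset.range (d + 1),
          (Finset.powersetCard j (⊤ : SimpleGraph (Fin n)).edgeFinset).card :=
          Finset.card_biUnion_le
      _ = _ := by
          refine Finset.sum_congr rfl fun j _ => ?_
          rw [Finset.card_powersetCard, hcard]
  have h2 : (∑ j ∈ Finset.range (d + 1), (N.choose j : ℝ)) * t ^ d ≤ (1 + t) ^ N := by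
    rw [Finset.sum_mul]
    have h3 : (1 + t) ^ N = ∑ j ∈ Finset.range (N + 1), t ^ j * (N.choose j : ℝ) := by
      rw [add_comm, add_pow]
      refine Finset.sum_congr rfl fun j _ => ?_
      rw [one_pow, mul_one]
    have h4 : ∀ j ∈ Finset.range (d + 1), (N.choose j : ℝ) * t ^ d ≤ t ^ j * (N.choose j : ℝ) := by
      intro j hj
      rw [Finset.mem_range] at hj
      rw [mul_comm]
      refine mul_le_mul_of_nonneg_right ?_ (Nat.cast_nonneg _)
      exact pow_le_pow_of_le_one ht0.le ht1 (by omega)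
    refine (Finset.sum_le_sum h4).trans ?_
    rw [h3]
    rcases le_or_gt (d + 1) (N + 1) with h | h
    · exact Finset.sum_le_sum_of_subset_of_nonneg (Finset.range_mono h)
        (fun j _ _ => by positivity)
    · rw [← Finset.sum_subset (Finset.range_mono h.le)]
      intro j _ hj
      rw [Finset.mem_range, not_lt] at hj
      rw [Nat.choose_eq_zero_of_lt (by omega)]
      simp
  have h5 : (cnt (fun D : SimpleGraph (Fin n) => D.edgeSet.ncard ≤ d) : ℝ) ≤
      ∑ j ∈ Finset.range (d + 1), (N.choose j : ℝ) := by exact_mod_cast h1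
  have h6 : 0 < t ^ d := by positivity
  rw [one_div, inv_pow, ← div_eq_mul_inv, le_div_iff₀ h6]
  exact (mul_le_mul_of_nonneg_right h5 h6.le).trans h2

/-- The number of graphs with a cospectral graph close to them. -/
theorem cnt_close {n d : ℕ} (hd : 2 * d + 1 ≤ n) (t : ℝ) (ht0 : 0 < t) (ht1 : t ≤ 1) :
    (cnt (fun G : SimpleGraph (Fin n) => ∃ H : SimpleGraph (Fin n), H ≠ G ∧
      (adjM ℤ H).charpoly = (adjM ℤ G).charpoly ∧ (symmDiff G.edgeSet H.edgeSet).ncard ≤ d) : ℝ) ≤
      ((1 + t) ^ n.choose 2 * (1 / t) ^ d) *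
        (2 ^ n.choose 2 * (2 : ℝ) ^ ((3 * d : ℝ) - n / 2)) := by
  classical
  have h1 : cnt (fun G : SimpleGraph (Fin n) => ∃ H : SimpleGraph (Fin n), H ≠ G ∧
      (adjM ℤ H).charpoly = (adjM ℤ G).charpoly ∧ (symmDiff G.edgeSet H.edgeSet).ncard ≤ d) ≤
      ∑ D : SimpleGraph (Fin n), cnt (fun G : SimpleGraph (Fin n) => D ≠ ⊥ ∧ D.edgeSet.ncard ≤ d ∧
        (adjM (ZMod 2) G).charpoly = (adjM (ZMod 2) (symmDiff G D)).charpoly) := by
    refine (cnt_mono ?_).trans (cnt_exists_le' _)
    rintro G ⟨H, hne, hH, hd⟩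
    refine ⟨symmDiff G H, ?_, ?_, ?_⟩
    · rw [Ne, symmDiff_eq_bot]; exact fun h => hne h.symm
    · rw [edgeSet_symmDiff]; exact hd
    · rw [symmDiff_symmDiff_cancel_left]; exact charpoly_mod_two hH
  have h2 : (cnt (fun G : SimpleGraph (Fin n) => ∃ H : SimpleGraph (Fin n), H ≠ G ∧
      (adjM ℤ H).charpoly = (adjM ℤ G).charpoly ∧ (symmDiff G.edgeSet H.edgeSet).ncard ≤ d) : ℝ) ≤
      ∑ D : SimpleGraph (Fin n), (if D.edgeSet.ncard ≤ d then
        (2 ^ n.choose 2 * (2 : ℝ) ^ ((3 * d : ℝ) - n / 2)) else 0) := by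
    refine le_trans (Nat.cast_le.2 h1) ?_
    rw [Nat.cast_sum]
    refine Finset.sum_le_sum fun D _ => ?_
    by_cases h : D ≠ ⊥ ∧ D.edgeSet.ncard ≤ d
    · rw [if_pos h.2]
      refine le_trans ?_ (cnt_few hd D h.1 h.2)
      exact Nat.cast_le.2 (cnt_mono fun G hG => hG.2.2)
    · have : cnt (fun G : SimpleGraph (Fin n) => D ≠ ⊥ ∧ D.edgeSet.ncard ≤ d ∧
        (adjM (ZMod 2) G).charpoly = (adjM (ZMod 2) (symmDiff G D)).charpoly) = 0 := by
        rw [← cnt_false (α := SimpleGraph (Fin n))]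
        exact cnt_congr fun G => ⟨fun hG => h ⟨hG.1, hG.2.1⟩, fun h => h.elim⟩
      rw [this, Nat.cast_zero]
      split_ifs
      · positivity
      · exact le_rfl
  refine h2.trans ?_
  rw [← Finset.sum_filter, Finset.sum_const, nsmul_eq_mul, ← cnt_eq]
  exact mul_le_mul_of_nonneg_right (cnt_graphs_few n d t ht0 ht1) (by positivity)

end Pool.Agent.Helper185_DS
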