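import Mathlib
import Pool.Agent.Helper185_DS.Asym

/-!
# The characteristic polynomial of a graph with one additional vertex
-/

set_option autoImplicit false
set_option linter.unusedSectionVars false
set_option linter.unusedSimpArgs false

namespace Pool.Agent.Helper185_DS

open Matrix Finset Filter Topology

section series

variable {W : Type*} [Fintype W] [DecidableEq W] (A : Matrix W W ℤ)

lemma kr_eq_pow (z : W → ℤ) (k : ℕ) : kr A z k = (A ^ k) *ᵥ z := by
  induction k with
  | zero => simp
  | succ k ih => rw [kr_succ, ih, Matrix.mulVec_mulVec, pow_succ']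

/-- The generating series of the powers. -/
noncomputable def gser : Matrix W W (PowerSeries ℤ) :=
  fun i j => PowerSeries.mk fun k => (A ^ k) i j

/-- The matrix `1 - X A`. -/
noncomputable def rser : Matrix W W (PowerSeries ℤ) :=
  1 - (PowerSeries.X : PowerSeries ℤ) • A.map (PowerSeries.C (R := ℤ))

lemma rser_mul_gser : rser A * gser A = 1 := by
  ext1 i j
  ext k
  rw [rser, sub_mul, one_mul, Matrix.sub_apply, map_sub, Matrix.smul_mul, Matrix.smul_apply,
    smul_eq_mul]
  rcases k with _ | k
  · rw [PowerSeries.coeff_zero_X_mul, sub_zero, gser, PowerSeries.coeff_mk, pow_zero]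
    by_cases h : i = j
    · subst h; simp
    · simp [h]
  · rw [PowerSeries.coeff_succ_X_mul, Matrix.mul_apply, map_sum]
    have h1 : ∀ l, PowerSeries.coeff k ((A.map (PowerSeries.C (R := ℤ))) i l * gser A l j) =
        A i l * (A ^ k) l j := by
      intro l
      rw [Matrix.map_apply, PowerSeries.coeff_C_mul, gser, PowerSeries.coeff_mk]
    rw [Finset.sum_congr rfl fun l _ => h1 l, gser, PowerSeries.coeff_mk, pow_succ',
      Matrix.mul_apply, sub_self]
    by_cases h : i = j
    · subst h; simp [PowerSeries.coeff_one]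
    · simp [h]

/-- The bordered matrix. -/
def bordM (b : W → ℤ) : Matrix (W ⊕ Unit) (W ⊕ Unit) ℤ :=
  Matrix.fromBlocks A (Matrix.of fun w _ => b w) (Matrix.of fun _ w => b w) 0

/-- The moment series. -/
noncomputable def mser (b : W → ℤ) : PowerSeries ℤ :=
  PowerSeries.mk fun k => b ⬝ᵥ kr A b k

lemma det_bordM (b : W → ℤ) :
    (((bordM A b).charpolyRev : Polynomial ℤ) : PowerSeries ℤ) =
      (rser A).det * (1 - PowerSeries.X ^ 2 * mser A b) := by
  have h1 : (((bordM A b).charpolyRev : Polynomial ℤ) : PowerSeries ℤ) =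
      (1 - (PowerSeries.X : PowerSeries ℤ) • (bordM A b).map (PowerSeries.C (R := ℤ))).det := by
    rw [Matrix.charpolyRev, ← Polynomial.coeToPowerSeries.ringHom_apply, RingHom.map_det]
    congr 1
    ext1 i j
    have hc : ∀ z : ℤ, ((Polynomial.C z : Polynomial ℤ) : PowerSeries ℤ) = PowerSeries.C z :=
      fun z => Polynomial.coe_C z
    by_cases hij : i = j
    · subst hij
      rw [RingHom.mapMatrix_apply, Matrix.map_apply, Matrix.sub_apply, Matrix.sub_apply,
        Matrix.one_apply_eq, Matrix.one_apply_eq, Matrix.smul_apply, Matrix.smul_apply,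
        Matrix.map_apply, Matrix.map_apply, map_sub, map_one, smul_eq_mul, smul_eq_mul, map_mul,
        Polynomial.coeToPowerSeries.ringHom_apply, Polynomial.coeToPowerSeries.ringHom_apply,
        hc, Polynomial.coe_X]
    · rw [RingHom.mapMatrix_apply, Matrix.map_apply, Matrix.sub_apply, Matrix.sub_apply,
        Matrix.one_apply_ne hij, Matrix.one_apply_ne hij, Matrix.smul_apply, Matrix.smul_apply,
        Matrix.map_apply, Matrix.map_apply, map_sub, map_zero, smul_eq_mul, smul_eq_mul, map_mul,
        Polynomial.coeToPowerSeries.ringHom_apply, Polynomial.coeToPowerSeries.ringHom_apply,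
        hc, Polynomial.coe_X]
  rw [h1]
  have h2 : (1 - (PowerSeries.X : PowerSeries ℤ) • (bordM A b).map (PowerSeries.C (R := ℤ))) =
      Matrix.fromBlocks (rser A) (Matrix.of fun w _ => - (PowerSeries.X * PowerSeries.C (b w)))
        (Matrix.of fun _ w => - (PowerSeries.X * PowerSeries.C (b w))) (1 : Matrix Unit Unit _) := by
    ext1 i j
    rcases i with i | i <;> rcases j with j | j
    · by_cases hij : i = j
      · subst hij; simp [bordM, rser]
      · simp [bordM, rser, hij]
    · simp [bordM]
    · simp [bordM]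
    · simp [bordM]
  rw [h2]
  letI : Invertible (rser A) := ⟨gser A, mul_eq_one_comm.mp (rser_mul_gser A), rser_mul_gser A⟩
  have hinv : ⅟(rser A) = gser A := rfl
  rw [Matrix.det_fromBlocks₁₁, hinv]
  congr 1
  rw [Matrix.det_unique]
  rw [Matrix.sub_apply, Matrix.one_apply_eq, Matrix.mul_apply]
  congr 1
  simp only [Matrix.mul_apply, Matrix.of_apply]
  have h3 : PowerSeries.X ^ 2 * mser A b =
      ∑ j, (∑ i, -(PowerSeries.X * PowerSeries.C (b i)) * gser A i j) *
        -(PowerSeries.X * PowerSeries.C (b j)) := by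
    have h4 : mser A b = ∑ j, ∑ i, PowerSeries.C (b i) * gser A i j * PowerSeries.C (b j) := by
      ext k
      rw [mser, PowerSeries.coeff_mk, map_sum]
      simp only [map_sum]
      rw [kr_eq_pow]
      simp only [dotProduct, Matrix.mulVec, Finset.mul_sum]
      rw [Finset.sum_comm]
      refine Finset.sum_congr rfl fun j _ => Finset.sum_congr rfl fun i _ => ?_
      rw [PowerSeries.coeff_mul_C, PowerSeries.coeff_C_mul, gser, PowerSeries.coeff_mk]
      ring
    rw [h4, Finset.mul_sum]
    refine Finset.sum_congr rfl fun j _ => ?_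
    rw [Finset.mul_sum, Finset.sum_mul]
    refine Finset.sum_congr rfl fun i _ => ?_
    ring
  rw [h3]

/-- **Equal characteristic polynomials give equal moments.** -/
theorem moments_eq (b b' : W → ℤ) (h : (bordM A b).charpoly = (bordM A b').charpoly) (k : ℕ) :
    b ⬝ᵥ kr A b k = b' ⬝ᵥ kr A b' k := by
  have h1 : (bordM A b).charpolyRev = (bordM A b').charpolyRev := by
    rw [← Matrix.reverse_charpoly, ← Matrix.reverse_charpoly, h]
  have h2 := det_bordM A b
  rw [h1, det_bordM A b'] at h2
  have hdet : (rser A).det ≠ 0 := by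
    intro h0
    have := congrArg Matrix.det (rser_mul_gser A)
    rw [Matrix.det_mul, h0, zero_mul, Matrix.det_one] at this
    exact zero_ne_one this
  have h3 := mul_left_cancel₀ hdet h2
  have h4 : PowerSeries.X ^ 2 * mser A b' = PowerSeries.X ^ 2 * mser A b := by
    linear_combination -h3
  have h5 := mul_left_cancel₀ (pow_ne_zero 2 PowerSeries.X_ne_zero) h4
  have h6 := congrArg (PowerSeries.coeff k) h5
  rw [mser, mser, PowerSeries.coeff_mk, PowerSeries.coeff_mk] at h6
  exact h6.symm

end series

section onecard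

variable {W : Type*} [Fintype W] [LinearOrder W]

/-- A graph with one additional vertex has a cospectral mate with the same card. -/
def BadCard (G : SimpleGraph (W ⊕ Unit)) : Prop :=
  ∃ H : SimpleGraph (W ⊕ Unit), H ≠ G ∧ H.comap Sum.inl = G.comap Sum.inl ∧
    (adjM ℤ H).charpoly = (adjM ℤ G).charpoly

/-- The neighbourhood of the additional vertex. -/
noncomputable def nbv (G : SimpleGraph (W ⊕ Unit)) : W → ZMod 2 :=
  fun w => adjM (ZMod 2) G (Sum.inl w) (Sum.inr ())

lemma ext_card {G H : SimpleGraph (W ⊕ Unit)} (h1 : G.comap Sum.inl = H.comap Sum.inl)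
    (h2 : nbv G = nbv H) : G = H := by
  have key : ∀ w, G.Adj (Sum.inl w) (Sum.inr ()) ↔ H.Adj (Sum.inl w) (Sum.inr ()) := by
    intro w
    have := congrFun h2 w
    simp only [nbv, adjM_apply] at this
    by_cases g : G.Adj (Sum.inl w) (Sum.inr ()) <;> by_cases h : H.Adj (Sum.inl w) (Sum.inr ()) <;>
      simp_all
  ext a b
  rcases a with a | a <;> rcases b with b | b
  · have : (G.comap Sum.inl).Adj a b ↔ (H.comap Sum.inl).Adj a b := by rw [h1]
    simpa using this
  · exact key a
  · rw [G.adj_comm, H.adj_comm]; exact key b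
  · have ha : a = () := rfl
    have hb : b = () := rfl
    subst ha hb
    simp

lemma adjM_eq_bordM (G : SimpleGraph (W ⊕ Unit)) :
    adjM ℤ G = bordM (adjM ℤ (G.comap Sum.inl)) (lf (nbv G)) := by
  have hv : ∀ w, lf (nbv G) w = adjM ℤ G (Sum.inl w) (Sum.inr ()) := by
    intro w
    simp only [lf, nbv, adjM_apply]
    split_ifs
    · decide
    · decide
  ext1 a b
  rcases a with a | a <;> rcases b with b | b
  · simp only [bordM, Matrix.fromBlocks_apply₁₁]
    rfl
  · simp only [bordM, Matrix.fromBlocks_apply₁₂, Matrix.of_apply, hv]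
  · simp only [bordM, Matrix.fromBlocks_apply₂₁, Matrix.of_apply, hv]
    exact adjM_symm _ _ _
  · simp only [bordM, Matrix.fromBlocks_apply₂₂, Matrix.zero_apply]
    exact adjM_diag _ _

theorem cnt_badCard_le :
    cnt (BadCard (W := W)) ≤
      cnt (fun p : SimpleGraph W × (W → ZMod 2) => ∃ z, z ≠ 0 ∧ IC p.1 z (p.2 + z)) := by
  refine cnt_le_of_inj (fun G => (G.comap Sum.inl, nbv G)) ?_ ?_
  · rintro G ⟨H, hne, hcomap, hch⟩
    have hself : ∀ u v : W → ZMod 2, u + (u + v) = v := by
      intro u v
      ext i
      simp only [Pi.add_apply]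
      generalize u i = x; generalize v i = y; revert x y; decide
    refine ⟨nbv G + nbv H, ?_, ?_⟩
    · intro h0
      apply hne
      refine ext_card hcomap ?_
      have h1 := hself (nbv G) (nbv H)
      rw [h0, add_zero] at h1
      exact h1.symm
    · intro k
      simp only
      rw [hself, add_comm (nbv G) (nbv H), hself]
      rw [adjM_eq_bordM G, adjM_eq_bordM H, hcomap] at hch
      exact moments_eq _ _ _ hch.symm k
  · intro G H _ _ h
    rw [Prod.mk.injEq] at h
    exact ext_card h.1 h.2

end onecard

end Pool.Agent.Helper185_DS
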